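import Pool.Agent.TC.Defs

/-!
# The concrete objects: `Mh` (closed hypersurface in the torus of dimension 8), the group
`H5 = (ℤ/2)^5`, the manifold `Mq = Mh / H5`, the circle action, the group `H6` acting on `Mh × S²`.
-/

set_option autoImplicit false

open scoped Manifold ContDiff Topology

noncomputable section

namespace TC

theorem z2_cases (a : ZMod 2) : a = 0 ∨ a = 1 := by
  revert a; decide

theorem z2_one_add_one : (1 : ZMod 2) + 1 = 0 := by decide

/-- the sign `(-1)^a` -/
def sg (a : ZMod 2) : ℝ := if a = 0 then 1 else -1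

theorem sg_zero : sg 0 = 1 := by simp [sg]

theorem sg_add (a b : ZMod 2) : sg (a + b) = sg a * sg b := by
  rcases z2_cases a with rfl | rfl <;> rcases z2_cases b with rfl | rfl <;>
    simp [sg, z2_one_add_one]

theorem sg_mul_self (a : ZMod 2) : sg a * sg a = 1 := by
  rcases z2_cases a with rfl | rfl <;> simp [sg]

/-- A pair of signs acting on a unit complex number: the real part is multiplied by `(-1)^a`, the
imaginary part by `(-1)^b`. -/
def flipC (a b : ZMod 2) (z : Circle) : Circle :=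
  (if a = 0 then 1 else -1) * (if a + b = 0 then z else z⁻¹)

theorem flipC_re (a b : ZMod 2) (z : Circle) :
    ((flipC a b z : Circle) : ℂ).re = sg a * (z : ℂ).re := by
  rcases z2_cases a with rfl | rfl <;> rcases z2_cases b with rfl | rfl <;>
    simp [flipC, sg, Circle.coe_inv_eq_conj, z2_one_add_one]

theorem flipC_im (a b : ZMod 2) (z : Circle) :
    ((flipC a b z : Circle) : ℂ).im = sg b * (z : ℂ).im := by
  rcases z2_cases a with rfl | rfl <;> rcases z2_cases b with rfl | rfl <;>
    simp [flipC, sg, Circle.coe_inv_eq_conj, z2_one_add_one]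

theorem circle_ext {z w : Circle} (h1 : (z : ℂ).re = (w : ℂ).re) (h2 : (z : ℂ).im = (w : ℂ).im) :
    z = w := Circle.ext (Complex.ext h1 h2)

theorem flipC_zero (z : Circle) : flipC 0 0 z = z := by simp [flipC]

theorem flipC_add (a b a' b' : ZMod 2) (z : Circle) :
    flipC (a + a') (b + b') z = flipC a b (flipC a' b' z) := by
  apply circle_ext
  · rw [flipC_re, flipC_re, flipC_re, sg_add]; ring
  · rw [flipC_im, flipC_im, flipC_im, sg_add]; ring

theorem continuous_flipC (a b : ZMod 2) : Continuous (flipC a b) := by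
  unfold flipC
  split_ifs <;> fun_prop

/-- The function `(2 - Re z₄ - Re z₅)(2 - Re z₆ - Re z₇)`. -/
def levelF (z : Fin 8 → Circle) : ℝ :=
  (2 - (z 4 : ℂ).re - (z 5 : ℂ).re) * (2 - (z 6 : ℂ).re - (z 7 : ℂ).re)

/-- The closed hypersurface `T⁴ × Y` of the torus of dimension 8. -/
def Mh : Type := {z : Fin 8 → Circle // levelF z = 2}

instance : TopologicalSpace Mh := inferInstanceAs (TopologicalSpace {z : Fin 8 → Circle // levelF z = 2})

/-- The signs of the real parts given by a vector of signs of the 12 sign coordinates.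
Sign coordinates: `2 j` is `Re z_j`, `2 j + 1` is `Im z_j` (`j < 4`), `8 + i` is `Im z_{4+i}`. -/
def reS (g : Fin 12 → ZMod 2) : Fin 8 → ZMod 2 := ![g 0, g 2, g 4, g 6, 0, 0, 0, 0]

/-- The signs of the imaginary parts. -/
def imS (g : Fin 12 → ZMod 2) : Fin 8 → ZMod 2 :=
  ![g 1, g 3, g 5, g 7, g 8, g 9, g 10, g 11]

theorem reS_add (g h : Fin 12 → ZMod 2) (i : Fin 8) : reS (g + h) i = reS g i + reS h i := by
  fin_cases i <;> simp [reS]

theorem imS_add (g h : Fin 12 → ZMod 2) (i : Fin 8) : imS (g + h) i = imS g i + imS h i := by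
  fin_cases i <;> simp [imS]

theorem reS_zero (i : Fin 8) : reS 0 i = 0 := by fin_cases i <;> simp [reS]

theorem imS_zero (i : Fin 8) : imS 0 i = 0 := by fin_cases i <;> simp [imS]

theorem levelF_flip (g : Fin 12 → ZMod 2) (z : Fin 8 → Circle) :
    levelF (fun i => flipC (reS g i) (imS g i) (z i)) = levelF z := by
  simp only [levelF, flipC_re]
  simp [reS, sg]

/-- The group of sign changes of the 12 sign coordinates acts on `Mh`. -/
instance : AddAction (Fin 12 → ZMod 2) Mh where
  vadd g z := ⟨fun i => flipC (reS g i) (imS g i) (z.1 i), by rw [levelF_flip]; exact z.2⟩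
  zero_vadd z := Subtype.ext (funext fun i => by
    show flipC (reS 0 i) (imS 0 i) (z.1 i) = z.1 i
    rw [reS_zero, imS_zero, flipC_zero])
  add_vadd g h z := Subtype.ext (funext fun i => by
    show flipC (reS (g + h) i) (imS (g + h) i) (z.1 i) =
      flipC (reS g i) (imS g i) (flipC (reS h i) (imS h i) (z.1 i))
    rw [reS_add, imS_add, flipC_add])

theorem vadd12_apply (g : Fin 12 → ZMod 2) (z : Mh) (i : Fin 8) :
    (g +ᵥ z).1 i = flipC (reS g i) (imS g i) (z.1 i) := rfl

instance : ContinuousConstVAdd (Fin 12 → ZMod 2) Mh where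
  continuous_const_vadd g := by
    refine Continuous.subtype_mk ?_ _
    exact continuous_pi fun i => (continuous_flipC _ _).comp
      ((continuous_apply i).comp continuous_subtype_val)

/-- The group `(ℤ/2)^5` with coordinates `x, y₁, y₂, y₃, y`. -/
abbrev H5 := Fin 5 → ZMod 2

/-- The characters of the 12 sign coordinates. -/
def chi12 : H5 →+ (Fin 12 → ZMod 2) where
  toFun h := ![h 0, h 0, h 1, h 1, h 2, h 2 + h 1, h 3, h 3 + h 0,
    h 4, h 4 + h 3, h 4 + h 2, h 4 + h 0 + h 1 + h 2 + h 3]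
  map_zero' := by funext i; fin_cases i <;> simp
  map_add' a b := by funext i; fin_cases i <;> simp <;> ring

instance : AddAction H5 Mh where
  vadd h z := chi12 h +ᵥ z
  zero_vadd z := by show chi12 0 +ᵥ z = z; rw [map_zero, zero_vadd]
  add_vadd g h z := by show chi12 (g + h) +ᵥ z = chi12 g +ᵥ (chi12 h +ᵥ z); rw [map_add, add_vadd]

theorem vadd5_eq (h : H5) (z : Mh) : h +ᵥ z = chi12 h +ᵥ z := rfl

instance : ContinuousConstVAdd H5 Mh where
  continuous_const_vadd h := continuous_const_vadd (chi12 h)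

/-- The manifold `M = Mh / H5`. -/
def Mq : Type := Quotient (AddAction.orbitRel H5 Mh)

instance : TopologicalSpace Mq :=
  inferInstanceAs (TopologicalSpace (Quotient (AddAction.orbitRel H5 Mh)))

/-- The projection `Mh → M`. -/
def qM (z : Mh) : Mq := Quotient.mk _ z

theorem qM_eq_iff {z w : Mh} : qM z = qM w ↔ ∃ h : H5, h +ᵥ w = z := by
  constructor
  · intro h
    exact Quotient.exact h
  · rintro ⟨h, rfl⟩
    exact Quotient.sound ⟨h, rfl⟩

theorem qM_vadd (h : H5) (z : Mh) : qM (h +ᵥ z) = qM z := Quotient.sound ⟨h, rfl⟩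

/-! ## The circle action -/

/-- Rotation of the coordinate `z₀` by the angle `π t`. -/
def rotM (t : ℝ) (z : Mh) : Mh :=
  ⟨Function.update z.1 0 (Circle.exp (Real.pi * t) * z.1 0), by
    have := z.2
    simpa [levelF, Function.update] using this⟩

theorem rotM_zero' (t : ℝ) (z : Mh) : (rotM t z).1 0 = Circle.exp (Real.pi * t) * z.1 0 := by
  simp [rotM]

theorem rotM_ne (t : ℝ) (z : Mh) (i : Fin 8) (hi : i ≠ 0) : (rotM t z).1 i = z.1 i := by
  simp [rotM, Function.update_of_ne hi]

theorem rotM_vadd (t : ℝ) (h : H5) (z : Mh) : rotM t (h +ᵥ z) = h +ᵥ rotM t z := by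
  apply Subtype.ext
  funext i
  by_cases hi : i = 0
  · subst hi
    rw [rotM_zero', vadd5_eq, vadd5_eq, vadd12_apply, vadd12_apply, rotM_zero']
    have h1 : reS (chi12 h) 0 = h 0 := by simp [reS, chi12]
    have h2 : imS (chi12 h) 0 = h 0 := by simp [imS, chi12]
    rw [h1, h2]
    have h3 : h 0 + h 0 = 0 := by
      generalize h 0 = a
      revert a; decide
    simp only [flipC, h3, if_true]
    split_ifs <;> simp
  · rw [rotM_ne _ _ _ hi, vadd5_eq, vadd5_eq, vadd12_apply, vadd12_apply, rotM_ne _ _ _ hi]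

/-- The circle action on `M`. -/
def actM (t : ℝ) : Mq → Mq :=
  Quotient.map (rotM t) (by
    rintro a b ⟨h, rfl⟩
    exact ⟨h, (rotM_vadd t h b).symm⟩)

theorem actM_mk (t : ℝ) (z : Mh) : actM t (qM z) = qM (rotM t z) := rfl

/-- The characters of the 7 lines in the tangent bundle. -/
def chi7 : H5 →+ (Fin 7 → ZMod 2) where
  toFun h := ![0, h 1, h 0, h 4, h 4 + h 3, h 4 + h 2, h 4 + h 0 + h 1 + h 2 + h 3]
  map_zero' := by funext i; fin_cases i <;> simp
  map_add' a b := by funext i; fin_cases i <;> simp <;> ring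

/-- Sign change of a vector. -/
def sgv {n : ℕ} (a : Fin n → ZMod 2) (v : Fin n → ℝ) : Fin n → ℝ := fun i => sg (a i) * v i

/-- Interface of the block MFD: the smooth structure of `M`, the smooth circle action, and the
equivariant trivialisation of the tangent bundle over `Mh`. -/
def MFD_main : Prop :=
  ∃ (_ : ChartedSpace (EuclideanSpace ℝ (Fin 7)) Mq) (_ : IsManifold (𝓡 7) ∞ Mq)
    (Θ : ∀ z : Mh, (Fin 7 → ℝ) ≃ₗ[ℝ] TangentSpace (𝓡 7) (qM z)),
    Continuous (fun p : Mh × (Fin 7 → ℝ) => (⟨qM p.1, Θ p.1 p.2⟩ : TangentBundle (𝓡 7) Mq)) ∧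
    (∀ (h : H5) (z : Mh) (v : Fin 7 → ℝ),
      (⟨qM (h +ᵥ z), Θ (h +ᵥ z) (sgv (chi7 h) v)⟩ : TangentBundle (𝓡 7) Mq) =
        ⟨qM z, Θ z v⟩) ∧
    ContMDiff ((𝓘(ℝ, ℝ)).prod (𝓡 7)) (𝓡 7) ∞ (fun p : ℝ × Mq => actM p.1 p.2) ∧
    (∀ (t : ℝ) (z : Mh) (v : Fin 7 → ℝ),
      tangentMap (𝓡 7) (𝓡 7) (actM t) (⟨qM z, Θ z v⟩ : TangentBundle (𝓡 7) Mq) =
        ⟨qM (rotM t z), Θ (rotM t z) v⟩)

/-- Interface: topological properties of `M`. -/
def TOP_main : Prop := T2Space Mq ∧ CompactSpace Mq ∧ IsAddQuotientCoveringMap qM H5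

/-- Interface of the block ASP. -/
def ASP_main : Prop := Aspherical Mq ∧ ConnectedSpace Mq

/-! ## The group `H6` and the total space -/

/-- The group `(ℤ/2)^6` with coordinates `x, y₁, y₂, y₃, y, s`. -/
abbrev H6 := Fin 6 → ZMod 2

/-- The homomorphism `H6 → (ℤ/2)^12`: the coordinate `s` changes the sign of `z₀`. -/
def chi12' : H6 →+ (Fin 12 → ZMod 2) where
  toFun h := ![h 0 + h 5, h 0 + h 5, h 1, h 1, h 2, h 2 + h 1, h 3, h 3 + h 0,
    h 4, h 4 + h 3, h 4 + h 2, h 4 + h 0 + h 1 + h 2 + h 3]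
  map_zero' := by funext i; fin_cases i <;> simp
  map_add' a b := by funext i; fin_cases i <;> simp <;> ring

/-- The covering space `Z = Mh × S²` of the total space. -/
abbrev ZZ := Mh × S2

instance : AddAction H6 ZZ where
  vadd h z := (chi12' h +ᵥ z.1, if h 5 = 0 then z.2 else -z.2)
  zero_vadd z := by
    show (chi12' 0 +ᵥ z.1, if (0 : H6) 5 = 0 then z.2 else -z.2) = z
    rw [map_zero, zero_vadd]
    simp
  add_vadd g h z := by
    show (chi12' (g + h) +ᵥ z.1, if (g + h) 5 = 0 then z.2 else -z.2) =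
      (chi12' g +ᵥ (chi12' h +ᵥ z.1), if g 5 = 0 then (if h 5 = 0 then z.2 else -z.2)
        else -(if h 5 = 0 then z.2 else -z.2))
    rw [map_add, add_vadd]
    congr 1
    show (if g 5 + h 5 = 0 then z.2 else -z.2) = _
    generalize g 5 = a
    generalize h 5 = b
    rcases z2_cases a with rfl | rfl <;> rcases z2_cases b with rfl | rfl <;>
      simp [z2_one_add_one]

theorem vadd6_eq (h : H6) (z : ZZ) :
    h +ᵥ z = (chi12' h +ᵥ z.1, if h 5 = 0 then z.2 else -z.2) := rfl

theorem actM_one_invol : Function.Involutive (actM 1) := by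
  intro m
  induction m using Quotient.inductionOn with
  | _ z =>
    show qM (rotM 1 (rotM 1 z)) = qM z
    congr 1
    apply Subtype.ext
    funext i
    by_cases hi : i = 0
    · subst hi
      rw [rotM_zero', rotM_zero', ← mul_assoc, ← Circle.exp_add]
      have : Circle.exp (Real.pi * 1 + Real.pi * 1) = 1 := by
        rw [mul_one, ← two_mul]
        exact Circle.exp_two_pi
      rw [this, one_mul]
    · rw [rotM_ne _ _ _ hi, rotM_ne _ _ _ hi]

/-- The total space `E` of the bundle. -/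
abbrev EE := Tot (actM 1) actM_one_invol

/-- The projection `Z → E`. -/
def qE (z : ZZ) : EE := Tot.mk _ _ (qM z.1, z.2)

/-- Interface: `E = Z / H6`. -/
def QE_main : Prop := IsAddQuotientCoveringMap qE H6

end TC
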