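import Pool.Agent.TC.Iface

/-!
# Cup products and the Bockstein cochain: the statements CUPA and CUPB
-/

set_option autoImplicit false

open scoped Topology

noncomputable section

namespace TC

namespace CUP

variable {X : Type} [TopologicalSpace X]

theorem smap_comp {m k l : ℕ} (θ : Fin (k + 1) → Fin (l + 1)) (η : Fin (m + 1) → Fin (k + 1)) :
    (smap θ).comp (smap η) = smap (θ ∘ η) := by
  ext x i
  show (stdSimplex.map θ (stdSimplex.map η x)) i = stdSimplex.map (θ ∘ η) x i
  rw [stdSimplex.map_comp_apply]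

theorem res_res {m k l : ℕ} (σ : C(Simp l, X)) (θ : Fin (k + 1) → Fin (l + 1))
    (η : Fin (m + 1) → Fin (k + 1)) : res (res σ θ) η = res σ (θ ∘ η) := by
  unfold res
  rw [ContinuousMap.comp_assoc, smap_comp]

/-- Restriction along a function of natural numbers. -/
def nres {k : ℕ} (σ : C(Simp k, X)) (m : ℕ) (g : ℕ → ℕ) : C(Simp m, X) :=
  res σ fun i => ⟨min (g i) k, by omega⟩

theorem nres_congr {k m : ℕ} (σ : C(Simp k, X)) {g g' : ℕ → ℕ} (h : ∀ i ≤ m, g i = g' i) :
    nres σ m g = nres σ m g' := by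
  unfold nres
  congr 1
  funext i
  apply Fin.ext
  show min (g i) k = min (g' i) k
  rw [h i (by omega)]

theorem nres_nres {k l m : ℕ} (σ : C(Simp k, X)) (g g' : ℕ → ℕ) (h : ∀ i ≤ m, g' i ≤ l) :
    nres (nres σ l g) m g' = nres σ m (fun i => g (g' i)) := by
  unfold nres
  rw [res_res]
  congr 1
  funext i
  have h1 : min (g' i) l = g' i := min_eq_left (h i (by omega))
  apply Fin.ext
  show min (g (min (g' i) l)) k = min (g (g' i)) k
  rw [h1]

/-- the map which omits `j` -/
def skip (j i : ℕ) : ℕ := if i < j then i else i + 1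

theorem comp_face {k : ℕ} (σ : C(Simp (k + 1), X)) (j : Fin (k + 2)) :
    σ.comp (face j) = nres σ k (skip j) := by
  unfold nres res face
  congr 2
  funext i
  apply Fin.ext
  show ((j.succAbove i : Fin (k + 2)) : ℕ) = min (skip j i) (k + 1)
  have hi := i.2
  unfold skip Fin.succAbove
  by_cases h : (i : ℕ) < j
  · rw [if_pos h, if_pos (show i.castSucc < j from h), min_eq_left (by omega)]
    rfl
  · rw [if_neg h, if_neg (show ¬ i.castSucc < j from h), min_eq_left (by omega)]
    rfl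

theorem cobd_eq {k : ℕ} (c : Coch X k) (σ : C(Simp (k + 1), X)) :
    cobd c σ = ∑ j ∈ Finset.range (k + 2), c (nres σ k (skip j)) := by
  rw [Finset.sum_range]
  show ∑ i, c (σ.comp (face i)) = _
  refine Finset.sum_congr rfl fun j _ => ?_
  rw [comp_face]

/-- The cup product. -/
def cup {p q n : ℕ} (_h : p + q = n) (a : Coch X p) (b : Coch X q) : Coch X n := fun σ =>
  a (nres σ p id) * b (nres σ q fun t => p + t)

theorem two_mul_F2 (x : F2) : x + x = 0 := by
  revert x; decide

theorem leibniz {p q n : ℕ} (h : p + q = n) (h1 : p + 1 + q = n + 1) (h2 : p + (q + 1) = n + 1)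
    (a : Coch X p) (b : Coch X q) :
    cobd (cup h a b) = cup h1 (cobd a) b + cup h2 a (cobd b) := by
  funext σ
  subst h
  rw [cobd_eq, Pi.add_apply]
  have hl : ∀ i ∈ Finset.range (p + q + 2), cup rfl a b (nres σ (p + q) (skip i)) =
      a (nres σ p (skip i)) * b (nres σ q fun t => skip i (p + t)) := by
    intro i hi
    unfold cup
    rw [nres_nres _ _ _ (fun i hi => by simp only [id]; omega),
      nres_nres _ _ _ (fun i hi => by omega)]
    rfl
  rw [Finset.sum_congr rfl hl, show p + q + 2 = (p + 1) + (q + 1) by ring,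
    Finset.sum_range_add]
  have e1 : ∑ x ∈ Finset.range (p + 1), a (nres σ p (skip x)) *
      b (nres σ q fun t => skip x (p + t)) =
      (∑ x ∈ Finset.range (p + 1), a (nres σ p (skip x))) *
        b (nres σ q fun t => p + 1 + t) := by
    rw [Finset.sum_mul]
    refine Finset.sum_congr rfl fun x hx => ?_
    have hx' := Finset.mem_range.1 hx
    congr 2
    refine nres_congr σ fun t _ => ?_
    unfold skip
    rw [if_neg (by omega)]
    omega
  have e2 : ∑ x ∈ Finset.range (q + 1), a (nres σ p (skip (p + 1 + x))) *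
      b (nres σ q fun t => skip (p + 1 + x) (p + t)) =
      a (nres σ p id) * ∑ x ∈ Finset.range (q + 1),
        b (nres σ q fun t => p + skip (x + 1) t) := by
    rw [Finset.mul_sum]
    refine Finset.sum_congr rfl fun x _ => ?_
    congr 2
    · refine nres_congr σ fun t ht => ?_
      unfold skip
      rw [if_pos (by omega)]
      rfl
    · refine nres_congr σ fun t _ => ?_
      unfold skip
      by_cases h3 : t < x + 1
      · rw [if_pos (by omega), if_pos h3]
      · rw [if_neg (by omega), if_neg h3]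
        omega
  rw [e1, e2]
  have r1 : cup h1 (cobd a) b σ = ((∑ x ∈ Finset.range (p + 1), a (nres σ p (skip x))) +
      a (nres σ p id)) * b (nres σ q fun t => p + 1 + t) := by
    unfold cup
    rw [cobd_eq, show p + 2 = (p + 1) + 1 by ring, Finset.sum_range_succ]
    congr 2
    · refine Finset.sum_congr rfl fun x hx => ?_
      rw [nres_nres _ _ _ (fun i hi => by unfold skip; split_ifs <;> omega)]
      rfl
    · rw [nres_nres _ _ _ (fun i hi => by unfold skip; split_ifs <;> omega)]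
      congr 1
      refine nres_congr σ fun t ht => ?_
      show skip (p + 1) t = t
      unfold skip
      rw [if_pos (by omega)]
  have r2 : cup h2 a (cobd b) σ = a (nres σ p id) * ((∑ x ∈ Finset.range (q + 1),
      b (nres σ q fun t => p + skip (x + 1) t)) + b (nres σ q fun t => p + 1 + t)) := by
    unfold cup
    rw [cobd_eq, show q + 2 = (q + 1) + 1 by ring, Finset.sum_range_succ']
    congr 2
    · refine Finset.sum_congr rfl fun x hx => ?_
      have hx' := Finset.mem_range.1 hx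
      rw [nres_nres _ _ _ (fun i hi => by unfold skip; split_ifs <;> omega)]
    · rw [nres_nres _ _ _ (fun i hi => by unfold skip; split_ifs <;> omega)]
      congr 1
      refine nres_congr σ fun t ht => ?_
      show p + skip 0 t = p + 1 + t
      unfold skip
      rw [if_neg (by omega)]
      omega
  rw [r1, r2]
  have h3 := two_mul_F2 (a (nres σ p id) * b (nres σ q fun t => p + 1 + t))
  linear_combination -h3

theorem cup_add_left {p q n : ℕ} (h : p + q = n) (a a' : Coch X p) (b : Coch X q) :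
    cup h (a + a') b = cup h a b + cup h a' b := by
  funext σ
  show (a _ + a' _) * b _ = a _ * b _ + a' _ * b _
  ring

theorem cup_add_right {p q n : ℕ} (h : p + q = n) (a : Coch X p) (b b' : Coch X q) :
    cup h a (b + b') = cup h a b + cup h a b' := by
  funext σ
  show a _ * (b _ + b' _) = a _ * b _ + a _ * b' _
  ring

theorem cup_zero_left {p q n : ℕ} (h : p + q = n) (b : Coch X q) :
    cup h (0 : Coch X p) b = 0 := by
  funext σ
  show (0 : F2) * _ = 0
  ring

theorem cup_zero_right {p q n : ℕ} (h : p + q = n) (a : Coch X p) :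
    cup h a (0 : Coch X q) = 0 := by
  funext σ
  show _ * (0 : F2) = 0
  ring

/-! ### The Bockstein cochain -/

theorem cobd_two (W : Coch X 2) (τ : C(Simp 3, X)) :
    cobd W τ = W (nres τ 2 (skip 0)) + W (nres τ 2 (skip 1)) + W (nres τ 2 (skip 2)) +
      W (nres τ 2 (skip 3)) := by
  rw [cobd_eq]
  simp only [Finset.sum_range_succ, Finset.sum_range_zero, zero_add]

theorem cobd_one (W : Coch X 1) (τ : C(Simp 2, X)) :
    cobd W τ = W (nres τ 1 (skip 0)) + W (nres τ 1 (skip 1)) + W (nres τ 1 (skip 2)) := by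
  rw [cobd_eq]
  simp only [Finset.sum_range_succ, Finset.sum_range_zero, zero_add]

theorem cobd_three (W : Coch X 3) (τ : C(Simp 4, X)) :
    cobd W τ = W (nres τ 3 (skip 0)) + W (nres τ 3 (skip 1)) + W (nres τ 3 (skip 2)) +
      W (nres τ 3 (skip 3)) + W (nres τ 3 (skip 4)) := by
  rw [cobd_eq]
  simp only [Finset.sum_range_succ, Finset.sum_range_zero, zero_add]

theorem bock_eq (W : Coch X 2) (τ : C(Simp 3, X)) :
    bock W τ = ((((W (nres τ 2 (skip 0))).val : ℤ) - (W (nres τ 2 (skip 1))).val +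
      (W (nres τ 2 (skip 2))).val - (W (nres τ 2 (skip 3))).val) / 2 : ℤ) := by
  unfold bock
  simp only [comp_face, Fin.sum_univ_four]
  have e : (-1 : ℤ) ^ ((0 : Fin 4) : ℕ) * ((W (nres τ 2 (skip ((0 : Fin 4) : ℕ)))).val : ℤ) +
      (-1 : ℤ) ^ ((1 : Fin 4) : ℕ) * ((W (nres τ 2 (skip ((1 : Fin 4) : ℕ)))).val : ℤ) +
      (-1 : ℤ) ^ ((2 : Fin 4) : ℕ) * ((W (nres τ 2 (skip ((2 : Fin 4) : ℕ)))).val : ℤ) +
      (-1 : ℤ) ^ ((3 : Fin 4) : ℕ) * ((W (nres τ 2 (skip ((3 : Fin 4) : ℕ)))).val : ℤ) =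
      (((W (nres τ 2 (skip 0))).val : ℤ) - (W (nres τ 2 (skip 1))).val +
      (W (nres τ 2 (skip 2))).val - (W (nres τ 2 (skip 3))).val) := by
    norm_num
    ring
  rw [e]

theorem half_eq : ∀ a b c d : F2, a + b + c + d = 0 →
    ((((a.val : ℤ) - b.val + c.val - d.val) / 2 : ℤ) : F2) = c * a + b * d := by
  decide

theorem bock_poly {W : Coch X 2} (hW : cobd W = 0) (τ : C(Simp 3, X)) :
    bock W τ = W (nres τ 2 (skip 2)) * W (nres τ 2 (skip 0)) +
      W (nres τ 2 (skip 1)) * W (nres τ 2 (skip 3)) := by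
  rw [bock_eq]
  refine half_eq _ _ _ _ ?_
  rw [← cobd_two, hW]
  rfl

/-- the value of a `2`-cochain at the vertices `a, b, c` -/
def tr (W : Coch X 2) {k : ℕ} (σ : C(Simp k, X)) (a b c : ℕ) : F2 :=
  W (nres σ 2 fun t => if t = 0 then a else if t = 1 then b else c)

theorem tr_of {k : ℕ} (W : Coch X 2) (σ : C(Simp k, X)) (g : ℕ → ℕ) :
    W (nres σ 2 g) = tr W σ (g 0) (g 1) (g 2) := by
  unfold tr
  congr 1
  refine nres_congr σ fun t ht => ?_
  interval_cases t <;> rfl

/-- the cocycle relation -/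
theorem coc {W : Coch X 2} (hW : cobd W = 0) {k : ℕ} (σ : C(Simp k, X)) (a b c d : ℕ) :
    tr W σ b c d + tr W σ a c d + tr W σ a b d + tr W σ a b c = 0 := by
  set g : ℕ → ℕ := fun t => if t = 0 then a else if t = 1 then b else if t = 2 then c else d
    with hg
  have h := congrFun hW (nres σ 3 g)
  rw [cobd_two] at h
  rw [nres_nres _ _ _ (fun i hi => by unfold skip; split_ifs <;> omega),
    nres_nres _ _ _ (fun i hi => by unfold skip; split_ifs <;> omega),
    nres_nres _ _ _ (fun i hi => by unfold skip; split_ifs <;> omega),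
    nres_nres _ _ _ (fun i hi => by unfold skip; split_ifs <;> omega),
    tr_of W, tr_of W, tr_of W, tr_of W] at h
  exact h

theorem bock_tr {W : Coch X 2} (hW : cobd W = 0) {k : ℕ} (σ : C(Simp k, X)) (g : ℕ → ℕ) :
    bock W (nres σ 3 g) = tr W σ (g 0) (g 1) (g 3) * tr W σ (g 1) (g 2) (g 3) +
      tr W σ (g 0) (g 2) (g 3) * tr W σ (g 0) (g 1) (g 2) := by
  rw [bock_poly hW, nres_nres _ _ _ (fun i hi => by unfold skip; split_ifs <;> omega),
    nres_nres _ _ _ (fun i hi => by unfold skip; split_ifs <;> omega),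
    nres_nres _ _ _ (fun i hi => by unfold skip; split_ifs <;> omega),
    nres_nres _ _ _ (fun i hi => by unfold skip; split_ifs <;> omega),
    tr_of W, tr_of W, tr_of W, tr_of W]
  rfl

theorem bock_cocycle {W : Coch X 2} (hW : cobd W = 0) : cobd (bock W) = 0 := by
  funext σ
  rw [cobd_three, bock_tr hW, bock_tr hW, bock_tr hW, bock_tr hW, bock_tr hW]
  have e123 := coc hW σ 0 1 2 3
  have e124 := coc hW σ 0 1 2 4
  have e134 := coc hW σ 0 1 3 4
  have e234 := coc hW σ 0 2 3 4
  show tr W σ 1 2 4 * tr W σ 2 3 4 + tr W σ 1 3 4 * tr W σ 1 2 3 +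
    (tr W σ 0 2 4 * tr W σ 2 3 4 + tr W σ 0 3 4 * tr W σ 0 2 3) +
    (tr W σ 0 1 4 * tr W σ 1 3 4 + tr W σ 0 3 4 * tr W σ 0 1 3) +
    (tr W σ 0 1 4 * tr W σ 1 2 4 + tr W σ 0 2 4 * tr W σ 0 1 2) +
    (tr W σ 0 1 3 * tr W σ 1 2 3 + tr W σ 0 2 3 * tr W σ 0 1 2) = 0
  revert e123 e124 e134 e234
  generalize tr W σ 1 2 4 = a
  generalize tr W σ 2 3 4 = b
  generalize tr W σ 1 3 4 = c
  generalize tr W σ 1 2 3 = d
  generalize tr W σ 0 2 4 = e
  generalize tr W σ 0 3 4 = f
  generalize tr W σ 0 2 3 = g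
  generalize tr W σ 0 1 4 = i
  generalize tr W σ 0 1 3 = j
  generalize tr W σ 0 1 2 = l
  intro e123 e124 e134 e234
  have hd : d = g + j + l := by
    have : ∀ d g j l : F2, d + g + j + l = 0 → d = g + j + l := by decide
    exact this _ _ _ _ e123
  have ha : a = e + i + l := by
    have : ∀ d g j l : F2, d + g + j + l = 0 → d = g + j + l := by decide
    exact this _ _ _ _ e124
  have hc : c = f + i + j := by
    have : ∀ d g j l : F2, d + g + j + l = 0 → d = g + j + l := by decide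
    exact this _ _ _ _ e134
  have hb : b = f + e + g := by
    have : ∀ d g j l : F2, d + g + j + l = 0 → d = g + j + l := by decide
    exact this _ _ _ _ e234
  subst ha hb hc hd
  revert e f g i j l
  decide

theorem nres_res {k m : ℕ} (σ : C(Simp k, X)) (g : ℕ → ℕ) (θ : Fin (m + 1) → Fin (k + 1))
    (h : ∀ i : Fin (m + 1), min (g i) k = θ i) : nres σ m g = res σ θ := by
  unfold nres
  congr 1
  funext i
  exact Fin.ext (h i)

theorem bigC_eq (W : Coch X 2) :
    bigC W = cup (p := 6) (q := 3) (n := 9) rfl (cup (p := 4) (q := 2) (n := 6) rfl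
      (cup (p := 2) (q := 2) (n := 4) rfl W W) W) (bock W) := by
  funext σ
  have h0 : nres (nres σ 6 id) 4 id = nres σ 4 id := by
    rw [nres_nres _ _ _ (fun i hi => by show i ≤ 6; omega)]
    rfl
  have h1 : nres (nres (nres σ 6 id) 4 id) 2 id = res (m := 2) σ ![0, 1, 2] := by
    rw [h0, nres_nres _ _ _ (fun i hi => by show i ≤ 4; omega)]
    refine nres_res σ _ _ fun i => ?_
    fin_cases i <;> rfl
  have h2 : (nres (nres (nres σ 6 id) 4 id) 2 fun t => 2 + t) = res (m := 2) σ ![2, 3, 4] := by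
    rw [h0, nres_nres _ _ _ (fun i hi => by omega)]
    refine nres_res σ _ _ fun i => ?_
    fin_cases i <;> rfl
  have h3 : (nres (nres σ 6 id) 2 fun t => 4 + t) = res (m := 2) σ ![4, 5, 6] := by
    rw [nres_nres _ _ _ (fun i hi => by omega)]
    refine nres_res σ _ _ fun i => ?_
    fin_cases i <;> rfl
  have h4 : (nres σ 3 fun t => 6 + t) = res (m := 3) σ ![6, 7, 8, 9] := by
    refine nres_res σ _ _ fun i => ?_
    fin_cases i <;> rfl
  show W (res (m := 2) σ ![0, 1, 2]) * W (res (m := 2) σ ![2, 3, 4]) *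
    W (res (m := 2) σ ![4, 5, 6]) * bock W (res (m := 3) σ ![6, 7, 8, 9]) =
    W (nres (nres (nres σ 6 id) 4 id) 2 id) * W (nres (nres (nres σ 6 id) 4 id) 2 fun t => 2 + t) *
      W (nres (nres σ 6 id) 2 fun t => 4 + t) * bock W (nres σ 3 fun t => 6 + t)
  rw [h1, h2, h3, h4]

/-! ### Change of the cocycle by a coboundary -/

/-- the carry -/
def carry (W : Coch X 2) (β : Coch X 1) : Coch X 2 := fun τ =>
  ((((W τ).val : ℤ) + (β (nres τ 1 (skip 0))).val - (β (nres τ 1 (skip 1))).val +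
    (β (nres τ 1 (skip 2))).val) / 2 : ℤ)

/-- the value of a `1`-cochain at the vertices `a, b` -/
def ed (β : Coch X 1) {k : ℕ} (σ : C(Simp k, X)) (a b : ℕ) : F2 :=
  β (nres σ 1 fun t => if t = 0 then a else b)

theorem ed_of {k : ℕ} (β : Coch X 1) (σ : C(Simp k, X)) (g : ℕ → ℕ) :
    β (nres σ 1 g) = ed β σ (g 0) (g 1) := by
  unfold ed
  congr 1
  refine nres_congr σ fun t ht => ?_
  interval_cases t <;> rfl

theorem carry_tr (W : Coch X 2) (β : Coch X 1) {k : ℕ} (σ : C(Simp k, X)) (g : ℕ → ℕ) :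
    carry W β (nres σ 2 g) = ((((tr W σ (g 0) (g 1) (g 2)).val : ℤ) + (ed β σ (g 1) (g 2)).val -
      (ed β σ (g 0) (g 2)).val + (ed β σ (g 0) (g 1)).val) / 2 : ℤ) := by
  unfold carry
  rw [nres_nres _ _ _ (fun i hi => by unfold skip; split_ifs <;> omega),
    nres_nres _ _ _ (fun i hi => by unfold skip; split_ifs <;> omega),
    nres_nres _ _ _ (fun i hi => by unfold skip; split_ifs <;> omega),
    tr_of W, ed_of β, ed_of β, ed_of β]
  rfl

theorem tr_cobd (β : Coch X 1) {k : ℕ} (σ : C(Simp k, X)) (a b c : ℕ) :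
    tr (cobd β) σ a b c = ed β σ b c + ed β σ a c + ed β σ a b := by
  unfold tr
  rw [cobd_one]
  rw [nres_nres _ _ _ (fun i hi => by unfold skip; split_ifs <;> omega),
    nres_nres _ _ _ (fun i hi => by unfold skip; split_ifs <;> omega),
    nres_nres _ _ _ (fun i hi => by unfold skip; split_ifs <;> omega),
    ed_of β, ed_of β, ed_of β]
  rfl

theorem tr_add (W W' : Coch X 2) {k : ℕ} (σ : C(Simp k, X)) (a b c : ℕ) :
    tr (W + W') σ a b c = tr W σ a b c + tr W' σ a b c := rfl

/-- the finite identity: `w i` are the values of `W`, `b i` of `β` -/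
theorem carry_finite : ∀ w0 w1 w2 b01 b02 b03 b12 b13 b23 : F2,
    let w3 : F2 := w0 + w1 + w2
    -- w0 = W(012), w1 = W(013), w2 = W(023), w3 = W(123)
    (w1 + (b13 + b03 + b01)) * (w3 + (b23 + b13 + b12)) +
      (w2 + (b23 + b03 + b02)) * (w0 + (b12 + b02 + b01)) =
    (w1 * w3 + w2 * w0) +
      ((((((w3.val : ℤ) + b23.val - b13.val + b12.val) / 2 : ℤ) : F2) +
        ((((w2.val : ℤ) + b23.val - b03.val + b02.val) / 2 : ℤ) : F2) +
        ((((w1.val : ℤ) + b13.val - b03.val + b01.val) / 2 : ℤ) : F2)) +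
        ((((w0.val : ℤ) + b12.val - b02.val + b01.val) / 2 : ℤ) : F2)) := by
  decide

theorem cobd_cobd_one (β : Coch X 1) : cobd (cobd β) = 0 := by
  funext σ
  rw [cobd_two, tr_of (cobd β), tr_of (cobd β), tr_of (cobd β), tr_of (cobd β), tr_cobd, tr_cobd,
    tr_cobd, tr_cobd]
  show ed β σ 2 3 + ed β σ 1 3 + ed β σ 1 2 + (ed β σ 2 3 + ed β σ 0 3 + ed β σ 0 2) +
    (ed β σ 1 3 + ed β σ 0 3 + ed β σ 0 1) + (ed β σ 1 2 + ed β σ 0 2 + ed β σ 0 1) = 0
  generalize ed β σ 2 3 = a
  generalize ed β σ 1 3 = b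
  generalize ed β σ 1 2 = c
  generalize ed β σ 0 3 = d
  generalize ed β σ 0 2 = e
  generalize ed β σ 0 1 = f
  revert a b c d e f
  decide

theorem bock_change {W : Coch X 2} (hW : cobd W = 0) (β : Coch X 1) :
    bock (W + cobd β) = bock W + cobd (carry W β) := by
  have hW' : cobd (W + cobd β) = 0 := by
    rw [map_add, hW, cobd_cobd_one, add_zero]
  funext σ
  have e0 : σ = nres σ 3 id := by
    have h1 : nres σ 3 id = res σ id := nres_res σ _ _ fun i => by
      show min ((i : ℕ)) 3 = i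
      omega
    rw [h1]
    unfold res smap
    ext x
    show σ x = σ (stdSimplex.map id x)
    rw [stdSimplex.map_id_apply]
  rw [Pi.add_apply, cobd_two, carry_tr, carry_tr, carry_tr, carry_tr]
  rw [show bock (W + cobd β) σ = bock (W + cobd β) (nres σ 3 id) from congrArg _ e0,
    show bock W σ = bock W (nres σ 3 id) from congrArg _ e0, bock_tr hW', bock_tr hW]
  simp only [tr_add, tr_cobd]
  have e123 := coc hW σ 0 1 2 3
  show (tr W σ 0 1 3 + (ed β σ 1 3 + ed β σ 0 3 + ed β σ 0 1)) *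
      (tr W σ 1 2 3 + (ed β σ 2 3 + ed β σ 1 3 + ed β σ 1 2)) +
    (tr W σ 0 2 3 + (ed β σ 2 3 + ed β σ 0 3 + ed β σ 0 2)) *
      (tr W σ 0 1 2 + (ed β σ 1 2 + ed β σ 0 2 + ed β σ 0 1)) =
    tr W σ 0 1 3 * tr W σ 1 2 3 + tr W σ 0 2 3 * tr W σ 0 1 2 +
      ((((((tr W σ 1 2 3).val : ℤ) + (ed β σ 2 3).val - (ed β σ 1 3).val +
          (ed β σ 1 2).val) / 2 : ℤ) : F2) +
        (((((tr W σ 0 2 3).val : ℤ) + (ed β σ 2 3).val - (ed β σ 0 3).val +
          (ed β σ 0 2).val) / 2 : ℤ) : F2) +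
        (((((tr W σ 0 1 3).val : ℤ) + (ed β σ 1 3).val - (ed β σ 0 3).val +
          (ed β σ 0 1).val) / 2 : ℤ) : F2) +
        (((((tr W σ 0 1 2).val : ℤ) + (ed β σ 1 2).val - (ed β σ 0 2).val +
          (ed β σ 0 1).val) / 2 : ℤ) : F2))
  have h3 : tr W σ 1 2 3 = tr W σ 0 1 2 + tr W σ 0 1 3 + tr W σ 0 2 3 := by
    revert e123
    generalize tr W σ 1 2 3 = a
    generalize tr W σ 0 2 3 = b
    generalize tr W σ 0 1 3 = c
    generalize tr W σ 0 1 2 = d
    revert a b c d
    decide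
  rw [h3]
  exact carry_finite _ _ _ _ _ _ _ _ _

end CUP

open CUP in
theorem stmt_CUPA : Stmt_CUPA := by
  intro X _ W hW
  rw [bigC_eq, leibniz (p := 6) (q := 3) (n := 9) rfl rfl rfl,
    leibniz (p := 4) (q := 2) (n := 6) rfl rfl rfl,
    leibniz (p := 2) (q := 2) (n := 4) rfl rfl rfl, hW, bock_cocycle hW]
  simp only [cup_zero_left, cup_zero_right, add_zero]

open CUP in
theorem stmt_CUPB : Stmt_CUPB := by
  intro X _ W β hW
  have hW' : cobd (W + cobd β) = 0 := by
    rw [map_add, hW, cobd_cobd_one, add_zero]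
  set W' := W + cobd β with hWd
  set B := bock W with hB
  set B' := bock W' with hB'
  have hBc : cobd B = 0 := bock_cocycle hW
  have hBc' : cobd B' = 0 := bock_cocycle hW'
  have hBB : B' = B + cobd (carry W β) := bock_change hW β
  -- the four correction terms
  set g1 : Coch X 8 := cup (p := 5) (q := 3) (n := 8) rfl (cup (p := 3) (q := 2) (n := 5) rfl
    (cup (p := 1) (q := 2) (n := 3) rfl β W') W') B' with hg1
  set g2 : Coch X 8 := cup (p := 5) (q := 3) (n := 8) rfl (cup (p := 3) (q := 2) (n := 5) rfl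
    (cup (p := 2) (q := 1) (n := 3) rfl W β) W') B' with hg2
  set g3 : Coch X 8 := cup (p := 5) (q := 3) (n := 8) rfl (cup (p := 4) (q := 1) (n := 5) rfl
    (cup (p := 2) (q := 2) (n := 4) rfl W W) β) B' with hg3
  set g4 : Coch X 8 := cup (p := 6) (q := 2) (n := 8) rfl (cup (p := 4) (q := 2) (n := 6) rfl
    (cup (p := 2) (q := 2) (n := 4) rfl W W) W) (carry W β) with hg4
  refine ⟨g1 + g2 + g3 + g4, ?_⟩
  have d1 : cobd g1 = cup (p := 6) (q := 3) (n := 9) rfl (cup (p := 4) (q := 2) (n := 6) rfl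
      (cup (p := 2) (q := 2) (n := 4) rfl (cobd β) W') W') B' := by
    rw [hg1, leibniz (p := 5) (q := 3) (n := 8) rfl rfl rfl,
      leibniz (p := 3) (q := 2) (n := 5) rfl rfl rfl,
      leibniz (p := 1) (q := 2) (n := 3) rfl rfl rfl, hW', hBc']
    simp only [cup_zero_right, add_zero]
  have d2 : cobd g2 = cup (p := 6) (q := 3) (n := 9) rfl (cup (p := 4) (q := 2) (n := 6) rfl
      (cup (p := 2) (q := 2) (n := 4) rfl W (cobd β)) W') B' := by
    rw [hg2, leibniz (p := 5) (q := 3) (n := 8) rfl rfl rfl,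
      leibniz (p := 3) (q := 2) (n := 5) rfl rfl rfl,
      leibniz (p := 2) (q := 1) (n := 3) rfl rfl rfl, hW, hW', hBc']
    simp only [cup_zero_left, cup_zero_right, add_zero, zero_add]
  have d3 : cobd g3 = cup (p := 6) (q := 3) (n := 9) rfl (cup (p := 4) (q := 2) (n := 6) rfl
      (cup (p := 2) (q := 2) (n := 4) rfl W W) (cobd β)) B' := by
    rw [hg3, leibniz (p := 5) (q := 3) (n := 8) rfl rfl rfl,
      leibniz (p := 4) (q := 1) (n := 5) rfl rfl rfl,
      leibniz (p := 2) (q := 2) (n := 4) rfl rfl rfl, hW, hBc']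
    simp only [cup_zero_left, cup_zero_right, add_zero, zero_add]
  have d4 : cobd g4 = cup (p := 6) (q := 3) (n := 9) rfl (cup (p := 4) (q := 2) (n := 6) rfl
      (cup (p := 2) (q := 2) (n := 4) rfl W W) W) (cobd (carry W β)) := by
    rw [hg4, leibniz (p := 6) (q := 2) (n := 8) rfl rfl rfl,
      leibniz (p := 4) (q := 2) (n := 6) rfl rfl rfl,
      leibniz (p := 2) (q := 2) (n := 4) rfl rfl rfl, hW]
    simp only [cup_zero_left, cup_zero_right, add_zero, zero_add]
  rw [map_add, map_add, map_add, d1, d2, d3, d4, bigC_eq, bigC_eq, ← hB, ← hB']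
  funext σ
  have hBσ : ∀ τ, B' τ = B τ + cobd (carry W β) τ := fun τ => congrFun hBB τ
  have hWσ : ∀ τ, W' τ = W τ + cobd β τ := fun τ => rfl
  simp only [cup, Pi.add_apply, hBσ, hWσ]
  generalize W (nres (nres (nres σ 6 id) 4 id) 2 id) = a
  generalize cobd β (nres (nres (nres σ 6 id) 4 id) 2 id) = a'
  generalize W (nres (nres (nres σ 6 id) 4 id) 2 fun t => 2 + t) = b
  generalize cobd β (nres (nres (nres σ 6 id) 4 id) 2 fun t => 2 + t) = b'
  generalize W (nres (nres σ 6 id) 2 fun t => 4 + t) = c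
  generalize cobd β (nres (nres σ 6 id) 2 fun t => 4 + t) = c'
  generalize B (nres σ 3 fun t => 6 + t) = d
  generalize cobd (carry W β) (nres σ 3 fun t => 6 + t) = d'
  ring

end TC
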