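import Mathlib

/-!
# Definitions for MP_bc2780_gt (tautological classes of aspherical manifolds)

Singular chains and cohomology with coefficients in the field with two elements, the classifying
space `BSO n` (oriented Grassmannian of `ℓ²`), flat bundles over the projective plane with
holonomy in a circle of diffeomorphisms, vertical tangent bundle and its classifying maps,
integration along the fibres.
-/

set_option autoImplicit false

open scoped Manifold ContDiff Topology

noncomputable section

namespace TC

/-! ## Singular chains and cohomology with coefficients in `ZMod 2` -/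

/-- The coefficient field. -/
abbrev F2 := ZMod 2

/-- The standard topological `k`-simplex. -/
abbrev Simp (k : ℕ) := stdSimplex ℝ (Fin (k + 1))

/-- The affine map of simplices given by a map of vertices. -/
def smap {m k : ℕ} (θ : Fin (m + 1) → Fin (k + 1)) : C(Simp m, Simp k) :=
  ⟨stdSimplex.map θ, stdSimplex.continuous_map θ⟩

/-- The inclusion of the `i`-th face. -/
def face {k : ℕ} (i : Fin (k + 2)) : C(Simp k, Simp (k + 1)) := smap i.succAbove

/-- The vertices of the standard simplex. -/
def vtx {k : ℕ} (i : Fin (k + 1)) : Simp k := stdSimplex.vertex i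

section chains

variable (X : Type) [TopologicalSpace X]

/-- Singular `k`-chains with coefficients in `ZMod 2`. -/
abbrev Chain (k : ℕ) := C(Simp k, X) →₀ F2

/-- Singular `k`-cochains with coefficients in `ZMod 2`. -/
abbrev Coch (k : ℕ) := C(Simp k, X) → F2

end chains

variable {X Y : Type} [TopologicalSpace X] [TopologicalSpace Y]

/-- The boundary of singular chains. -/
def bd {k : ℕ} : Chain X (k + 1) →ₗ[F2] Chain X k :=
  ∑ i : Fin (k + 2), Finsupp.lmapDomain F2 F2 (fun σ : C(Simp (k + 1), X) => σ.comp (face i))

/-- The coboundary of singular cochains. -/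
def cobd {k : ℕ} : Coch X k →ₗ[F2] Coch X (k + 1) where
  toFun c := fun σ => ∑ i : Fin (k + 2), c (σ.comp (face i))
  map_add' a b := by funext σ; simp [Finset.sum_add_distrib]
  map_smul' r a := by funext σ; simp [Finset.mul_sum]

/-- The value of a cochain on a chain. -/
def pair {k : ℕ} (c : Coch X k) : Chain X k →ₗ[F2] F2 := Finsupp.linearCombination F2 c

/-- The image of a chain under a continuous map. -/
def cmap {k : ℕ} (f : C(X, Y)) : Chain X k →ₗ[F2] Chain Y k :=
  Finsupp.lmapDomain F2 F2 (fun σ : C(Simp k, X) => f.comp σ)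

/-- The pull back of a cochain under a continuous map. -/
def pull {k : ℕ} (f : C(X, Y)) : Coch Y k →ₗ[F2] Coch X k where
  toFun c := fun σ => c (f.comp σ)
  map_add' _ _ := rfl
  map_smul' _ _ := rfl

variable (X) in
/-- The coboundaries (`0` in degree `0`). -/
def Bk : (k : ℕ) → Submodule F2 (Coch X k)
  | 0 => ⊥
  | _ + 1 => LinearMap.range cobd

variable (X) in
/-- The cocycles. -/
def Zk (k : ℕ) : Submodule F2 (Coch X k) := LinearMap.ker cobd

variable (X) in
/-- Singular cohomology `H^k(X; ZMod 2)`. -/
abbrev HH (k : ℕ) := (Zk X k) ⧸ (Bk X k).submoduleOf (Zk X k)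

/-! Basic identities. -/

theorem pair_single {k : ℕ} (c : Coch X k) (σ : C(Simp k, X)) (a : F2) :
    pair c (Finsupp.single σ a) = a * c σ := by
  simp [pair, Finsupp.linearCombination_single]

theorem bd_single {k : ℕ} (σ : C(Simp (k + 1), X)) (a : F2) :
    bd (Finsupp.single σ a) = ∑ i : Fin (k + 2), Finsupp.single (σ.comp (face i)) a := by
  simp [bd, Finsupp.mapDomain_single]

theorem cmap_single {k : ℕ} (f : C(X, Y)) (σ : C(Simp k, X)) (a : F2) :
    cmap f (Finsupp.single σ a) = Finsupp.single (f.comp σ) a := by
  simp [cmap, Finsupp.mapDomain_single]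

theorem pair_cobd {k : ℕ} (c : Coch X k) (z : Chain X (k + 1)) :
    pair (cobd c) z = pair c (bd z) := by
  induction z using Finsupp.induction_linear with
  | zero => simp
  | add x y hx hy => rw [map_add, map_add, map_add, hx, hy]
  | single σ a =>
    rw [pair_single, bd_single, map_sum]
    simp only [pair_single]
    rw [← Finset.mul_sum]
    rfl

theorem pair_pull {k : ℕ} (f : C(X, Y)) (c : Coch Y k) (z : Chain X k) :
    pair (pull f c) z = pair c (cmap f z) := by
  induction z using Finsupp.induction_linear with
  | zero => simp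
  | add x y hx hy => rw [map_add, map_add, map_add, hx, hy]
  | single σ a => rw [pair_single, cmap_single, pair_single]; rfl

theorem bd_cmap {k : ℕ} (f : C(X, Y)) (z : Chain X (k + 1)) :
    bd (cmap f z) = cmap f (bd z) := by
  induction z using Finsupp.induction_linear with
  | zero => simp
  | add x y hx hy => rw [map_add, map_add, map_add, map_add, hx, hy]
  | single σ a =>
    rw [cmap_single, bd_single, bd_single, map_sum]
    simp only [cmap_single]
    rfl

theorem pair_add_left {k : ℕ} (a b : Coch X k) (z : Chain X k) :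
    pair (a + b) z = pair a z + pair b z := by
  induction z using Finsupp.induction_linear with
  | zero => simp
  | add x y hx hy => rw [map_add, map_add, map_add, hx, hy]; ring
  | single σ r => rw [pair_single, pair_single, pair_single, Pi.add_apply]; ring

theorem pair_smul_left {k : ℕ} (r : F2) (a : Coch X k) (z : Chain X k) :
    pair (r • a) z = r * pair a z := by
  induction z using Finsupp.induction_linear with
  | zero => simp
  | add x y hx hy => rw [map_add, map_add, hx, hy]; ring
  | single σ s => rw [pair_single, pair_single, Pi.smul_apply, smul_eq_mul]; ring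

/-- The class of a cocycle. -/
def HH.mk {k : ℕ} (c : Coch X k) (hc : cobd c = 0) : HH X k :=
  Submodule.Quotient.mk ⟨c, hc⟩

/-- A linear map of cochains which preserves cocycles and coboundaries induces a map of
cohomology. -/
def HH.lift {a b : ℕ} (L : Coch Y a →ₗ[F2] Coch X b) (hZ : ∀ c, cobd c = 0 → cobd (L c) = 0)
    (hB : ∀ c ∈ Bk Y a, L c ∈ Bk X b) : HH Y a →ₗ[F2] HH X b :=
  Submodule.mapQ _ _ (L.restrict (p := Zk Y a) (q := Zk X b) fun c hc => hZ c hc)
    fun c hc => hB c.1 hc

theorem cobd_pull {k : ℕ} (f : C(X, Y)) (c : Coch Y k) : cobd (pull f c) = pull f (cobd c) := rfl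

theorem pull_mem_Bk {k : ℕ} (f : C(X, Y)) (c : Coch Y k) (hc : c ∈ Bk Y k) :
    pull f c ∈ Bk X k := by
  cases k with
  | zero =>
    have : c = 0 := by simpa [Bk] using hc
    subst this
    simp [Bk]
  | succ k =>
    obtain ⟨b, rfl⟩ := hc
    exact ⟨pull f b, rfl⟩

/-- The map induced in cohomology by a continuous map. -/
def HH.map {k : ℕ} (f : C(X, Y)) : HH Y k →ₗ[F2] HH X k :=
  HH.lift (pull f) (fun c hc => by rw [cobd_pull, hc, map_zero]) (pull_mem_Bk f)

/-! ## Integration along the fibres -/

section transfer

variable {E B : Type} [TopologicalSpace E] [TopologicalSpace B]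

/-- The pull back of `π : E → B` along a singular simplex of `B`. -/
def PB (π : C(E, B)) {j : ℕ} (σ : C(Simp j, B)) : Type := {p : Simp j × E // σ p.1 = π p.2}

instance (π : C(E, B)) {j : ℕ} (σ : C(Simp j, B)) : TopologicalSpace (PB π σ) :=
  inferInstanceAs (TopologicalSpace {p : Simp j × E // σ p.1 = π p.2})

/-- The projection of the pull back to the total space. -/
def PB.toE (π : C(E, B)) {j : ℕ} (σ : C(Simp j, B)) : C(PB π σ, E) :=
  ⟨fun p => p.1.2, continuous_snd.comp continuous_subtype_val⟩

/-- The inclusion of the pull back along the `i`-th face. -/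
def PB.face (π : C(E, B)) {j : ℕ} (σ : C(Simp (j + 1), B)) (i : Fin (j + 2)) :
    C(PB π (σ.comp (face i)), PB π σ) :=
  ⟨fun p => ⟨(TC.face i p.1.1, p.1.2), p.2⟩, by
    refine Continuous.subtype_mk ?_ _
    exact ((TC.face i).continuous.comp (continuous_fst.comp continuous_subtype_val)).prodMk
      (continuous_snd.comp continuous_subtype_val)⟩

/-- A *fibre transfer* for a fibre bundle `π : E → B` whose fibres are closed connected manifolds
of dimension `m + 1`: chains `T_σ` of dimension `m + 1 + j` in the pull back of `E` along every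
singular `j`-simplex `σ` of `B`, compatible with faces, which over a point are cycles in the fibre
with non-zero homology class, i.e. represent the fundamental class (coefficients `ZMod 2`) of the
fibre.  (By the method of acyclic models such a system exists and is unique up to chain homotopy;
the induced map in cohomology is the integration along the fibres.) -/
structure FibreTransfer (m : ℕ) (π : C(E, B)) where
  chain : ∀ {j : ℕ} (σ : C(Simp j, B)), Chain (PB π σ) (m + 1 + j)
  bd_chain : ∀ {j : ℕ} (σ : C(Simp (j + 1), B)),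
    bd (k := m + 1 + j) (chain σ) = ∑ i, cmap (PB.face π σ i) (chain (σ.comp (face i)))
  bd_zero : ∀ σ : C(Simp 0, B), bd (k := m) (chain σ) = 0
  fund : ∀ σ : C(Simp 0, B),
    chain σ ∉ LinearMap.range (bd (k := m + 1) : Chain (PB π σ) (m + 1 + 1) →ₗ[F2] _)

variable {m : ℕ} {π : C(E, B)}

/-- Integration along the fibres on cochains. -/
def FibreTransfer.coch (T : FibreTransfer m π) {j : ℕ} : Coch E (m + 1 + j) →ₗ[F2] Coch B j where
  toFun c := fun σ => pair c (cmap (PB.toE π σ) (T.chain σ))
  map_add' a b := by
    funext σ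
    exact pair_add_left a b _
  map_smul' r a := by
    funext σ
    exact pair_smul_left r a _

theorem PB.toE_face (π : C(E, B)) {j : ℕ} (σ : C(Simp (j + 1), B)) (i : Fin (j + 2)) :
    (PB.toE π σ).comp (PB.face π σ i) = PB.toE π (σ.comp (TC.face i)) := rfl

theorem cmap_comp {Z : Type} [TopologicalSpace Z] {k : ℕ} (g : C(Y, Z)) (f : C(X, Y))
    (z : Chain X k) : cmap g (cmap f z) = cmap (g.comp f) z := by
  induction z using Finsupp.induction_linear with
  | zero => simp
  | add x y hx hy => rw [map_add, map_add, map_add, hx, hy]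
  | single σ r => rw [cmap_single, cmap_single, cmap_single]; rfl

theorem FibreTransfer.cobd_coch (T : FibreTransfer m π) {j : ℕ} (c : Coch E (m + 1 + j)) :
    cobd (T.coch c) = T.coch (j := j + 1) (cobd (k := m + 1 + j) c) := by
  funext σ
  show ∑ i, pair c (cmap (PB.toE π (σ.comp (TC.face i))) (T.chain (σ.comp (TC.face i)))) =
    pair (cobd (k := m + 1 + j) c) (cmap (PB.toE π σ) (T.chain σ))
  have h1 : pair (cobd (k := m + 1 + j) c) (cmap (PB.toE π σ) (T.chain σ)) =
      pair c (bd (k := m + 1 + j) (cmap (PB.toE π σ) (T.chain σ))) := pair_cobd _ _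
  rw [h1, bd_cmap (k := m + 1 + j), T.bd_chain, map_sum, map_sum]
  refine Finset.sum_congr rfl fun i _ => ?_
  rw [cmap_comp, PB.toE_face]

theorem FibreTransfer.coch_mem_Bk (T : FibreTransfer m π) {j : ℕ} (c : Coch E (m + 1 + j))
    (hc : c ∈ Bk E (m + 1 + j)) : T.coch c ∈ Bk B j := by
  cases j with
  | zero =>
    obtain ⟨b, rfl⟩ : ∃ b, cobd (k := m) b = c := hc
    have : T.coch (j := 0) (cobd (k := m) b) = 0 := by
      funext σ
      show pair (cobd (k := m) b) (cmap (PB.toE π σ) (T.chain σ)) = 0
      have h1 : pair (cobd (k := m) b) (cmap (PB.toE π σ) (T.chain σ)) =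
        pair b (bd (k := m) (cmap (PB.toE π σ) (T.chain σ))) := pair_cobd _ _
      rw [h1, bd_cmap (k := m), T.bd_zero, map_zero, map_zero]
    rw [this]
    simp [Bk]
  | succ j =>
    obtain ⟨b, rfl⟩ : ∃ b, cobd (k := m + 1 + j) b = c := hc
    exact ⟨T.coch b, T.cobd_coch b⟩

/-- Integration along the fibres in cohomology,
`π_! : H^(m+1+j)(E; ZMod 2) → H^j(B; ZMod 2)`. -/
def FibreTransfer.integ (T : FibreTransfer m π) {j : ℕ} : HH E (m + 1 + j) →ₗ[F2] HH B j :=
  HH.lift T.coch (fun c hc => by
    rw [T.cobd_coch]
    have : cobd (k := m + 1 + j) c = 0 := hc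
    rw [this]
    exact map_zero _) T.coch_mem_Bk

end transfer

/-! ## The classifying space `BSO n` -/

/-- The real Hilbert space `ℓ²`. -/
abbrev L2 := lp (fun _ : ℕ => ℝ) 2

/-- `n`-frames (linearly independent `n`-tuples) in `ℓ²`. -/
abbrev Frames (n : ℕ) := {v : Fin n → L2 // LinearIndependent ℝ v}

/-- Two frames are equivalent if one is obtained from the other by an invertible matrix with
positive determinant, i.e. if they are positive bases of the same oriented subspace. -/
def frameRel (n : ℕ) (v w : Frames n) : Prop :=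
  ∃ A : Matrix (Fin n) (Fin n) ℝ, 0 < A.det ∧ ∀ j, w.1 j = ∑ i, A i j • v.1 i

theorem frameRel_equiv (n : ℕ) : Equivalence (frameRel n) where
  refl v := ⟨1, by simp, fun j => by simp [Matrix.one_apply, ite_smul]⟩
  symm := by
    rintro v w ⟨A, hA, h⟩
    have hu : IsUnit A.det := hA.ne'.isUnit
    refine ⟨A⁻¹, ?_, fun j => ?_⟩
    · rw [Matrix.det_nonsing_inv, Ring.inverse_eq_inv']
      exact inv_pos.mpr hA
    · simp only [h, Finset.smul_sum, smul_smul]
      rw [Finset.sum_comm]
      have key : ∀ k, ∑ i, (A⁻¹ i j * A k i) • v.1 k = if k = j then v.1 k else 0 := by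
        intro k
        rw [← Finset.sum_smul]
        have : ∑ i, A⁻¹ i j * A k i = (A * A⁻¹) k j := by
          rw [Matrix.mul_apply]
          exact Finset.sum_congr rfl fun i _ => mul_comm _ _
        rw [this, Matrix.mul_nonsing_inv A hu, Matrix.one_apply]
        split_ifs <;> simp
      simp only [key]
      simp
  trans := by
    rintro u v w ⟨A, hA, h⟩ ⟨B, hB, h'⟩
    refine ⟨A * B, by rw [Matrix.det_mul]; positivity, fun j => ?_⟩
    simp only [h', h, Finset.smul_sum, smul_smul]
    rw [Finset.sum_comm]
    refine Finset.sum_congr rfl fun k _ => ?_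
    rw [← Finset.sum_smul, Matrix.mul_apply]
    congr 1
    exact Finset.sum_congr rfl fun i _ => mul_comm _ _

/-- The oriented Grassmannian of oriented `n`-dimensional subspaces of `ℓ²`, with the quotient
topology; it is a model of the classifying space `BSO(n)`. -/
def BSO (n : ℕ) : Type := Quotient (⟨frameRel n, frameRel_equiv n⟩ : Setoid (Frames n))

instance (n : ℕ) : TopologicalSpace (BSO n) :=
  inferInstanceAs (TopologicalSpace (Quotient (⟨frameRel n, frameRel_equiv n⟩ : Setoid (Frames n))))

/-- The oriented subspace spanned by a frame. -/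
def BSO.mk {n : ℕ} (v : Frames n) : BSO n := Quotient.mk _ v

/-! ## Flat bundles over the real projective plane -/

/-- The unit sphere in `ℝ³`. -/
abbrev S2 := Metric.sphere (0 : EuclideanSpace ℝ (Fin 3)) 1

/-- Antipodal points. -/
def antiRel (x y : S2) : Prop := y = x ∨ y = -x

theorem antiRel_equiv : Equivalence antiRel where
  refl x := Or.inl rfl
  symm := by
    rintro x y (h | h)
    · exact Or.inl h.symm
    · exact Or.inr (by rw [h, neg_neg])
  trans := by
    rintro x y z (h | h) (h' | h')
    · exact Or.inl (h'.trans h)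
    · exact Or.inr (by rw [h', h])
    · exact Or.inr (by rw [h', h])
    · exact Or.inl (by rw [h', h, neg_neg])

/-- The real projective plane. -/
def RP2 : Type := Quotient (⟨antiRel, antiRel_equiv⟩ : Setoid S2)

instance : TopologicalSpace RP2 :=
  inferInstanceAs (TopologicalSpace (Quotient (⟨antiRel, antiRel_equiv⟩ : Setoid S2)))

/-- The projection of the sphere to the projective plane. -/
def RP2.mk (x : S2) : RP2 := Quotient.mk _ x

section bundle

variable {M : Type}

/-- The identifications `(m, b) ~ (g m, -b)` on `M × S²`. -/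
def totRel (g : M → M) (p q : M × S2) : Prop := q = p ∨ (q.1 = g p.1 ∧ q.2 = -p.2)

theorem totRel_equiv (g : M → M) (hg : Function.Involutive g) : Equivalence (totRel g) where
  refl p := Or.inl rfl
  symm := by
    rintro p q (h | ⟨h1, h2⟩)
    · exact Or.inl h.symm
    · exact Or.inr ⟨by rw [h1, hg], by rw [h2, neg_neg]⟩
  trans := by
    rintro p q r (h | ⟨h1, h2⟩) (h' | ⟨h3, h4⟩)
    · exact Or.inl (h'.trans h)
    · exact Or.inr ⟨by rw [h3, h], by rw [h4, h]⟩
    · exact Or.inr ⟨by rw [h', h1], by rw [h', h2]⟩
    · exact Or.inl (Prod.ext (by rw [h3, h1, hg]) (by rw [h4, h2, neg_neg]))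

/-- The total space `E = M ×_{ℤ/2} S²` of the flat `M`-bundle over the projective plane whose
holonomy is the involution `g` of `M`. -/
def Tot (g : M → M) (hg : Function.Involutive g) : Type :=
  Quotient (⟨totRel g, totRel_equiv g hg⟩ : Setoid (M × S2))

instance [TopologicalSpace M] (g : M → M) (hg : Function.Involutive g) :
    TopologicalSpace (Tot g hg) :=
  inferInstanceAs (TopologicalSpace (Quotient (⟨totRel g, totRel_equiv g hg⟩ : Setoid (M × S2))))

/-- The projection `M × S² → E`. -/
def Tot.mk (g : M → M) (hg : Function.Involutive g) (p : M × S2) : Tot g hg := Quotient.mk _ p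

/-- The bundle projection `E → ℝP²`. -/
def Tot.proj [TopologicalSpace M] (g : M → M) (hg : Function.Involutive g) : C(Tot g hg, RP2) where
  toFun := Quotient.lift (fun p : M × S2 => RP2.mk p.2) (by
    rintro p q (h | ⟨-, h⟩)
    · rw [h]
    · exact Quotient.sound (Or.inr h))
  continuous_toFun := by
    refine Continuous.quotient_lift ?_ _
    exact continuous_quotient_mk'.comp continuous_snd

end bundle

/-! ## Manifolds, orientations, circle actions -/

section manifold

variable (M : Type) [TopologicalSpace M]

/-- `M` is aspherical: it has a contractible covering space. -/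
def Aspherical : Prop :=
  ∃ (X : Type) (_ : TopologicalSpace X) (_ : ContractibleSpace X) (p : X → M),
    IsCoveringMap p ∧ Function.Surjective p

variable (n : ℕ) [ChartedSpace (EuclideanSpace ℝ (Fin n)) M] [IsManifold (𝓡 n) ∞ M]

/-- An orientation of the manifold `M`: orientations of the tangent spaces such that the positive
frames form an open subset of the space of all frames. -/
structure Orient where
  or : ∀ m : M, Orientation ℝ (TangentSpace (𝓡 n) m) (Fin n)
  isOpen : ∃ U : Set (Fin n → TangentBundle (𝓡 n) M), IsOpen U ∧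
    ∀ (m : M) (t : Module.Basis (Fin n) ℝ (TangentSpace (𝓡 n) m)),
      (fun i => (⟨m, t i⟩ : TangentBundle (𝓡 n) M)) ∈ U ↔ t.orientation = or m

/-- A smooth action of the circle `ℝ/2ℤ` on `M`. -/
structure CircleAct where
  act : ℝ → M → M
  smooth : ContMDiff ((𝓘(ℝ, ℝ)).prod (𝓡 n)) (𝓡 n) ∞ (fun p : ℝ × M => act p.1 p.2)
  zero : ∀ m, act 0 m = m
  add : ∀ s t m, act (s + t) m = act s (act t m)
  two : ∀ m, act 2 m = m

variable {M n}

/-- The half turn of a circle action; it is an involution, and it belongs to the identity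
component of the diffeomorphism group, since it is joined to the identity by the half turns
`act t`, `0 ≤ t ≤ 1`. -/
def CircleAct.half (ρ : CircleAct M n) : M → M := ρ.act 1

theorem CircleAct.half_invol (ρ : CircleAct M n) : Function.Involutive ρ.half := fun m => by
  unfold CircleAct.half
  rw [← ρ.add, one_add_one_eq_two, ρ.two]

/-- A Gauss map of the vertical tangent bundle of `E = M ×_{ℤ/2} S² → ℝP²`: a continuous map
`Φ : T M × S² → ℓ²`, linear and injective on the tangent spaces of `M`, with
`Φ (dg v, -b) = Φ (v, b)`, where `g` is the half turn. -/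
structure GaussMap (ρ : CircleAct M n) where
  toFun : TangentBundle (𝓡 n) M × S2 → L2
  cont : Continuous toFun
  lin : ∀ (m : M) (b : S2), ∃ L : TangentSpace (𝓡 n) m →ₗ[ℝ] L2, Function.Injective L ∧
    ∀ v : TangentSpace (𝓡 n) m, toFun (⟨m, v⟩, b) = L v
  inv : ∀ (v : TangentBundle (𝓡 n) M) (b : S2),
    toFun (tangentMap (𝓡 n) (𝓡 n) ρ.half v, -b) = toFun (v, b)

/-- `f : E → BSO n` is a classifying map of the (oriented) vertical tangent bundle of
`E = M ×_{ℤ/2} S² → ℝP²`: for some Gauss map `Φ`, `f` maps the class of `(m, b)` to the subspace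
`Φ (T_m M, b)` oriented by the images of the positive frames of `T_m M`. -/
def IsClassifying (o : Orient M n) (ρ : CircleAct M n)
    (f : C(Tot ρ.half ρ.half_invol, BSO n)) : Prop :=
  ∃ Φ : GaussMap ρ, ∀ (m : M) (b : S2) (t : Module.Basis (Fin n) ℝ (TangentSpace (𝓡 n) m)),
    t.orientation = o.or m →
    ∃ hli : LinearIndependent ℝ (fun i => Φ.toFun (⟨m, t i⟩, b)),
      f (Tot.mk _ _ (m, b)) = BSO.mk ⟨_, hli⟩

end manifold

end TC
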