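import Pool.Agent.TC.SpnStmts

/-!
# Block SPN: two lifting systems have cohomologous cocycles
-/

set_option autoImplicit false

noncomputable section

namespace TC

namespace CMP

/-- The sum over `i`, `j` of a function of the composite vertex map `Fin 1 → Fin 3` vanishes. -/
theorem third (g : (Fin 1 → Fin 3) → F2) :
    ∑ i : Fin 3, ∑ j : Fin 2, g (i.succAbove ∘ j.succAbove) = 0 := by
  have c : ∀ (i : Fin 3) (j : Fin 2) (v : Fin 3), i.succAbove (j.succAbove 0) = v →
      g (i.succAbove ∘ j.succAbove) = g (fun _ => v) := by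
    intro i j v h
    congr 1
    funext x
    rw [Subsingleton.elim x 0]
    exact h
  simp only [Fin.sum_univ_three, Fin.sum_univ_two]
  rw [c 0 0 2 (by decide), c 0 1 1 (by decide), c 1 0 2 (by decide), c 1 1 0 (by decide),
    c 2 0 1 (by decide), c 2 1 0 (by decide)]
  generalize g (fun _ => 0) = a
  generalize g (fun _ => 1) = b
  generalize g (fun _ => 2) = d
  revert a b d
  decide

/-- The sum over `j : Fin 2` of a constant vanishes. -/
theorem second (g : Fin 3 → F2) : ∑ i : Fin 3, ∑ _j : Fin 2, g i = 0 := by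
  refine Finset.sum_eq_zero fun i _ => ?_
  rw [Fin.sum_univ_two]
  generalize g i = a
  revert a
  decide

end CMP

theorem spn_cmp (h1 : SPN_CMPA) : SPN_CMP := by
  intro X _ f 𝓛 𝓛'
  obtain ⟨e, he⟩ := h1 𝓛 𝓛'
  refine ⟨fun γ => ∑ j : Fin 2, e (m := 0) (k := 1) γ j.succAbove, ?_⟩
  funext σ
  show (∑ i : Fin 3, ∑ j : Fin 2, 𝓛.sig (l := 0) (m := 1) (k := 2) σ i.succAbove j.succAbove) =
    (∑ i : Fin 3, ∑ j : Fin 2, 𝓛'.sig (l := 0) (m := 1) (k := 2) σ i.succAbove j.succAbove) +
      ∑ i : Fin 3, ∑ j : Fin 2, e (m := 0) (k := 1) (σ.comp (smap i.succAbove)) j.succAbove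
  have h : ∀ (i : Fin 3) (j : Fin 2),
      𝓛.sig (l := 0) (m := 1) (k := 2) σ i.succAbove j.succAbove =
      𝓛'.sig (l := 0) (m := 1) (k := 2) σ i.succAbove j.succAbove +
        (e (m := 0) (k := 1) (σ.comp (smap i.succAbove)) j.succAbove +
          e (m := 1) (k := 2) σ i.succAbove +
          e (m := 0) (k := 2) σ (i.succAbove ∘ j.succAbove)) := fun i j => he σ _ _
  simp only [h, Finset.sum_add_distrib]
  have t := CMP.third (fun θ => e (m := 0) (k := 2) σ θ)
  have s := CMP.second (fun i => e (m := 1) (k := 2) σ i.succAbove)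
  rw [t, s, add_zero, add_zero]

end TC
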