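import Pool.Agent.TC.SpnStmts

/-!
# SPN_CMPA: comparison of two lifting systems over the same map
-/

set_option autoImplicit false

open scoped RealInnerProductSpace Matrix Topology

noncomputable section

namespace TC

namespace CMPA

/-- Continuity of a map to `SO(7)` can be checked on matrices. -/
theorem continuous_SO7 {T : Type} [TopologicalSpace T] (a : T → SO7)
    (h : Continuous fun t => smat (a t)) : Continuous a :=
  Continuous.subtype_mk (Continuous.subtype_mk h _) _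

variable {X : Type} [TopologicalSpace X] {f : C(X, BSO 7)}

/-- The difference of the frames of two lifting systems, as a map to `SO(7)`. -/
theorem exists_diff (h1 : SPN_DIF) (𝓛 𝓛' : LiftSys f) {k : ℕ} (σ : C(Simp k, X)) :
    ∃ a : C(Simp k, SO7), ∀ t, smat (a t) = dif (𝓛'.fr σ t) (𝓛.fr σ t) := by
  obtain ⟨hd1, -, -, hd4⟩ := h1
  have hov : ∀ t, ocls (𝓛'.fr σ t) = ocls (𝓛.fr σ t) := fun t => by rw [𝓛'.ov, 𝓛.ov]
  refine ⟨⟨fun t => SO7of (dif (𝓛'.fr σ t) (𝓛.fr σ t)) (hd1 _ _ (hov t)).1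
    (hd1 _ _ (hov t)).2.1, ?_⟩, fun t => rfl⟩
  apply continuous_SO7
  have : Continuous fun t => ((𝓛'.fr σ t, 𝓛.fr σ t) : OFr 7 × OFr 7) :=
    (𝓛'.fr σ).continuous.prodMk (𝓛.fr σ).continuous
  exact hd4.comp this

/-- The chosen lift of the difference. -/
theorem exists_lift (h1 : SPN_DIF) (h3 : SPN_LIFTG) (𝓛 𝓛' : LiftSys f) :
    ∃ c : ∀ {k : ℕ}, C(Simp k, X) → C(Simp k, Gs), ∀ {k : ℕ} (σ : C(Simp k, X)) (t : Simp k),
      smat (pG (c σ t)) = dif (𝓛'.fr σ t) (𝓛.fr σ t) := by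
  have : ∀ (k : ℕ) (σ : C(Simp k, X)), ∃ g : C(Simp k, Gs), ∀ t,
      smat (pG (g t)) = dif (𝓛'.fr σ t) (𝓛.fr σ t) := by
    intro k σ
    obtain ⟨a, ha⟩ := exists_diff h1 𝓛 𝓛' σ
    obtain ⟨g, hg⟩ := h3.1 a
    exact ⟨g, fun t => by rw [hg t, ha t]⟩
  choose c hc using this
  exact ⟨fun {k} σ => c k σ, fun {k} σ t => hc k σ t⟩

/-- The algebra of the comparison. -/
theorem alg (h2 : SPN_SGN) (A A' B B' C C' x0 x1 x2 : Gs) (E1 E2 E3 : F2)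
    (k1 : pG (x0 * A) = pG (A' * x1)) (k2 : pG (x1 * B) = pG (B' * x2))
    (k3 : pG (x0 * C) = pG (C' * x2)) (c1 : pG (A * B) = pG C) (c2 : pG (A' * B') = pG C')
    (f1 : sgn (x0 * A) (A' * x1) = E1) (f2 : sgn (x1 * B) (B' * x2) = E2)
    (f3 : sgn (x0 * C) (C' * x2) = E3) :
    sgn (A * B) C = sgn (A' * B') C' + (E1 + E2 + E3) := by
  obtain ⟨-, s2, s3, s4, s5⟩ := h2
  simp only [map_mul] at k1 k2 k3 c1 c2
  have g1 : sgn (A * B) C = sgn (x0 * (A * B)) (x0 * C) := (s4 _ _ _).symm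
  have g2 : sgn (x0 * (A * B)) (x0 * C) =
      sgn (x0 * (A * B)) (A' * (x1 * B)) + sgn (A' * (x1 * B)) (x0 * C) := by
    apply s3
    · simp only [map_mul]
      rw [← mul_assoc, k1, mul_assoc]
    · simp only [map_mul]
      rw [← mul_assoc, ← k1, mul_assoc, c1]
  have g3 : sgn (A' * (x1 * B)) (x0 * C) =
      sgn (A' * (x1 * B)) (A' * (B' * x2)) + sgn (A' * (B' * x2)) (x0 * C) := by
    apply s3
    · simp only [map_mul]
      rw [k2]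
    · simp only [map_mul]
      rw [← mul_assoc, c2, k3]
  have g4 : sgn (A' * (B' * x2)) (x0 * C) =
      sgn (A' * (B' * x2)) (C' * x2) + sgn (C' * x2) (x0 * C) := by
    apply s3
    · simp only [map_mul]
      rw [← mul_assoc, c2]
    · simp only [map_mul]
      rw [k3]
  have g5 : sgn (x0 * (A * B)) (A' * (x1 * B)) = E1 := by
    rw [← mul_assoc, ← mul_assoc, s5, f1]
  have g6 : sgn (A' * (x1 * B)) (A' * (B' * x2)) = E2 := by rw [s4, f2]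
  have g7 : sgn (A' * (B' * x2)) (C' * x2) = sgn (A' * B') C' := by rw [← mul_assoc, s5]
  have g8 : sgn (C' * x2) (x0 * C) = E3 := by rw [s2, f3]
  rw [g1, g2, g3, g4, g5, g6, g7, g8]
  ring

end CMPA

open CMPA in
theorem spn_cmpa (h1 : SPN_DIF) (h2 : SPN_SGN) (h3 : SPN_LIFTG) : SPN_CMPA := by
  intro X _ f 𝓛 𝓛'
  obtain ⟨c, hc⟩ := exists_lift h1 h3 𝓛 𝓛'
  obtain ⟨-, hd2, hd3, -⟩ := id h1
  have ov : ∀ {k : ℕ} (σ : C(Simp k, X)) (t : Simp k), ocls (𝓛'.fr σ t) = ocls (𝓛.fr σ t) :=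
    fun σ t => by rw [𝓛'.ov, 𝓛.ov]
  -- both sides of the comparison lie over the same element
  have key : ∀ {m k : ℕ} (σ : C(Simp k, X)) (θ : Fin (m + 1) → Fin (k + 1)) (t : Simp m),
      pG (c (σ.comp (smap θ)) t * 𝓛.lft σ θ t) = pG (𝓛'.lft σ θ t * c σ (smap θ t)) := by
    intro m k σ θ t
    apply smat_inj
    have e1 : ocls (𝓛.fr (σ.comp (smap θ)) t) = ocls (𝓛.fr σ (smap θ t)) := by
      rw [𝓛.ov, 𝓛.ov]; rfl
    have e2 : ocls (𝓛'.fr (σ.comp (smap θ)) t) = ocls (𝓛'.fr σ (smap θ t)) := by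
      rw [𝓛'.ov, 𝓛'.ov]; rfl
    rw [map_mul, map_mul, smat_mul, smat_mul, hc, hc, 𝓛.lft_p, 𝓛'.lft_p,
      hd3 _ _ _ (ov _ _) e1, hd3 _ _ _ e2 (ov _ _)]
  have comp : ∀ (𝓜 : LiftSys f) {l m k : ℕ} (σ : C(Simp k, X)) (η : Fin (m + 1) → Fin (k + 1))
      (θ : Fin (l + 1) → Fin (m + 1)) (t : Simp l),
      pG (𝓜.lft (σ.comp (smap η)) θ t * 𝓜.lft σ η (smap θ t)) = pG (𝓜.lft σ (η ∘ θ) t) := by
    intro 𝓜 l m k σ η θ t
    apply smat_inj
    have e1 : ocls (𝓜.fr ((σ.comp (smap η)).comp (smap θ)) t) =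
        ocls (𝓜.fr (σ.comp (smap η)) (smap θ t)) := by
      rw [𝓜.ov, 𝓜.ov]; rfl
    have e2 : ocls (𝓜.fr (σ.comp (smap η)) (smap θ t)) =
        ocls (𝓜.fr σ (smap η (smap θ t))) := by
      rw [𝓜.ov, 𝓜.ov]; rfl
    rw [map_mul, smat_mul, 𝓜.lft_p, 𝓜.lft_p, hd3 _ _ _ e1 e2, 𝓜.lft_p]
    have e3 : smap η (smap θ t) = smap (η ∘ θ) t := by rw [← smap_comp]; rfl
    rw [comp_smap, e3]
  -- the comparison signs
  let e : ∀ {m k : ℕ}, C(Simp k, X) → (Fin (m + 1) → Fin (k + 1)) → F2 := fun {m k} σ θ =>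
    sgn (c (σ.comp (smap θ)) (vtx 0) * 𝓛.lft σ θ (vtx 0))
      (𝓛'.lft σ θ (vtx 0) * c σ (smap θ (vtx 0)))
  have he : ∀ {m k : ℕ} (σ : C(Simp k, X)) (θ : Fin (m + 1) → Fin (k + 1)) (t : Simp m),
      sgn (c (σ.comp (smap θ)) t * 𝓛.lft σ θ t) (𝓛'.lft σ θ t * c σ (smap θ t)) = e σ θ := by
    intro m k σ θ t
    exact h3.2 (c (σ.comp (smap θ)) * 𝓛.lft σ θ) (𝓛'.lft σ θ * (c σ).comp (smap θ))
      (fun t => key σ θ t) t (vtx 0)
  refine ⟨e, ?_⟩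
  intro l m k σ η θ
  have ez : smap η (smap θ (vtx 0)) = smap (η ∘ θ) (vtx 0) := by rw [← smap_comp]; rfl
  have k1 := key (σ.comp (smap η)) θ (vtx 0)
  have k2 := key σ η (smap θ (vtx 0))
  have k3 := key σ (η ∘ θ) (vtx 0)
  have c1 := comp 𝓛 σ η θ (vtx 0)
  have c2 := comp 𝓛' σ η θ (vtx 0)
  have f1 := he (σ.comp (smap η)) θ (vtx 0)
  have f2 := he σ η (smap θ (vtx 0))
  have f3 := he σ (η ∘ θ) (vtx 0)
  rw [comp_smap] at k1 f1
  rw [ez] at k2 f2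
  exact alg h2 _ _ _ _ _ _ _ _ _ _ _ _ k1 k2 k3 c1 c2 f1 f2 f3

end TC
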