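import Pool.Agent.TC.SpnStmts

/-!
# Block SPN, module COC: the cochain of a lifting system is a cocycle

The coboundary of `W` is the sum of the signs of all flags of faces of a 3-simplex; with the cocycle
identity it becomes a sum of terms each of which occurs an even number of times.
-/

set_option autoImplicit false

open scoped RealInnerProductSpace Matrix Topology

noncomputable section

namespace TC

namespace COC

/-- The composites `Fin 1 → Fin 3` occur twice. -/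
theorem sum_first (A : (Fin 3 → Fin 4) → (Fin 1 → Fin 3) → F2) :
    (∑ h : Fin 4, ∑ i : Fin 3, ∑ j : Fin 2,
      A (Fin.succAbove h) ((Fin.succAbove i) ∘ (Fin.succAbove j))) = 0 := by
  refine Finset.sum_eq_zero fun h _ => ?_
  have e1 : (Fin.succAbove (0 : Fin 3)) ∘ (Fin.succAbove (0 : Fin 2)) =
    (Fin.succAbove (1 : Fin 3)) ∘ (Fin.succAbove (0 : Fin 2)) := by decide
  have e2 : (Fin.succAbove (0 : Fin 3)) ∘ (Fin.succAbove (1 : Fin 2)) =
    (Fin.succAbove (2 : Fin 3)) ∘ (Fin.succAbove (0 : Fin 2)) := by decide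
  have e3 : (Fin.succAbove (1 : Fin 3)) ∘ (Fin.succAbove (1 : Fin 2)) =
    (Fin.succAbove (2 : Fin 3)) ∘ (Fin.succAbove (1 : Fin 2)) := by decide
  simp only [Fin.sum_univ_three, Fin.sum_univ_two]
  rw [e1, e2, e3]
  generalize A (Fin.succAbove h) ((Fin.succAbove (1 : Fin 3)) ∘ (Fin.succAbove (0 : Fin 2))) = x
  generalize A (Fin.succAbove h) ((Fin.succAbove (2 : Fin 3)) ∘ (Fin.succAbove (0 : Fin 2))) = y
  generalize A (Fin.succAbove h) ((Fin.succAbove (2 : Fin 3)) ∘ (Fin.succAbove (1 : Fin 2))) = z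
  revert x y z
  decide

/-- The composites `Fin 2 → Fin 4` occur twice. -/
theorem sum_second (A : (Fin 2 → Fin 4) → (Fin 1 → Fin 2) → F2) :
    (∑ h : Fin 4, ∑ i : Fin 3, ∑ j : Fin 2,
      A ((Fin.succAbove h) ∘ (Fin.succAbove i)) (Fin.succAbove j)) = 0 := by
  have key : ∀ B : (Fin 2 → Fin 4) → F2,
      (∑ h : Fin 4, ∑ i : Fin 3, B ((Fin.succAbove h) ∘ (Fin.succAbove i))) = 0 := by
    intro B
    have e1 : (Fin.succAbove (0 : Fin 4)) ∘ (Fin.succAbove (0 : Fin 3)) =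
      (Fin.succAbove (1 : Fin 4)) ∘ (Fin.succAbove (0 : Fin 3)) := by decide
    have e2 : (Fin.succAbove (0 : Fin 4)) ∘ (Fin.succAbove (1 : Fin 3)) =
      (Fin.succAbove (2 : Fin 4)) ∘ (Fin.succAbove (0 : Fin 3)) := by decide
    have e3 : (Fin.succAbove (0 : Fin 4)) ∘ (Fin.succAbove (2 : Fin 3)) =
      (Fin.succAbove (3 : Fin 4)) ∘ (Fin.succAbove (0 : Fin 3)) := by decide
    have e4 : (Fin.succAbove (1 : Fin 4)) ∘ (Fin.succAbove (1 : Fin 3)) =
      (Fin.succAbove (2 : Fin 4)) ∘ (Fin.succAbove (1 : Fin 3)) := by decide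
    have e5 : (Fin.succAbove (1 : Fin 4)) ∘ (Fin.succAbove (2 : Fin 3)) =
      (Fin.succAbove (3 : Fin 4)) ∘ (Fin.succAbove (1 : Fin 3)) := by decide
    have e6 : (Fin.succAbove (2 : Fin 4)) ∘ (Fin.succAbove (2 : Fin 3)) =
      (Fin.succAbove (3 : Fin 4)) ∘ (Fin.succAbove (2 : Fin 3)) := by decide
    simp only [Fin.sum_univ_four, Fin.sum_univ_three]
    rw [e1, e2, e3, e4, e5, e6]
    generalize B ((Fin.succAbove (1 : Fin 4)) ∘ (Fin.succAbove (0 : Fin 3))) = x1
    generalize B ((Fin.succAbove (2 : Fin 4)) ∘ (Fin.succAbove (0 : Fin 3))) = x2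
    generalize B ((Fin.succAbove (3 : Fin 4)) ∘ (Fin.succAbove (0 : Fin 3))) = x3
    generalize B ((Fin.succAbove (2 : Fin 4)) ∘ (Fin.succAbove (1 : Fin 3))) = x4
    generalize B ((Fin.succAbove (3 : Fin 4)) ∘ (Fin.succAbove (1 : Fin 3))) = x5
    generalize B ((Fin.succAbove (3 : Fin 4)) ∘ (Fin.succAbove (2 : Fin 3))) = x6
    revert x1 x2 x3 x4 x5 x6
    decide
  exact key fun θ => ∑ j : Fin 2, A θ (Fin.succAbove j)

end COC

theorem spn_coc (h1 : SPN_SIG) : SPN_COC := by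
  intro X _ f 𝓛
  obtain ⟨-, h2⟩ := h1 𝓛
  ext1 τ
  have hterm : ∀ (h : Fin 4) (i : Fin 3) (j : Fin 2),
      𝓛.sig (l := 0) (m := 1) (k := 2) (τ.comp (smap h.succAbove)) i.succAbove j.succAbove =
        𝓛.sig (l := 0) (m := 2) (k := 3) τ h.succAbove (i.succAbove ∘ j.succAbove) +
        𝓛.sig (l := 0) (m := 1) (k := 3) τ (h.succAbove ∘ i.succAbove) j.succAbove +
        𝓛.sig (l := 1) (m := 2) (k := 3) τ h.succAbove i.succAbove := by
    intro h i j
    have := h2 (a := 0) (l := 1) (m := 2) (k := 3) τ h.succAbove i.succAbove j.succAbove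
    generalize 𝓛.sig (l := 0) (m := 1) (k := 2) (τ.comp (smap h.succAbove)) i.succAbove
      j.succAbove = a1 at this ⊢
    generalize 𝓛.sig (l := 0) (m := 2) (k := 3) τ h.succAbove (i.succAbove ∘ j.succAbove)
      = a2 at this ⊢
    generalize 𝓛.sig (l := 0) (m := 1) (k := 3) τ (h.succAbove ∘ i.succAbove) j.succAbove
      = a3 at this ⊢
    generalize 𝓛.sig (l := 1) (m := 2) (k := 3) τ h.succAbove i.succAbove = a4 at this ⊢
    revert a1 a2 a3 a4
    decide
  show (∑ h : Fin 4, ∑ i : Fin 3, ∑ j : Fin 2,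
    𝓛.sig (l := 0) (m := 1) (k := 2) (τ.comp (smap h.succAbove)) i.succAbove j.succAbove) = 0
  simp only [hterm, Finset.sum_add_distrib]
  rw [COC.sum_first fun η θ => 𝓛.sig (l := 0) (m := 2) (k := 3) τ η θ,
    COC.sum_second fun η θ => 𝓛.sig (l := 0) (m := 1) (k := 3) τ η θ, zero_add, zero_add]
  refine Finset.sum_eq_zero fun h _ => Finset.sum_eq_zero fun i _ => ?_
  rw [Fin.sum_univ_two]
  exact CharTwo.add_self_eq_zero _

end TC
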