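import Pool.Agent.TC.SpnStmts

/-!
# Block SPN: the double cover is a covering map
-/

set_option autoImplicit false

open scoped RealInnerProductSpace Matrix Topology

noncomputable section

namespace TC

namespace COV

theorem entry_le {n : ℕ} {A : Matrix (Fin n) (Fin n) ℝ} (h : A * Aᵀ = 1) (i j : Fin n) :
    A i j ^ 2 ≤ 1 := by
  have h1 : ∑ k, A i k ^ 2 = 1 := by
    have h2 := congrFun (congrFun h i) i
    rw [Matrix.mul_apply, Matrix.one_apply_eq] at h2
    rw [← h2]
    refine Finset.sum_congr rfl fun k _ => ?_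
    rw [Matrix.transpose_apply, sq]
  rw [← h1]
  exact Finset.single_le_sum (f := fun k => A i k ^ 2) (fun k _ => sq_nonneg _)
    (Finset.mem_univ j)

theorem compact_O (n : ℕ) : CompactSpace (Matrix.orthogonalGroup (Fin n) ℝ) := by
  have hc : IsClosed {A : Matrix (Fin n) (Fin n) ℝ | A * Aᵀ = 1} :=
    isClosed_eq (by fun_prop) continuous_const
  have hk : IsCompact (Set.pi Set.univ fun _ : Fin n =>
      Set.pi Set.univ fun _ : Fin n => Set.Icc (-1 : ℝ) 1) :=
    isCompact_univ_pi fun _ => isCompact_univ_pi fun _ => isCompact_Icc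
  have hK : IsCompact {A : Matrix (Fin n) (Fin n) ℝ | A * Aᵀ = 1} := by
    refine IsCompact.of_isClosed_subset (X := Matrix (Fin n) (Fin n) ℝ) hk hc ?_
    intro A hA i _ j _
    have h1 := entry_le (A := A) hA i j
    exact ⟨by nlinarith [abs_le_one_iff_mul_self_le_one.mpr (by nlinarith : A i j * A i j ≤ 1),
      abs_le.mp (abs_le_one_iff_mul_self_le_one.mpr (by nlinarith : A i j * A i j ≤ 1))],
      (abs_le.mp (abs_le_one_iff_mul_self_le_one.mpr (by nlinarith : A i j * A i j ≤ 1))).2⟩
  have hs : ((Matrix.orthogonalGroup (Fin n) ℝ : Submonoid _) :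
      Set (Matrix (Fin n) (Fin n) ℝ)) = {A | A * Aᵀ = 1} := by
    ext A
    exact Matrix.mem_orthogonalGroup_iff (Fin n) ℝ
  rw [← hs] at hK
  exact isCompact_iff_compactSpace.mp hK

theorem cont_smat : Continuous (fun A : SO7 => smat A) := by
  unfold smat
  exact continuous_subtype_val.comp continuous_subtype_val

theorem closed_SO7 : IsClosed (SO7 : Set O7) := by
  have h : (SO7 : Set O7) = {A : O7 | (A : Matrix (Fin 7) (Fin 7) ℝ).det = 1} := rfl
  rw [h]
  exact isClosed_eq (Continuous.matrix_det continuous_subtype_val) continuous_const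

theorem compact_SO7 : CompactSpace SO7 := by
  have := compact_O 7
  exact isCompact_iff_compactSpace.mp closed_SO7.isCompact

theorem closed_Gs : IsClosed (Gs : Set (SO7 × O8)) := by
  have h : (Gs : Set (SO7 × O8)) = ⋂ j : Fin 7, {g : SO7 × O8 |
      (g.2 : Matrix (Fin 8) (Fin 8) ℝ) * gam j =
        twist g.1 j * (g.2 : Matrix (Fin 8) (Fin 8) ℝ)} := by
    ext g
    simp only [Set.mem_iInter]
    rfl
  rw [h]
  refine isClosed_iInter fun j => ?_
  have hc2 : Continuous fun g : SO7 × O8 => (g.2 : Matrix (Fin 8) (Fin 8) ℝ) :=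
    continuous_subtype_val.comp continuous_snd
  have hc1 : Continuous fun g : SO7 × O8 => twist g.1 j := by
    unfold twist
    refine continuous_finsetSum _ fun i _ => ?_
    have h3 : Continuous fun g : SO7 × O8 => smat g.1 := cont_smat.comp continuous_fst
    have h4 : Continuous fun g : SO7 × O8 => smat g.1 i j := h3.matrix_elem i j
    exact h4.smul continuous_const
  exact isClosed_eq (hc2.matrix_mul continuous_const) (hc1.matrix_mul hc2)

theorem compact_Gs : CompactSpace Gs := by
  have := compact_O 8
  have := compact_SO7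
  exact isCompact_iff_compactSpace.mp closed_Gs.isCompact

theorem cont_pG : Continuous pG := by
  change Continuous fun g : Gs => (g : SO7 × O8).1
  exact continuous_fst.comp continuous_subtype_val

theorem disc_ker (h1 : SPN_KER) : IsDiscrete (pG.ker : Set Gs) := by
  have hf : (pG.ker : Set Gs) ⊆ {1, mneg} := by
    intro g hg
    have h2 : pG 1 = pG g := by
      rw [map_one]
      exact (MonoidHom.mem_ker.mp hg).symm
    rcases h1.2.2.2.2 1 g h2 with h | h
    · exact Or.inl h
    · right
      rw [mul_one] at h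
      exact h
  have hfin : (pG.ker : Set Gs).Finite := Set.Finite.subset (Set.toFinite _) hf
  have : Finite (pG.ker : Set Gs) := hfin
  exact isDiscrete_iff_discreteTopology.mpr inferInstance

end COV

open COV in
theorem spn_cov (h1 : SPN_KER) (h2 : SPN_SURJ) : SPN_COV := by
  have := compact_Gs
  have hq : Topology.IsQuotientMap pG := cont_pG.isClosedMap.isQuotientMap cont_pG h2
  exact (hq.isQuotientCoveringMap_of_isDiscrete_ker_monoidHom (disc_ker h1)).isCoveringMap

end TC
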