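import Pool.Agent.TC.SpnStmts

/-!
# Block SPN, module `SPN_DET`: the signed cosine of the angle of two oriented subspaces
-/

set_option autoImplicit false

open scoped RealInnerProductSpace Matrix Topology

noncomputable section

namespace TC

namespace DET

/-- Change of frames on both sides. -/
theorem dif_change {n : ℕ} (v w v' w' : OFr n) (A B : Matrix (Fin n) (Fin n) ℝ)
    (hA : ∀ j, v'.1 j = ∑ i, A i j • v.1 i) (hB : ∀ j, w'.1 j = ∑ i, B i j • w.1 i) :
    dif v' w' = Aᵀ * dif v w * B := by
  ext i j
  simp only [dif, Matrix.mul_apply, Matrix.transpose_apply]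
  rw [hA i, hB j, inner_sum]
  refine Finset.sum_congr rfl fun l _ => ?_
  rw [inner_smul_right, sum_inner, mul_comm]
  congr 1
  refine Finset.sum_congr rfl fun k _ => ?_
  rw [real_inner_smul_left]

/-- The determinant of `dif` depends only on the classes. -/
theorem det_eq (h2 : SPN_DIF) {n : ℕ} (v w v' w' : OFr n) (hv : ocls v = ocls v')
    (hw : ocls w = ocls w') : (dif v' w').det = (dif v w).det := by
  obtain ⟨-, a1, a2⟩ := h2.1 v v' hv
  obtain ⟨-, b1, b2⟩ := h2.1 w w' hw
  rw [dif_change v w v' w' (dif v v') (dif w w') a2 b2, Matrix.det_mul, Matrix.det_mul,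
    Matrix.det_transpose, a1, b1, one_mul, mul_one]

end DET

/-- The signed cosine of the angle of two oriented subspaces. -/
theorem spn_det (h1 : SPN_OPN) (h2 : SPN_DIF) : SPN_DET := by
  intro n
  have hq := h1 n
  have hs : Function.Surjective (ocls : OFr n → BSO n) := hq.surjective
  let s : BSO n → OFr n := Function.surjInv hs
  have hss : ∀ x, ocls (s x) = x := Function.surjInv_eq hs
  have key : ∀ v w : OFr n, (dif (s (ocls v)) (s (ocls w))).det = (dif v w).det := fun v w =>
    DET.det_eq h2 v w _ _ (hss _).symm (hss _).symm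
  refine ⟨fun p => (dif (s p.1) (s p.2)).det, ?_, key⟩
  have hpq := (hq.prodMap hq).isQuotientMap
  rw [hpq.continuous_iff]
  have : ((fun p : BSO n × BSO n => (dif (s p.1) (s p.2)).det) ∘ Prod.map ocls ocls) =
      fun p : OFr n × OFr n => (dif p.1 p.2).det := by
    funext p
    exact key p.1 p.2
  rw [this]
  exact h2.2.2.2.matrix_det

end TC
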