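import Pool.Agent.TC.SpnStmts

/-!
# Block SPN: the difference of two orthonormal frames of the same oriented subspace
-/

set_option autoImplicit false

open scoped RealInnerProductSpace Matrix

noncomputable section

namespace TC

namespace DIF

variable {n : ℕ}

theorem dif_eq (v w : OFr n) (A : Matrix (Fin n) (Fin n) ℝ)
    (h : ∀ j, w.1 j = ∑ i, A i j • v.1 i) : dif v w = A := by
  ext k j
  unfold dif
  rw [h j, v.2.inner_right_fintype]

theorem tmul_eq (v w : OFr n) (A : Matrix (Fin n) (Fin n) ℝ)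
    (h : ∀ j, w.1 j = ∑ i, A i j • v.1 i) : Aᵀ * A = 1 := by
  ext j k
  have h1 : ⟪w.1 j, w.1 k⟫ = (Aᵀ * A) j k := by
    rw [h j, h k, v.2.inner_sum, Matrix.mul_apply]
    rfl
  rw [← h1, orthonormal_iff_ite.1 w.2 j k, Matrix.one_apply]

theorem exact (v w : OFr n) (h : ocls v = ocls w) :
    ∃ A : Matrix (Fin n) (Fin n) ℝ, 0 < A.det ∧ ∀ j, w.1 j = ∑ i, A i j • v.1 i :=
  Quotient.exact h

theorem first (v w : OFr n) (h : ocls v = ocls w) :
    dif v w * (dif v w)ᵀ = 1 ∧ (dif v w).det = 1 ∧ ∀ j, w.1 j = ∑ i, dif v w i j • v.1 i := by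
  obtain ⟨A, hA, hw⟩ := exact v w h
  have h1 := dif_eq v w A hw
  have h2 := tmul_eq v w A hw
  rw [h1]
  refine ⟨mul_eq_one_comm.1 h2, ?_, hw⟩
  have h3 : A.det * A.det = 1 := by
    have h4 := congrArg Matrix.det h2
    rwa [Matrix.det_mul, Matrix.det_transpose, Matrix.det_one] at h4
  nlinarith

end DIF

open DIF in
theorem spn_dif : SPN_DIF := by
  refine ⟨fun v w h => first v w h, fun v w A hA => ⟨dif_eq v w A hA, fun hd => ?_⟩, ?_, ?_⟩
  · exact Quotient.sound (s := ⟨frameRel _, frameRel_equiv _⟩) ⟨A, hd, hA⟩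
  · intro n u v w huv hvw
    obtain ⟨-, -, h1⟩ := first u v huv
    obtain ⟨-, -, h2⟩ := first v w hvw
    symm
    refine dif_eq u w _ fun j => ?_
    rw [h2 j]
    simp only [h1, Finset.smul_sum, smul_smul, Matrix.mul_apply, Finset.sum_smul]
    rw [Finset.sum_comm]
    refine Finset.sum_congr rfl fun i _ => Finset.sum_congr rfl fun k _ => ?_
    rw [mul_comm]
  · intro n
    refine continuous_matrix fun i j => ?_
    unfold dif
    have h1 : Continuous fun p : OFr n × OFr n => p.1.1 i :=
      (continuous_apply i).comp (continuous_subtype_val.comp continuous_fst)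
    have h2 : Continuous fun p : OFr n × OFr n => p.2.1 j :=
      (continuous_apply j).comp (continuous_subtype_val.comp continuous_snd)
    exact h1.inner h2

end TC
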