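import Pool.Agent.TC.SpnStmts

/-!
# Module SPN_GAM: Clifford relations of the gamma matrices, and Schur's lemma
-/

set_option autoImplicit false

open scoped Matrix

noncomputable section

namespace TC

namespace GAM

/-- the translation of a gamma matrix -/
def tr : Fin 7 → Fin 8 := ![7, 3, 1, 6, 2, 5, 4]

/-- the permutation of a gamma matrix -/
def s (i : Fin 7) (a : Fin 8) : Fin 8 := a ^^^ tr i

/-- the signs of a gamma matrix -/
def e (i : Fin 7) (a : Fin 8) : ℤ := gamZ i a (s i a)

theorem gamZ_eqM : ∀ i : Fin 7,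
    gamZ i = Matrix.of (fun a b => if b = s i a then e i a else 0) := by
  decide +kernel

theorem gamZ_eq (i : Fin 7) (a b : Fin 8) : gamZ i a b = if b = s i a then e i a else 0 := by
  rw [gamZ_eqM i]
  rfl

theorem s_s : ∀ (i : Fin 7) (a : Fin 8), s i (s i a) = a := by
  decide +kernel

theorem e_e : ∀ (i : Fin 7) (a : Fin 8), e i a * e i a = 1 := by
  decide +kernel

theorem trans : ∀ (a : Fin 8), a = 0 ∨ ∃ i : Fin 7, s i a = 0 := by
  decide +kernel

theorem loops : ∀ (a b : Fin 8), a ≠ b → ∃ i j k : Fin 7, s k (s j (s i a)) = a ∧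
    s k (s j (s i b)) = b ∧
    (e i a * e i b) * (e j (s i a) * e j (s i b)) * (e k (s j (s i a)) * e k (s j (s i b))) = -1 := by
  decide +kernel

theorem transpose_Z : ∀ i : Fin 7, (gamZ i)ᵀ = -gamZ i := by
  decide +kernel

theorem sq_Z : ∀ i : Fin 7, gamZ i * gamZ i = -1 := by
  decide +kernel

theorem anti_Z : ∀ i j : Fin 7, i ≠ j → gamZ i * gamZ j = -(gamZ j * gamZ i) := by
  decide +kernel

theorem gam_mul (i j : Fin 7) : gam i * gam j = (gamZ i * gamZ j).map (Int.cast : ℤ → ℝ) := by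
  have h := Matrix.map_mul (L := gamZ i) (M := gamZ j) (f := Int.castRingHom ℝ)
  exact h.symm

theorem gam_eq (i : Fin 7) (a b : Fin 8) :
    gam i a b = if b = s i a then (e i a : ℝ) else 0 := by
  unfold gam
  rw [Matrix.map_apply, gamZ_eq]
  split_ifs <;> simp

theorem rel {M : Matrix (Fin 8) (Fin 8) ℝ} (h : ∀ i, M * gam i = gam i * M) (i : Fin 7)
    (a b : Fin 8) : M (s i a) (s i b) = ((e i a * e i b : ℤ) : ℝ) * M a b := by
  have h1 := congrFun (congrFun (h i) a) (s i b)
  rw [Matrix.mul_apply, Matrix.mul_apply, Finset.sum_eq_single b, Finset.sum_eq_single (s i a)]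
    at h1
  · rw [gam_eq, gam_eq, if_pos rfl, if_pos rfl] at h1
    have h2 : ((e i a : ℤ) : ℝ) * (e i a : ℝ) = 1 := by exact_mod_cast e_e i a
    push_cast
    linear_combination (-(e i a : ℝ)) * h1 - M (s i a) (s i b) * h2
  · intro k _ hk
    rw [gam_eq, if_neg hk, zero_mul]
  · simp
  · intro k _ hk
    rw [gam_eq, if_neg, mul_zero]
    intro h2
    apply hk
    rw [← s_s i b, h2, s_s]
  · simp

theorem schur {M : Matrix (Fin 8) (Fin 8) ℝ} (h : ∀ i, M * gam i = gam i * M) :
    ∃ c : ℝ, M = c • 1 := by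
  refine ⟨M 0 0, ?_⟩
  ext a b
  by_cases hab : a = b
  · subst hab
    rw [Matrix.smul_apply, Matrix.one_apply_eq, smul_eq_mul, mul_one]
    rcases trans a with h0 | ⟨i, hi⟩
    · rw [h0]
    · have h1 := rel h i a a
      rw [hi, e_e] at h1
      rw [h1]
      simp
  · rw [Matrix.smul_apply, Matrix.one_apply_ne hab, smul_zero]
    obtain ⟨i, j, k, h1, h2, h3⟩ := loops a b hab
    have h4 := rel h k (s j (s i a)) (s j (s i b))
    rw [rel h j, rel h i, h1, h2] at h4
    have h5 : ((((e i a * e i b) * (e j (s i a) * e j (s i b)) *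
        (e k (s j (s i a)) * e k (s j (s i b))) : ℤ)) : ℝ) = -1 := by
      rw [h3]
      norm_num
    push_cast at h4 h5
    linear_combination h4 / 2 + M a b / 2 * h5

end GAM

open GAM in
/-- **Module SPN_GAM.** -/
theorem spn_gam : SPN_GAM := by
  refine ⟨fun i => ?_, fun i => ?_, fun i j hij => ?_, fun M h => schur h⟩
  · have h := congrArg (fun N : Matrix (Fin 8) (Fin 8) ℤ => N.map (Int.cast : ℤ → ℝ))
      (transpose_Z i)
    ext a b
    have h2 := congrFun (congrFun h a) b
    simpa [gam] using h2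
  · rw [gam_mul, sq_Z]
    ext a b
    by_cases hab : a = b <;> simp [hab]
  · rw [gam_mul, gam_mul, anti_Z i j hij]
    ext a b
    simp

end TC
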