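import Pool.Agent.TC.SpnStmts

/-! Module SPN_GS: continuous Gram-Schmidt orthonormalisation of frames in `ℓ²`. -/

set_option autoImplicit false

open scoped RealInnerProductSpace Matrix
open InnerProductSpace

noncomputable section

namespace TC

namespace GSM

variable {n : ℕ}

theorem gs_rec (v : Fin n → L2) (i : Fin n) : gramSchmidt ℝ v i = v i -
    ∑ k ∈ Finset.Iio i, (⟪gramSchmidt ℝ v k, v i⟫ / ‖gramSchmidt ℝ v k‖ ^ 2) •
      gramSchmidt ℝ v k := by
  have h := gramSchmidt_def'' ℝ v i
  rw [eq_sub_iff_add_eq]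
  exact h.symm

theorem gs_cont (i : Fin n) : Continuous fun v : Frames n => gramSchmidt ℝ v.1 i := by
  induction i using WellFoundedLT.induction with
  | ind i ih =>
    have h : (fun v : Frames n => gramSchmidt ℝ v.1 i) = fun v : Frames n => v.1 i -
        ∑ k ∈ Finset.Iio i, (⟪gramSchmidt ℝ v.1 k, v.1 i⟫ / ‖gramSchmidt ℝ v.1 k‖ ^ 2) •
          gramSchmidt ℝ v.1 k := funext fun v => gs_rec v.1 i
    rw [h]
    have hi : Continuous fun v : Frames n => v.1 i :=
      (continuous_apply i).comp continuous_subtype_val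
    refine hi.sub (continuous_finsetSum _ fun k hk => ?_)
    have hk' := ih k (Finset.mem_Iio.mp hk)
    refine Continuous.smul (Continuous.div (hk'.inner hi) (hk'.norm.pow 2) fun v => ?_) hk'
    exact pow_ne_zero 2 (norm_ne_zero_iff.mpr (gramSchmidt_ne_zero k v.2))

theorem gs_sign (ε : Fin n → ℝ) (hε : ∀ i, ε i = 1 ∨ ε i = -1) (v w : Fin n → L2)
    (h : ∀ i, w i = ε i • v i) (i : Fin n) :
    gramSchmidt ℝ w i = ε i • gramSchmidt ℝ v i := by
  induction i using WellFoundedLT.induction with
  | ind i ih =>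
    rw [gs_rec w, gs_rec v, smul_sub, Finset.smul_sum, h i]
    congr 1
    refine Finset.sum_congr rfl fun k hk => ?_
    rw [ih k (Finset.mem_Iio.mp hk), real_inner_smul_left, real_inner_smul_right, norm_smul,
      smul_smul, smul_smul]
    congr 1
    rcases hε k with hk1 | hk1 <;> rw [hk1] <;> simp <;> ring

/-- The orthonormalised frame. -/
def gsf (v : Frames n) : OFr n := ⟨gramSchmidtNormed ℝ v.1, gramSchmidtNormed_orthonormal v.2⟩

theorem gsf_apply (v : Frames n) (i : Fin n) :
    (gsf v).1 i = ‖gramSchmidt ℝ v.1 i‖⁻¹ • gramSchmidt ℝ v.1 i := rfl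

theorem norm_pos (v : Frames n) (i : Fin n) : 0 < ‖gramSchmidt ℝ v.1 i‖ :=
  norm_pos_iff.mpr (gramSchmidt_ne_zero i v.2)

/-- The triangular matrix of the frame in the orthonormalised frame. -/
def tri (v : Frames n) : Matrix (Fin n) (Fin n) ℝ := fun i j =>
  if i = j then ‖gramSchmidt ℝ v.1 j‖
  else if i < j then ⟪gramSchmidt ℝ v.1 i, v.1 j⟫ / ‖gramSchmidt ℝ v.1 i‖ else 0

theorem tri_det (v : Frames n) : 0 < (tri v).det := by
  have h : (tri v).BlockTriangular id := by
    intro i j hij
    simp only [id_eq] at hij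
    simp [tri, hij.ne', not_lt.mpr hij.le]
  rw [Matrix.det_of_isUpperTriangular h]
  exact Finset.prod_pos fun i _ => by simpa [tri] using (gramSchmidt_ne_zero i v.2)

theorem tri_sum (v : Frames n) (j : Fin n) : v.1 j = ∑ i, tri v i j • (gsf v).1 i := by
  have h : ∀ i, tri v i j • (gsf v).1 i =
      (if i = j then gramSchmidt ℝ v.1 j else 0) +
      (if i ∈ Finset.Iio j then (⟪gramSchmidt ℝ v.1 i, v.1 j⟫ / ‖gramSchmidt ℝ v.1 i‖ ^ 2) •
          gramSchmidt ℝ v.1 i else 0) := by
    intro i
    have hp := (norm_pos v i).ne'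
    rw [gsf_apply]
    rcases lt_trichotomy i j with hij | hij | hij
    · simp only [tri, hij.ne, if_false, hij, if_true, Finset.mem_Iio, zero_add, smul_smul]
      congr 1
      field_simp
    · subst hij
      simp only [tri, if_true, Finset.mem_Iio, lt_irrefl, if_false, add_zero, smul_smul]
      rw [mul_inv_cancel₀ hp, one_smul]
    · simp [tri, hij.ne', not_lt.mpr hij.le]
  simp only [h, Finset.sum_add_distrib]
  rw [Finset.sum_ite_eq' Finset.univ j, if_pos (Finset.mem_univ j), Finset.sum_ite_mem,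
    Finset.univ_inter]
  exact gramSchmidt_def'' ℝ v.1 j

end GSM

open GSM in
theorem spn_gs : SPN_GS := by
  intro n
  refine ⟨⟨gsf, ?_⟩, fun v => ?_, fun ε hε v w h i => ?_⟩
  · refine Continuous.subtype_mk (continuous_pi fun i => ?_) _
    exact ((gs_cont i).norm.inv₀ fun v => (norm_pos v i).ne').smul (gs_cont i)
  · exact Quotient.sound ⟨tri v, tri_det v, tri_sum v⟩
  · show (gsf w).1 i = ε i • (gsf v).1 i
    rw [gsf_apply, gsf_apply, gs_sign ε hε v.1 w.1 h i, norm_smul, smul_smul, smul_smul]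
    congr 1
    rcases hε i with h1 | h1 <;> rw [h1] <;> simp

end TC
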