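import Pool.Agent.TC.SpnStmts

/-!
# Block SPN, module KER: the kernel of the double cover
-/

set_option autoImplicit false

open scoped RealInnerProductSpace Matrix

noncomputable section

namespace TC

namespace KER

theorem Gs_ext {g h : Gs} (h1 : pG g = pG h) (h2 : spn g = spn h) : g = h :=
  Subtype.ext (Prod.ext h1 (Subtype.ext h2))

theorem spn_mul (g h : Gs) : spn (g * h) = spn g * spn h := rfl

theorem spn_one : spn 1 = 1 := rfl

theorem spn_mneg : spn mneg = -1 := rfl

theorem pG_mneg : pG mneg = 1 := rfl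

theorem spn_rel (g : Gs) (j : Fin 7) : spn g * gam j = twist (pG g) j * spn g := g.2 j

theorem spn_mul_transpose (g : Gs) : spn g * (spn g)ᵀ = 1 :=
  (Matrix.mem_orthogonalGroup_iff (Fin 8) ℝ).mp g.1.2.2

theorem spn_transpose_mul (g : Gs) : (spn g)ᵀ * spn g = 1 :=
  (Matrix.mem_orthogonalGroup_iff' (Fin 8) ℝ).mp g.1.2.2

theorem comm (g h : Gs) (he : pG g = pG h) (j : Fin 7) :
    ((spn g)ᵀ * spn h) * gam j = gam j * ((spn g)ᵀ * spn h) := by
  have e1 : (spn g)ᵀ * twist (pG g) j = gam j * (spn g)ᵀ := by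
    calc (spn g)ᵀ * twist (pG g) j
        = (spn g)ᵀ * twist (pG g) j * (spn g * (spn g)ᵀ) := by
          rw [spn_mul_transpose, mul_one]
      _ = (spn g)ᵀ * (twist (pG g) j * spn g) * (spn g)ᵀ := by
          simp only [mul_assoc]
      _ = (spn g)ᵀ * (spn g * gam j) * (spn g)ᵀ := by rw [spn_rel]
      _ = ((spn g)ᵀ * spn g) * gam j * (spn g)ᵀ := by simp only [mul_assoc]
      _ = gam j * (spn g)ᵀ := by rw [spn_transpose_mul, one_mul]
  calc ((spn g)ᵀ * spn h) * gam j = (spn g)ᵀ * (spn h * gam j) := by rw [mul_assoc]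
    _ = (spn g)ᵀ * (twist (pG g) j * spn h) := by rw [spn_rel, he]
    _ = ((spn g)ᵀ * twist (pG g) j) * spn h := by rw [mul_assoc]
    _ = gam j * ((spn g)ᵀ * spn h) := by rw [e1, mul_assoc]

end KER

open KER in
theorem spn_ker (h1 : SPN_GAM) : SPN_KER := by
  refine ⟨rfl, ?_, ?_, ?_, ?_⟩
  · intro h
    have h2 : spn mneg = spn 1 := by rw [h]
    rw [spn_mneg, spn_one] at h2
    have h3 := congrFun (congrFun h2 0) 0
    simp at h3
    linarith
  · refine Gs_ext ?_ ?_
    · rw [map_mul, pG_mneg, map_one, one_mul]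
    · rw [spn_mul, spn_mneg, spn_one]
      simp
  · intro g
    refine Gs_ext ?_ ?_
    · rw [map_mul, map_mul, pG_mneg, one_mul, mul_one]
    · rw [spn_mul, spn_mul, spn_mneg]
      simp
  · intro g h he
    obtain ⟨c, hc⟩ := h1.2.2.2 ((spn g)ᵀ * spn h) (comm g h he)
    have hh : spn h = c • spn g := by
      calc spn h = (spn g * (spn g)ᵀ) * spn h := by rw [spn_mul_transpose, one_mul]
        _ = spn g * ((spn g)ᵀ * spn h) := by rw [mul_assoc]
        _ = c • spn g := by rw [hc, mul_smul_comm, mul_one]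
    have hc2 : c * c = 1 := by
      have h3 := spn_mul_transpose h
      rw [hh, Matrix.transpose_smul, smul_mul_assoc, mul_smul_comm, smul_smul,
        spn_mul_transpose] at h3
      have h4 := congrFun (congrFun h3 0) 0
      simpa using h4
    rcases mul_self_eq_one_iff.mp hc2 with h5 | h5
    · left
      refine Gs_ext he.symm ?_
      rw [hh, h5, one_smul]
    · right
      refine Gs_ext ?_ ?_
      · rw [map_mul, pG_mneg, one_mul, he]
      · rw [spn_mul, spn_mneg, hh, h5]
        simp

end TC
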