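import Pool.Agent.TC.SpnStmts

/-!
# Block SPN: singular simplices of `BSO n` lift to orthonormal frames
-/

set_option autoImplicit false

open scoped RealInnerProductSpace Matrix Topology

noncomputable section

namespace TC

namespace LIFT

/-- The linear contraction of the simplex to its vertex `0`. -/
def con {k : ℕ} (p : Simp k) (s : unitInterval) : Simp k :=
  ⟨(1 - (s : ℝ)) • (vtx 0 : Simp k).1 + (s : ℝ) • p.1,
    (convex_stdSimplex ℝ (Fin (k + 1))) (vtx 0 : Simp k).2 p.2 (sub_nonneg.2 s.2.2) s.2.1
      (by ring)⟩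

theorem con_zero {k : ℕ} (p : Simp k) : con p 0 = vtx 0 := by
  apply Subtype.ext
  simp [con]

theorem con_one {k : ℕ} (p : Simp k) : con p 1 = p := by
  apply Subtype.ext
  simp [con]

theorem continuous_con {k : ℕ} : Continuous fun q : Simp k × unitInterval => con q.1 q.2 := by
  refine Continuous.subtype_mk ?_ _
  have h2 : Continuous fun q : Simp k × unitInterval => (q.2 : ℝ) :=
    continuous_subtype_val.comp continuous_snd
  have h1 : Continuous fun q : Simp k × unitInterval => q.1.1 :=
    continuous_subtype_val.comp continuous_fst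
  exact ((continuous_const.sub h2).smul continuous_const).add (h2.smul h1)

/-- A fine subdivision of the unit interval. -/
theorem subdiv (δ : ℝ) (hδ : 0 < δ) : ∃ (N : ℕ) (s : ℕ → unitInterval), s 0 = 0 ∧ s N = 1 ∧
    ∀ j, dist (s j) (s (j + 1)) < δ := by
  obtain ⟨m, hm⟩ := exists_nat_one_div_lt hδ
  have hpos : (0 : ℝ) < (m : ℝ) + 1 := by positivity
  refine ⟨m + 1, fun j => Set.projIcc 0 1 zero_le_one ((j : ℝ) / ((m : ℝ) + 1)), ?_, ?_, ?_⟩
  · simp only [Nat.cast_zero, zero_div]
    exact Set.projIcc_left (zero_le_one' ℝ)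
  · have : ((m + 1 : ℕ) : ℝ) / ((m : ℝ) + 1) = 1 := by
      rw [Nat.cast_add, Nat.cast_one]
      exact div_self hpos.ne'
    simp only [this]
    exact Set.projIcc_right (zero_le_one' ℝ)
  · intro j
    rw [Subtype.dist_eq, Real.dist_eq]
    refine lt_of_le_of_lt (Set.abs_projIcc_sub_projIcc zero_le_one) ?_
    have e : (j : ℝ) / ((m : ℝ) + 1) - ((j + 1 : ℕ) : ℝ) / ((m : ℝ) + 1) =
        -(1 / ((m : ℝ) + 1)) := by
      rw [Nat.cast_add, Nat.cast_one]
      field_simp
      ring
    rw [e, abs_neg, abs_of_pos (by positivity)]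
    exact hm

theorem dif_self {n : ℕ} (v : OFr n) : dif v v = 1 := by
  ext i j
  have h := (orthonormal_iff_ite.1 v.2) i j
  rw [Matrix.one_apply]
  exact h

end LIFT

open LIFT in
/-- Singular simplices of `BSO n` lift to orthonormal frames. -/
theorem spn_lift (h1 : SPN_GS) (h2 : SPN_PRJ) (h3 : SPN_DET) (h4 : SPN_STEP) : SPN_LIFT := by
  intro n k σ
  obtain ⟨gs, hgs, -⟩ := h1 n
  obtain ⟨P, hPc, hP⟩ := h2 n
  obtain ⟨D, hDc, hD⟩ := h3 n
  have surj : ∀ b : BSO n, ∃ w : OFr n, ocls w = b := by
    intro b
    obtain ⟨v, rfl⟩ := Quotient.exists_rep b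
    exact ⟨gs v, hgs v⟩
  have hDself : ∀ b : BSO n, D (b, b) = 1 := by
    intro b
    obtain ⟨w, rfl⟩ := surj b
    rw [hD, dif_self, Matrix.det_one]
  -- the function on the compact space
  let g : Simp k × unitInterval × unitInterval → ℝ :=
    fun q => D (σ (con q.1 q.2.1), σ (con q.1 q.2.2))
  have hg : Continuous g := by
    refine hDc.comp ?_
    refine Continuous.prodMk ?_ ?_
    · exact σ.continuous.comp
        (continuous_con.comp (continuous_fst.prodMk (continuous_fst.comp continuous_snd)))
    · exact σ.continuous.comp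
        (continuous_con.comp (continuous_fst.prodMk (continuous_snd.comp continuous_snd)))
  have hgu := CompactSpace.uniformContinuous_of_continuous hg
  obtain ⟨δ, hδ, hgδ⟩ := Metric.uniformContinuous_iff.1 hgu 1 one_pos
  obtain ⟨N, s, hs0, hsN, hs⟩ := subdiv δ hδ
  have hpos : ∀ (p : Simp k) (j : ℕ), 0 < D (σ (con p (s j)), σ (con p (s (j + 1)))) := by
    intro p j
    have h := @hgδ (p, s j, s j) (p, s j, s (j + 1)) (by
      rw [Prod.dist_eq, Prod.dist_eq]
      simp only [dist_self]
      rw [max_eq_right (le_max_left _ _), max_eq_right dist_nonneg]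
      exact hs j)
    have e : g (p, s j, s j) = 1 := hDself _
    rw [e, Real.dist_eq, abs_lt] at h
    have h' : 1 - D (σ (con p (s j)), σ (con p (s (j + 1)))) < 1 := h.2
    linarith
  have key : ∀ j : ℕ, ∃ F : C(Simp k, OFr n), ∀ p, ocls (F p) = σ (con p (s j)) := by
    intro j
    induction j with
    | zero =>
      obtain ⟨w, hw⟩ := surj (σ (vtx 0))
      refine ⟨ContinuousMap.const _ w, fun p => ?_⟩
      rw [hs0, con_zero]
      exact hw
    | succ j ih =>
      obtain ⟨F, hF⟩ := ih
      have step : ∀ p : Simp k, ∃ h : LinearIndependent ℝ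
          (fun i => P (σ (con p (s (j + 1)))) ((F p).1 i)),
          BSO.mk ⟨_, h⟩ = σ (con p (s (j + 1))) := by
        intro p
        obtain ⟨w, hw⟩ := surj (σ (con p (s (j + 1))))
        have hd : 0 < (dif (F p) w).det := by
          rw [← hD, hF, hw]
          exact hpos p j
        obtain ⟨h, hh⟩ := h4 (F p) w hd
        have e : (fun i => P (σ (con p (s (j + 1)))) ((F p).1 i)) =
            fun i => ∑ k, ⟪w.1 k, (F p).1 i⟫ • w.1 k := by
          funext i
          rw [← hw, hP]
        have h' : LinearIndependent ℝ (fun i => P (σ (con p (s (j + 1)))) ((F p).1 i)) := by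
          rw [e]
          exact h
        refine ⟨h', ?_⟩
        refine Eq.trans ?_ (hh.trans hw)
        congr 1
        exact Subtype.ext e
      choose hli hmk using step
      have hcont : Continuous fun p : Simp k =>
          (⟨fun i => P (σ (con p (s (j + 1)))) ((F p).1 i), hli p⟩ : Frames n) := by
        refine Continuous.subtype_mk ?_ _
        refine continuous_pi fun i => ?_
        refine Continuous.clm_apply ?_ ?_
        · exact hPc.comp (σ.continuous.comp
            (continuous_con.comp (continuous_id.prodMk continuous_const)))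
        · exact (continuous_apply i).comp (continuous_subtype_val.comp F.continuous)
      refine ⟨gs.comp ⟨_, hcont⟩, fun p => ?_⟩
      rw [ContinuousMap.comp_apply, hgs]
      exact hmk p
  obtain ⟨L, hL⟩ := key N
  refine ⟨L, fun t => ?_⟩
  rw [hL, hsN, con_one]

end TC
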