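import Pool.Agent.TC.SpnStmts

/-!
# Block SPN, module LIFTG: maps of simplices to `SO(7)` lift to `Gs`
-/

set_option autoImplicit false

open scoped Topology

noncomputable section

namespace TC

namespace LIFTG

instance simpContractible (k : ℕ) : ContractibleSpace (Simp k) :=
  (convex_stdSimplex ℝ (Fin (k + 1))).contractibleSpace
    ⟨_, single_mem_stdSimplex ℝ (0 : Fin (k + 1))⟩

instance simpLocPath (k : ℕ) : LocallyPathConnectedSpace (Simp k) :=
  (convex_stdSimplex ℝ (Fin (k + 1))).locallyPathConnectedSpace

end LIFTG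

theorem spn_liftg (_h1 : SPN_KER) (h2 : SPN_SURJ) (h3 : SPN_COV) : SPN_LIFTG := by
  refine ⟨fun {k} a => ?_, fun {k} g h hgh t t' => ?_⟩
  · obtain ⟨g0, hg0⟩ := h2 (a (vtx 0))
    obtain ⟨g, ⟨-, hg⟩, -⟩ := IsCoveringMap.existsUnique_continuousMap_lifts h3 a (vtx 0) g0 hg0
    exact ⟨g, fun t => congrFun hg t⟩
  · have key : ∀ s : Simp k, sgn (g s) (h s) = 0 → ∀ u : Simp k, sgn (g u) (h u) = 0 := by
      intro s hs u
      have e1 : g s = h s := by
        by_contra hne
        unfold sgn at hs
        rw [if_neg hne] at hs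
        exact one_ne_zero hs
      have e2 : (g : Simp k → Gs) = h :=
        IsCoveringMap.eq_of_comp_eq h3 g.continuous h.continuous (funext hgh) s e1
      unfold sgn
      rw [if_pos (congrFun e2 u)]
    have dich : ∀ s : Simp k, sgn (g s) (h s) = 0 ∨ sgn (g s) (h s) = 1 := by
      intro s
      unfold sgn
      split_ifs
      · exact Or.inl rfl
      · exact Or.inr rfl
    rcases dich t with ht | ht
    · rw [ht, key t ht t']
    · rcases dich t' with ht' | ht'
      · have := key t' ht' t
        rw [this] at ht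
        exact absurd ht zero_ne_one
      · rw [ht, ht']

end TC
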