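import Pool.Agent.TC.SpnStmts

/-!
# Block SPN: lifts of simplices through a quotient covering
-/

set_option autoImplicit false

noncomputable section

namespace TC

namespace LZ

theorem simp_sc (k : ℕ) : SimplyConnectedSpace (Simp k) := by
  have : ContractibleSpace (Simp k) :=
    (convex_stdSimplex ℝ (Fin (k + 1))).contractibleSpace ⟨_, (vtx (0 : Fin (k + 1))).2⟩
  infer_instance

theorem simp_lpc (k : ℕ) : LocallyPathConnectedSpace (Simp k) :=
  (convex_stdSimplex ℝ (Fin (k + 1))).locallyPathConnectedSpace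

end LZ

/-- Lifts of simplices through a quotient covering with an equivariant labelling. -/
theorem spn_lz : SPN_LZ := by
  intro Z E H _ _ _ _ q hq label hlab
  have hcov : IsCoveringMap q := hq.isCoveringMap
  have hcv := hq.toContinuousConstVAdd
  have hmove : ∀ (h : H) (z : Z), q (h +ᵥ z) = q z := by
    intro h z
    exact hq.apply_eq_iff_mem_orbit.2 ⟨h, rfl⟩
  refine ⟨?_, ?_⟩
  · intro k σ
    have := LZ.simp_sc k
    have := LZ.simp_lpc k
    obtain ⟨z₀, hz₀⟩ := hq.surjective (σ (vtx 0))
    obtain ⟨τ, ⟨hτ0, hτ⟩, -⟩ := hcov.existsUnique_continuousMap_lifts σ (vtx 0) z₀ hz₀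
    refine ⟨⟨fun t => (-label z₀) +ᵥ τ t, (continuous_const_vadd _).comp τ.continuous⟩, ?_, ?_⟩
    · intro t
      change q ((-label z₀) +ᵥ τ t) = σ t
      rw [hmove]
      exact congrFun hτ t
    · change label ((-label z₀) +ᵥ τ (vtx 0)) = 0
      rw [hlab, hτ0, neg_add_cancel]
  · intro k τ τ' h s t
    have := LZ.simp_sc k
    obtain ⟨g, hg⟩ := hq.apply_eq_iff_mem_orbit.1 (h s).symm
    have hg' : τ' s = g +ᵥ τ s := hg.symm
    have hgl : label (τ' s) - label (τ s) = g := by
      rw [hg', hlab, add_sub_cancel_right]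
    rw [hgl]
    have hfun : (fun t => τ' t) = fun t => g +ᵥ τ t := by
      refine hcov.eq_of_comp_eq τ'.continuous ((continuous_const_vadd g).comp τ.continuous) ?_ s hg'
      funext t
      change q (τ' t) = q (g +ᵥ τ t)
      rw [hmove, h t]
    exact congrFun hfun t

end TC
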