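import Pool.Agent.TC.SpnStmts

/-!
# Block SPN: assembly of the main theorem
-/

set_option autoImplicit false

noncomputable section

namespace TC

namespace MAIN

theorem compare (h3 : SPN_CMP) {X : Type} [TopologicalSpace X] {f g : C(X, BSO 7)} (hg : g = f)
    (𝓛 : LiftSys f) (𝓛' : LiftSys g) : ∃ b : Coch X 1, 𝓛'.W = 𝓛.W + cobd b := by
  subst hg
  exact h3 𝓛' 𝓛

end MAIN

theorem spn_main (h1 : SPN_SYS) (h2 : SPN_COC) (h3 : SPN_CMP) (h4 : SPN_QSY) : SPN_MAIN := by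
  obtain ⟨U⟩ := h1
  refine ⟨U.W, h2 U, ?_⟩
  intro Z E H _ _ _ _ q hq label hl χ hχ f L hL hLs
  obtain ⟨𝓛, h𝓛⟩ := h4 q hq label hl χ hχ f L hL hLs
  obtain ⟨b, hb⟩ := MAIN.compare h3 (ContinuousMap.id_comp f) 𝓛 (U.pull f)
  refine ⟨b, fun σ τ hτ => ?_⟩
  have e : TC.pull f U.W = 𝓛.W + cobd b := by
    rw [← U.W_pull]
    exact hb
  rw [e, Pi.add_apply, h𝓛 σ τ hτ]

end TC
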