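import Pool.Agent.TC.SpnStmts

/-!
# Block SPN, module OPN: the projection from orthonormal frames to the oriented Grassmannian is an
open quotient map
-/

set_option autoImplicit false

open scoped RealInnerProductSpace Matrix Topology

noncomputable section

namespace TC

namespace OPN

theorem continuous_mk (n : ℕ) : Continuous (BSO.mk : Frames n → BSO n) :=
  continuous_coinduced_rng

theorem isOpen_iff {n : ℕ} (V : Set (BSO n)) : IsOpen V ↔ IsOpen ((BSO.mk : Frames n → BSO n) ⁻¹' V) :=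
  isOpen_coinduced

theorem continuous_ocls (n : ℕ) : Continuous (ocls : OFr n → BSO n) :=
  (continuous_mk n).comp (Continuous.subtype_mk continuous_subtype_val _)

/-- The frame `w A`. -/
def rot {n : ℕ} (A : Matrix (Fin n) (Fin n) ℝ) (w : Fin n → L2) : Fin n → L2 :=
  fun j => ∑ i, A i j • w i

theorem rot_orthonormal {n : ℕ} {A : Matrix (Fin n) (Fin n) ℝ} (hA : A * Aᵀ = 1) {w : Fin n → L2}
    (hw : Orthonormal ℝ w) : Orthonormal ℝ (rot A w) := by
  rw [orthonormal_iff_ite]
  intro j l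
  have h1 : ⟪rot A w j, rot A w l⟫ = ∑ i, (starRingEnd ℝ) (A i j) * A i l :=
    hw.inner_sum (fun i => A i j) (fun i => A i l) Finset.univ
  have h2 : Aᵀ * A = 1 := mul_eq_one_comm.mp hA
  rw [h1]
  have h3 : (Aᵀ * A) j l = (1 : Matrix (Fin n) (Fin n) ℝ) j l := by rw [h2]
  rw [Matrix.mul_apply, Matrix.one_apply] at h3
  rw [← h3]
  rfl

theorem rot_continuous {n : ℕ} (A : Matrix (Fin n) (Fin n) ℝ) : Continuous (rot A) := by
  unfold rot
  fun_prop

end OPN

open OPN in
/-- **SPN_OPN** -/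
theorem spn_opn (h1 : SPN_GS) (h2 : SPN_DIF) : SPN_OPN := by
  intro n
  obtain ⟨gs, hgs, -⟩ := h1 n
  obtain ⟨hd1, hd2, -, -⟩ := h2
  refine ⟨?_, continuous_ocls n, ?_⟩
  · intro b
    obtain ⟨v, rfl⟩ : ∃ v : Frames n, BSO.mk v = b := Quotient.exists_rep b
    exact ⟨gs v, hgs v⟩
  · intro U hU
    obtain ⟨U', hU', rfl⟩ := isOpen_induced_iff.1 hU
    rw [isOpen_iff, isOpen_iff_mem_nhds]
    rintro v ⟨u, huU, huv⟩
    have e1 : ocls (gs v) = ocls u := by rw [hgs, huv]
    obtain ⟨hA, hdet, hu⟩ := hd1 (gs v) u e1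
    have hopen : IsOpen {w : Frames n | rot (dif (gs v) u) (gs w).1 ∈ U'} :=
      hU'.preimage ((rot_continuous _).comp (continuous_subtype_val.comp gs.continuous))
    refine Filter.mem_of_superset (hopen.mem_nhds ?_) ?_
    · have e2 : rot (dif (gs v) u) (gs v).1 = u.1 := funext fun j => (hu j).symm
      show rot (dif (gs v) u) (gs v).1 ∈ U'
      rw [e2]
      exact huU
    · intro w hw
      refine ⟨⟨rot (dif (gs v) u) (gs w).1, rot_orthonormal hA (gs w).2⟩, hw, ?_⟩
      rw [← hgs w]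
      refine ((hd2 (gs w) ⟨rot (dif (gs v) u) (gs w).1, rot_orthonormal hA (gs w).2⟩
        (dif (gs v) u) (fun j => rfl)).2 ?_).symm
      rw [hdet]
      exact one_pos

end TC
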