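import Pool.Agent.TC.SpnStmts

/-!
# Block SPN, module PRJ: the orthogonal projections depend continuously on the point of `BSO n`
-/

set_option autoImplicit false

open scoped RealInnerProductSpace Matrix Topology

noncomputable section

namespace TC

namespace PRJ

/-- The orthogonal projection onto the span of an orthonormal frame. -/
def pv {n : ℕ} (v : OFr n) : L2 →L[ℝ] L2 := ∑ i, (innerSL ℝ (v.1 i)).smulRight (v.1 i)

theorem pv_apply {n : ℕ} (v : OFr n) (x : L2) : pv v x = ∑ i, ⟪v.1 i, x⟫ • v.1 i := by
  unfold pv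
  rw [ContinuousLinearMap.sum_apply]
  refine Finset.sum_congr rfl fun i _ => ?_
  rw [ContinuousLinearMap.smulRight_apply, innerSL_apply_apply]

theorem pv_cont {n : ℕ} : Continuous (pv : OFr n → L2 →L[ℝ] L2) := by
  unfold pv
  refine continuous_finset_sum _ fun i _ => ?_
  have hi : Continuous fun v : OFr n => v.1 i := (continuous_apply i).comp continuous_subtype_val
  have h1 : Continuous fun v : OFr n =>
      (ContinuousLinearMap.smulRightL ℝ L2 L2 (innerSL ℝ (v.1 i))) (v.1 i) :=
    (((ContinuousLinearMap.smulRightL ℝ L2 L2).continuous).comp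
      ((innerSL ℝ).continuous.comp hi)).clm_apply hi
  exact h1

theorem pv_eq (h2 : SPN_DIF) {n : ℕ} (v w : OFr n) (h : ocls v = ocls w) : pv v = pv w := by
  obtain ⟨hA, -, hw⟩ := h2.1 v w h
  set A := dif v w with hAdef
  have hent : ∀ i k, ∑ j, A i j * A k j = if i = k then 1 else 0 := by
    intro i k
    have := congrFun (congrFun hA i) k
    rw [Matrix.mul_apply] at this
    simpa [Matrix.one_apply] using this
  ext1 x
  rw [pv_apply, pv_apply]
  symm
  calc ∑ j, ⟪w.1 j, x⟫ • w.1 j
      = ∑ j, (∑ i, A i j * ⟪v.1 i, x⟫) • ∑ k, A k j • v.1 k := by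
        refine Finset.sum_congr rfl fun j _ => ?_
        have e1 : ⟪w.1 j, x⟫ = ∑ i, A i j * ⟪v.1 i, x⟫ := by
          rw [hw j, sum_inner]
          exact Finset.sum_congr rfl fun i _ => real_inner_smul_left _ _ _
        rw [e1, hw j]
    _ = ∑ j, ∑ k, ∑ i, (⟪v.1 i, x⟫ * (A i j * A k j)) • v.1 k := by
        refine Finset.sum_congr rfl fun j _ => ?_
        rw [Finset.smul_sum]
        refine Finset.sum_congr rfl fun k _ => ?_
        rw [smul_smul, Finset.sum_mul, Finset.sum_smul]
        refine Finset.sum_congr rfl fun i _ => ?_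
        congr 1
        ring
    _ = ∑ k, ∑ i, ∑ j, (⟪v.1 i, x⟫ * (A i j * A k j)) • v.1 k := by
        rw [Finset.sum_comm]
        refine Finset.sum_congr rfl fun k _ => ?_
        rw [Finset.sum_comm]
    _ = ∑ k, ∑ i, (⟪v.1 i, x⟫ * (if i = k then 1 else 0)) • v.1 k := by
        refine Finset.sum_congr rfl fun k _ => Finset.sum_congr rfl fun i _ => ?_
        rw [← Finset.sum_smul, ← Finset.mul_sum, hent]
    _ = ∑ k, ⟪v.1 k, x⟫ • v.1 k := by
        refine Finset.sum_congr rfl fun k _ => ?_
        rw [Finset.sum_eq_single k]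
        · simp
        · intro b _ hb
          simp [hb]
        · intro hk
          exact absurd (Finset.mem_univ k) hk

end PRJ

/-- The orthogonal projections onto the subspaces depend continuously on the point of `BSO n`. -/
theorem spn_prj (h1 : SPN_OPN) (h2 : SPN_DIF) : SPN_PRJ := by
  intro n
  have hq := (h1 n).isQuotientMap
  have hs : Function.Surjective (ocls : OFr n → BSO n) := hq.surjective
  have key : ∀ v : OFr n, PRJ.pv (Function.surjInv hs (ocls v)) = PRJ.pv v := fun v =>
    PRJ.pv_eq h2 _ _ (Function.surjInv_eq hs (ocls v))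
  refine ⟨fun b => PRJ.pv (Function.surjInv hs b), ?_, ?_⟩
  · rw [hq.continuous_iff]
    have : (fun b => PRJ.pv (Function.surjInv hs b)) ∘ (ocls : OFr n → BSO n) = PRJ.pv := by
      funext v
      exact key v
    rw [this]
    exact PRJ.pv_cont
  · intro v x
    show PRJ.pv (Function.surjInv hs (ocls v)) x = _
    rw [key v, PRJ.pv_apply]

end TC
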