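import Pool.Agent.TC.SpnStmts

/-!
# Block SPN: the lifting system of a quotient covering and its cocycle
-/

set_option autoImplicit false

open scoped RealInnerProductSpace Matrix Topology

noncomputable section

namespace TC

namespace QSY

theorem sg_cases (a : ZMod 2) : sg a = 1 ∨ sg a = -1 := by
  rcases z2_cases a with rfl | rfl
  · left; simp [sg]
  · right; simp [sg]

section

variable {Z E H : Type} [TopologicalSpace Z] [TopologicalSpace E] [AddCommGroup H] [AddAction H Z]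
  {q : Z → E} {label : Z → H}

/-- Chosen lifts of simplices, with label zero at the first vertex. -/
structure Lifts (q : Z → E) (label : Z → H) where
  li : ∀ {k : ℕ}, C(Simp k, E) → C(Simp k, Z)
  li_q : ∀ {k : ℕ} (σ : C(Simp k, E)) (t : Simp k), q (li σ t) = σ t
  li_0 : ∀ {k : ℕ} (σ : C(Simp k, E)), label (li σ (vtx 0)) = 0
  uni : ∀ {k : ℕ} (τ τ' : C(Simp k, Z)), (∀ t, q (τ t) = q (τ' t)) → ∀ s t : Simp k,
      τ' t = (label (τ' s) - label (τ s)) +ᵥ τ t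

variable (Λ : Lifts q label)

/-- The difference of the two lifts of a face. -/
def hh {m k : ℕ} (σ : C(Simp k, E)) (θ : Fin (m + 1) → Fin (k + 1)) : H :=
  label (Λ.li σ (smap θ (vtx 0)))

theorem li_smap {m k : ℕ} (σ : C(Simp k, E)) (θ : Fin (m + 1) → Fin (k + 1)) (t : Simp m) :
    Λ.li σ (smap θ t) = hh Λ σ θ +ᵥ Λ.li (σ.comp (smap θ)) t := by
  have h := Λ.uni (Λ.li (σ.comp (smap θ))) ((Λ.li σ).comp (smap θ)) (fun t => by
    rw [Λ.li_q]
    exact (Λ.li_q σ (smap θ t)).symm) (vtx 0) t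
  rw [Λ.li_0, sub_zero] at h
  exact h

theorem hh_comp (hl : ∀ (h : H) (z : Z), label (h +ᵥ z) = h + label z) {l m k : ℕ}
    (σ : C(Simp k, E)) (η : Fin (m + 1) → Fin (k + 1)) (θ : Fin (l + 1) → Fin (m + 1)) :
    hh Λ σ (η ∘ θ) = hh Λ (σ.comp (smap η)) θ + hh Λ σ η := by
  have h : hh Λ σ (η ∘ θ) = label (Λ.li σ (smap η (smap θ (vtx 0)))) := by
    unfold hh
    rw [← smap_comp]
    rfl
  rw [h, li_smap, hl, add_comm]
  rfl

include Λ in
theorem label_diff (hl : ∀ (h : H) (z : Z), label (h +ᵥ z) = h + label z) {k : ℕ}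
    (τ τ' : C(Simp k, Z)) (hq : ∀ t, q (τ t) = q (τ' t)) (s t : Simp k) :
    label (τ' t) - label (τ t) = label (τ' s) - label (τ s) := by
  have h := Λ.uni τ τ' hq s t
  have h' := congrArg label h
  rw [hl] at h'
  rw [h', add_sub_cancel_right]

end

end QSY

theorem spn_qsy (h1 : SPN_DIF) (h2 : SPN_GS) (h3 : SPN_SL) (h4 : SPN_LZ) : SPN_QSY := by
  intro Z E H _ _ _ _ q hq label hl χ hχ f L hL hs
  obtain ⟨hz1, hz2⟩ := h4 q hq label hl
  obtain ⟨gs, hg1, hg2⟩ := h2 7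
  obtain ⟨sl, hsl0, hsl1, hsl2⟩ := h3
  obtain ⟨-, hd2, -, -⟩ := h1
  let Λ : QSY.Lifts q label :=
    { li := fun σ => Classical.choose (hz1 σ)
      li_q := fun σ => (Classical.choose_spec (hz1 σ)).1
      li_0 := fun σ => (Classical.choose_spec (hz1 σ)).2
      uni := fun τ τ' h s t => hz2 τ τ' h s t }
  let 𝓛 : LiftSys f :=
    { fr := fun σ => gs.comp (L.comp (Λ.li σ))
      ov := fun σ t => by
        show ocls (gs (L (Λ.li σ t))) = f (σ t)
        rw [hg1, ← hL, Λ.li_q]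
      lft := fun σ θ => ContinuousMap.const _ (sl (χ (QSY.hh Λ σ θ)))
      lft_p := fun σ θ t => by
        show smat (pG (sl (χ (QSY.hh Λ σ θ)))) =
          dif (gs (L (Λ.li (σ.comp (smap θ)) t))) (gs (L (Λ.li σ (smap θ t))))
        rw [hsl1 _ (hχ _)]
        refine (hd2 _ _ _ ?_).1.symm
        intro j
        rw [QSY.li_smap]
        rw [hg2 (fun i => sg (χ (QSY.hh Λ σ θ) i)) (fun i => QSY.sg_cases _)
          (L (Λ.li (σ.comp (smap θ)) t)) _ (fun i => hs _ _ i) j]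
        simp [Matrix.diagonal_apply, ite_smul] }
  have hsig : ∀ {l m k : ℕ} (σ : C(Simp k, E)) (η : Fin (m + 1) → Fin (k + 1))
      (θ : Fin (l + 1) → Fin (m + 1)), 𝓛.sig σ η θ =
        ∑ i, ∑ j, if j ≤ i then χ (QSY.hh Λ (σ.comp (smap η)) θ) i * χ (QSY.hh Λ σ η) j
          else 0 := by
    intro l m k σ η θ
    show sgn (sl (χ (QSY.hh Λ (σ.comp (smap η)) θ)) * sl (χ (QSY.hh Λ σ η)))
      (sl (χ (QSY.hh Λ σ (η ∘ θ)))) = _
    rw [QSY.hh_comp Λ hl, map_add]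
    exact hsl2 _ _ (hχ _) (hχ _)
  refine ⟨𝓛, ?_⟩
  intro σ τ hτ
  have hv : ∀ {m k : ℕ} (σ : C(Simp k, E)) (θ : Fin (m + 1) → Fin (k + 1)),
      QSY.hh Λ σ θ = label (Λ.li σ (vtx (θ 0))) := by
    intro m k σ θ
    unfold QSY.hh
    rw [smap_vtx]
  have hv0 : ∀ {m k : ℕ} (σ : C(Simp k, E)) (θ : Fin (m + 1) → Fin (k + 1)), θ 0 = 0 →
      QSY.hh Λ σ θ = 0 := by
    intro m k σ θ h
    rw [hv, h, Λ.li_0]
  have hW : 𝓛.W σ = 𝓛.sig σ (0 : Fin 3).succAbove (0 : Fin 2).succAbove := by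
    unfold LiftSys.W
    rw [Fin.sum_univ_three, Fin.sum_univ_two, Fin.sum_univ_two, Fin.sum_univ_two]
    have e1 : ∀ (i : Fin 3) (j : Fin 2), i.succAbove 0 = 0 →
        𝓛.sig (l := 0) (m := 1) (k := 2) σ i.succAbove j.succAbove = 0 := by
      intro i j h
      rw [hsig, hv0 σ i.succAbove h, map_zero]
      simp
    have e2 : ∀ (i : Fin 3), 𝓛.sig (l := 0) (m := 1) (k := 2) σ i.succAbove
        (1 : Fin 2).succAbove = 0 := by
      intro i
      rw [hsig, hv0 (σ.comp (smap i.succAbove)) (1 : Fin 2).succAbove (by decide), map_zero]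
      simp
    rw [e2 0, e1 1 0 (by decide), e1 1 1 (by decide), e1 2 0 (by decide), e1 2 1 (by decide)]
    simp
  rw [hW, hsig]
  have hq' : ∀ t, q (Λ.li σ t) = q (τ t) := fun t => by rw [Λ.li_q, hτ]
  have d1 := QSY.label_diff Λ hl (Λ.li σ) τ hq' (vtx 0) (vtx 1)
  have d2 := QSY.label_diff Λ hl (Λ.li σ) τ hq' (vtx 0) (vtx 2)
  have l0 : label (Λ.li σ (vtx 0)) = 0 := Λ.li_0 σ
  have b1 : QSY.hh Λ σ (0 : Fin 3).succAbove = label (τ (vtx 1)) - label (τ (vtx 0)) := by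
    rw [hv]
    show label (Λ.li σ (vtx 1)) = _
    rw [l0, sub_zero] at d1
    rw [← d1]
    abel
  have b2 : QSY.hh Λ (σ.comp (smap (0 : Fin 3).succAbove)) (0 : Fin 2).succAbove =
      label (τ (vtx 2)) - label (τ (vtx 1)) := by
    rw [hv]
    show label (Λ.li (σ.comp (smap (0 : Fin 3).succAbove)) (vtx 1)) = _
    have h := congrArg label (QSY.li_smap Λ σ (0 : Fin 3).succAbove (vtx 1))
    rw [hl, smap_vtx] at h
    have h' : label (Λ.li σ (vtx 2)) = QSY.hh Λ σ (0 : Fin 3).succAbove +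
      label (Λ.li (σ.comp (smap (0 : Fin 3).succAbove)) (vtx 1)) := h
    rw [b1] at h'
    rw [l0, sub_zero] at d2
    have h5 : label (Λ.li (σ.comp (smap (0 : Fin 3).succAbove)) (vtx 1)) =
        label (Λ.li σ (vtx 2)) - (label (τ (vtx 1)) - label (τ (vtx 0))) := by
      rw [h']; abel
    rw [h5, ← d2]
    abel
  rw [b1, b2]
  unfold omegaVal
  refine Finset.sum_congr rfl fun i _ => Finset.sum_congr rfl fun j _ => ?_
  split_ifs
  · rw [mul_comm]
  · rfl

end TC
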