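import Pool.Agent.TC.SpnStmts

/-!
# Block SPN: rules for signs
-/

set_option autoImplicit false

noncomputable section

namespace TC

namespace SGN

theorem sgn_self (g : Gs) : sgn g g = 0 := by simp [sgn]

theorem sgn_of_ne {g h : Gs} (e : g ≠ h) : sgn g h = 1 := by simp [sgn, e]

end SGN

open SGN in
/-- Rules for signs. -/
theorem spn_sgn (h1 : SPN_KER) : SPN_SGN := by
  obtain ⟨-, hne, hsq, -, hker⟩ := h1
  have hne' : ∀ g : Gs, g ≠ mneg * g := by
    intro g e
    apply hne
    exact mul_right_cancel (e.symm.trans (one_mul g).symm)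
  refine ⟨sgn_self, ?_, ?_, ?_, ?_⟩
  · intro g h
    by_cases e : g = h
    · rw [e]
    · rw [sgn_of_ne e, sgn_of_ne (Ne.symm e)]
  · intro g h k e1 e2
    rcases hker g h e1 with rfl | rfl
    · rw [sgn_self, zero_add]
    · rcases hker _ k e2 with rfl | rfl
      · rw [sgn_self, add_zero]
      · rw [← mul_assoc, hsq, one_mul, sgn_self, sgn_of_ne (hne' g), sgn_of_ne (hne' g).symm]
        decide
  · intro a g h
    unfold sgn
    simp
  · intro a g h
    unfold sgn
    simp

end TC
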