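import Pool.Agent.TC.SpnStmts

/-!
# SIG: the sign of a composition can be computed at every point; the cocycle identity
-/

set_option autoImplicit false

open scoped RealInnerProductSpace Matrix Topology

noncomputable section

namespace TC

namespace SIG

variable {X : Type} [TopologicalSpace X] {f : C(X, BSO 7)}

theorem smap_smap {l m k : ℕ} (η : Fin (m + 1) → Fin (k + 1)) (θ : Fin (l + 1) → Fin (m + 1))
    (t : Simp l) : smap η (smap θ t) = smap (η ∘ θ) t :=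
  congrArg (fun F : C(Simp l, Simp k) => F t) (smap_comp η θ)

theorem pg_eq (h1 : SPN_DIF) (𝓛 : LiftSys f) {l m k : ℕ} (σ : C(Simp k, X))
    (η : Fin (m + 1) → Fin (k + 1)) (θ : Fin (l + 1) → Fin (m + 1)) (t : Simp l) :
    pG (𝓛.lft (σ.comp (smap η)) θ t * 𝓛.lft σ η (smap θ t)) = pG (𝓛.lft σ (η ∘ θ) t) := by
  obtain ⟨-, -, h13, -⟩ := h1
  apply smat_inj
  rw [map_mul, smat_mul, 𝓛.lft_p, 𝓛.lft_p, 𝓛.lft_p, smap_smap, comp_smap]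
  apply h13
  · rw [𝓛.ov, 𝓛.ov]
    show f (σ (smap (η ∘ θ) t)) = f (σ (smap η (smap θ t)))
    rw [smap_smap]
  · rw [𝓛.ov, 𝓛.ov]
    show f (σ (smap η (smap θ t))) = f (σ (smap (η ∘ θ) t))
    rw [smap_smap]

theorem part1 (h1 : SPN_DIF) (h3 : SPN_LIFTG) (𝓛 : LiftSys f) {l m k : ℕ} (σ : C(Simp k, X))
    (η : Fin (m + 1) → Fin (k + 1)) (θ : Fin (l + 1) → Fin (m + 1)) (t : Simp l) :
    sgn (𝓛.lft (σ.comp (smap η)) θ t * 𝓛.lft σ η (smap θ t)) (𝓛.lft σ (η ∘ θ) t) =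
      𝓛.sig σ η θ := by
  obtain ⟨-, h32⟩ := h3
  exact h32 (𝓛.lft (σ.comp (smap η)) θ * (𝓛.lft σ η).comp (smap θ)) (𝓛.lft σ (η ∘ θ))
    (fun t => pg_eq h1 𝓛 σ η θ t) t (vtx 0)

end SIG

open SIG in
/-- The sign of a composition can be computed at every point, and the cocycle identity. -/
theorem spn_sig (h1 : SPN_DIF) (h2 : SPN_SGN) (h3 : SPN_LIFTG) : SPN_SIG := by
  intro X _ f 𝓛
  refine ⟨fun σ η θ t => part1 h1 h3 𝓛 σ η θ t, ?_⟩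
  intro a l m k σ η θ ξ
  obtain ⟨-, -, htr, hl, hr⟩ := h2
  obtain ⟨t, ht⟩ : ∃ t : Simp a, t = vtx 0 := ⟨_, rfl⟩
  -- the four signs at the point `t`
  have s1 := part1 h1 h3 𝓛 (σ.comp (smap η)) θ ξ t
  have s2 := part1 h1 h3 𝓛 σ η (θ ∘ ξ) t
  have s3 := part1 h1 h3 𝓛 σ (η ∘ θ) ξ t
  have s4 := part1 h1 h3 𝓛 σ η θ (smap ξ t)
  have g1 := pg_eq h1 𝓛 (σ.comp (smap η)) θ ξ t
  have g2 := pg_eq h1 𝓛 σ η (θ ∘ ξ) t
  have g3 := pg_eq h1 𝓛 σ (η ∘ θ) ξ t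
  have g4 := pg_eq h1 𝓛 σ η θ (smap ξ t)
  rw [← comp_smap] at s3 g3
  rw [← smap_smap] at s2 g2
  set P := 𝓛.lft ((σ.comp (smap η)).comp (smap θ)) ξ t
  set Q := 𝓛.lft (σ.comp (smap η)) θ (smap ξ t)
  set R := 𝓛.lft σ η (smap θ (smap ξ t))
  have hass : η ∘ (θ ∘ ξ) = (η ∘ θ) ∘ ξ := rfl
  rw [hass] at s2 g2
  set L := 𝓛.lft σ ((η ∘ θ) ∘ ξ) t
  set Y := 𝓛.lft (σ.comp (smap η)) (θ ∘ ξ) t
  set Z := 𝓛.lft σ (η ∘ θ) (smap ξ t)
  have e1 : sgn (P * Q * R) (Y * R) = sgn (P * Q) Y := hr R (P * Q) Y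
  have e2 : sgn (P * (Q * R)) (P * Z) = sgn (Q * R) Z := hl P (Q * R) Z
  have a1 : sgn (P * Q * R) L = sgn (P * Q * R) (Y * R) + sgn (Y * R) L := by
    apply htr
    · rw [map_mul, g1, map_mul]
    · exact g2
  have a2 : sgn (P * (Q * R)) L = sgn (P * (Q * R)) (P * Z) + sgn (P * Z) L := by
    apply htr
    · rw [map_mul, g4, map_mul]
    · exact g3
  rw [e1, s1, s2] at a1
  rw [e2, s3, s4, ← mul_assoc] at a2
  rw [← a1, a2, add_comm]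

end TC
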