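import Pool.Agent.TC.SpnStmts

/-!
# Block SPN: module SPN_SL

Lifts to `Gs` of the diagonal sign matrices: products of gamma matrices.
-/

set_option autoImplicit false

open scoped RealInnerProductSpace Matrix Topology

noncomputable section

namespace TC.SL

abbrev M8 := Matrix (Fin 8) (Fin 8) ℝ

/-- The gamma matrices indexed by natural numbers. -/
def G (i : ℕ) : M8 := if h : i < 7 then gam ⟨i, h⟩ else 0

/-- The coefficients indexed by natural numbers. -/
def ex (a : Fin 7 → ZMod 2) (i : ℕ) : ZMod 2 := if h : i < 7 then a ⟨i, h⟩ else 0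

/-- A power of a gamma matrix. -/
def gp (i : ℕ) (x : ZMod 2) : M8 := if x = 0 then 1 else G i

/-- The product of the first `n` factors. -/
def gm (a : ℕ → ZMod 2) : ℕ → M8
  | 0 => 1
  | n + 1 => gm a n * gp n (a n)

theorem z2 (x : ZMod 2) : x = 0 ∨ x = 1 := by
  revert x; decide

theorem sg_one : sg 1 = -1 := by
  unfold sg
  rw [if_neg (by decide)]

theorem gp_zero (i : ℕ) : gp i 0 = 1 := by simp [gp]

theorem gp_one (i : ℕ) : gp i 1 = G i := by
  unfold gp
  rw [if_neg (by decide)]

theorem G_val (i : Fin 7) : G i = gam i := by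
  unfold G
  rw [dif_pos i.2]

theorem ex_val (a : Fin 7 → ZMod 2) (i : Fin 7) : ex a i = a i := by
  unfold ex
  rw [dif_pos i.2]

theorem ex_add (a b : Fin 7 → ZMod 2) (i : ℕ) : ex (a + b) i = ex a i + ex b i := by
  unfold ex
  by_cases h : i < 7
  · simp [h]
  · simp [h]

section

variable (h1 : SPN_GAM)

include h1

theorem G_sq (i : ℕ) (hi : i < 7) : G i * G i = -1 := by
  unfold G
  rw [dif_pos hi]
  exact h1.2.1 _

theorem G_anti (i j : ℕ) (hi : i < 7) (hj : j < 7) (hij : i ≠ j) : G i * G j = -(G j * G i) := by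
  unfold G
  rw [dif_pos hi, dif_pos hj]
  exact h1.2.2.1 _ _ (fun h => hij (by simpa using h))

theorem gp_G (i j : ℕ) (x : ZMod 2) (hi : i < 7) (hj : j < 7) (hij : i ≠ j) :
    gp i x * G j = sg x • (G j * gp i x) := by
  rcases z2 x with rfl | rfl
  · rw [gp_zero, sg_zero]; simp
  · rw [gp_one, sg_one, G_anti h1 i j hi hj hij]; simp

theorem gp_G_self (j : ℕ) (x : ZMod 2) : gp j x * G j = G j * gp j x := by
  rcases z2 x with rfl | rfl
  · rw [gp_zero]; simp
  · rw [gp_one]

theorem gp_gp (i : ℕ) (x y : ZMod 2) (hi : i < 7) :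
    gp i x * gp i y = sg (x * y) • gp i (x + y) := by
  rcases z2 x with rfl | rfl <;> rcases z2 y with rfl | rfl
  · simp [gp_zero, sg_zero]
  · simp [gp_zero, sg_zero]
  · simp [gp_zero, sg_zero]
  · have h2 : (1 : ZMod 2) + 1 = 0 := by decide
    rw [h2, gp_zero, gp_one, G_sq h1 i hi, mul_one, sg_one]
    simp

theorem gm_G (a : ℕ → ZMod 2) (n j : ℕ) (hnj : n ≤ j) (hj : j < 7) :
    gm a n * G j = sg (∑ i ∈ Finset.range n, a i) • (G j * gm a n) := by
  induction n with
  | zero => simp [gm, sg_zero]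
  | succ n ih =>
    rw [gm, mul_assoc, gp_G h1 n j _ (by omega) hj (by omega), mul_smul_comm, ← mul_assoc,
      ih (by omega), Finset.sum_range_succ, sg_add, smul_mul_assoc, smul_smul, mul_assoc,
      mul_comm (sg _)]

theorem gp_gm (a : ℕ → ZMod 2) (x : ZMod 2) (n j : ℕ) (hnj : n ≤ j) (hj : j < 7) :
    gp j x * gm a n = sg (x * ∑ i ∈ Finset.range n, a i) • (gm a n * gp j x) := by
  rcases z2 x with rfl | rfl
  · rw [gp_zero, zero_mul, sg_zero]; simp
  · rw [gp_one, one_mul, gm_G h1 a n j hnj hj, smul_smul, sg_mul_self, one_smul]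

/-- Conjugation of a gamma matrix. -/
theorem gm_G' (a : ℕ → ZMod 2) (j : ℕ) (hj : j < 7) (n : ℕ) (hn : n ≤ 7) (hjn : j < n) :
    gm a n * G j = sg (a j + ∑ i ∈ Finset.range n, a i) • (G j * gm a n) := by
  induction n with
  | zero => omega
  | succ n ih =>
    rcases Nat.lt_or_ge j n with h | h
    · rw [gm, mul_assoc, gp_G h1 n j _ (by omega) hj (by omega), mul_smul_comm, ← mul_assoc,
        ih (by omega) h, Finset.sum_range_succ, ← add_assoc, sg_add, smul_mul_assoc, smul_smul,
        mul_assoc, mul_comm (sg _)]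
      rw [sg_add, sg_add]
    · have hj' : j = n := by omega
      subst hj'
      rw [gm, mul_assoc, gp_G_self h1, ← mul_assoc, gm_G h1 a j j le_rfl hj, smul_mul_assoc,
        mul_assoc, Finset.sum_range_succ]
      congr 2
      have h2 : a j + a j = 0 := by rcases z2 (a j) with h | h <;> rw [h] <;> decide
      linear_combination -h2

theorem gm_mul (a b : ℕ → ZMod 2) (n : ℕ) (hn : n ≤ 7) :
    gm a n * gm b n =
      sg (∑ i ∈ Finset.range n, ∑ j ∈ Finset.range (i + 1), a i * b j) •
        gm (fun i => a i + b i) n := by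
  induction n with
  | zero => simp [gm, sg_zero]
  | succ n ih =>
    have e1 : gm a n * gp n (a n) * (gm b n * gp n (b n)) =
        gm a n * (gp n (a n) * gm b n) * gp n (b n) := by simp only [mul_assoc]
    have e3 : gm a n * (gp n (a n) * gm b n) * gp n (b n) =
        sg (a n * ∑ i ∈ Finset.range n, b i) •
          ((gm a n * gm b n) * (gp n (a n) * gp n (b n))) := by
      rw [gp_gm h1 b (a n) n n le_rfl (by omega)]
      simp only [mul_smul_comm, smul_mul_assoc, mul_assoc]
    rw [gm, gm, e1, e3, ih (by omega), gp_gp h1 n _ _ (by omega)]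
    simp only [mul_smul_comm, smul_mul_assoc, smul_smul]
    rw [Finset.sum_range_succ, Finset.sum_range_succ, gm]
    have e2 : ∑ x ∈ Finset.range n, a n * b x = a n * ∑ x ∈ Finset.range n, b x := by
      rw [Finset.mul_sum]
    rw [e2, sg_add, sg_add]
    congr 1
    ring

theorem gp_orth (i : ℕ) (x : ZMod 2) (hi : i < 7) : gp i x * (gp i x)ᵀ = 1 := by
  rcases z2 x with rfl | rfl
  · simp [gp_zero]
  · rw [gp_one]
    have h2 : (G i)ᵀ = -G i := by
      unfold G
      rw [dif_pos hi]
      exact h1.1 _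
    rw [h2, mul_neg, G_sq h1 i hi, neg_neg]

theorem gm_orth (a : ℕ → ZMod 2) (n : ℕ) (hn : n ≤ 7) : gm a n * (gm a n)ᵀ = 1 := by
  induction n with
  | zero => simp [gm]
  | succ n ih =>
    rw [gm, Matrix.transpose_mul]
    have e1 : gm a n * gp n (a n) * ((gp n (a n))ᵀ * (gm a n)ᵀ) =
        gm a n * (gp n (a n) * (gp n (a n))ᵀ) * (gm a n)ᵀ := by simp only [mul_assoc]
    rw [e1, gp_orth h1 n _ (by omega), mul_one, ih (by omega)]

end

theorem sum_ex (a : Fin 7 → ZMod 2) : ∑ i ∈ Finset.range 7, ex a i = ∑ i, a i := by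
  rw [← Fin.sum_univ_eq_sum_range (fun i => ex a i) 7]
  exact Finset.sum_congr rfl fun i _ => ex_val a i

theorem sg_prod (a : Fin 7 → ZMod 2) : ∏ i, sg (a i) = sg (∑ i, a i) := by
  have : ∀ s : Finset (Fin 7), ∏ i ∈ s, sg (a i) = sg (∑ i ∈ s, a i) := by
    intro s
    induction s using Finset.induction_on with
    | empty => simp [sg_zero]
    | insert i s hi ih => rw [Finset.prod_insert hi, Finset.sum_insert hi, sg_add, ih]
  exact this _

/-- The diagonal matrix. -/
def dg (a : Fin 7 → ZMod 2) (ha : ∑ i, a i = 0) : SO7 :=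
  SO7of (Matrix.diagonal fun i => sg (a i))
    (by
      rw [Matrix.diagonal_transpose, Matrix.diagonal_mul_diagonal]
      simp [sg_mul_self])
    (by rw [Matrix.det_diagonal, sg_prod, ha, sg_zero])

theorem smat_dg (a : Fin 7 → ZMod 2) (ha : ∑ i, a i = 0) :
    smat (dg a ha) = Matrix.diagonal fun i => sg (a i) := rfl

theorem twist_dg (a : Fin 7 → ZMod 2) (ha : ∑ i, a i = 0) (j : Fin 7) :
    twist (dg a ha) j = sg (a j) • gam j := by
  unfold twist
  rw [smat_dg, Finset.sum_eq_single j]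
  · simp
  · intro i _ hij
    rw [Matrix.diagonal_apply_ne _ hij, zero_smul]
  · intro h
    exact absurd (Finset.mem_univ j) h

/-- The lift. -/
def slm (h1 : SPN_GAM) (a : Fin 7 → ZMod 2) (ha : ∑ i, a i = 0) : Gs :=
  ⟨(dg a ha, ⟨gm (ex a) 7, (Matrix.mem_orthogonalGroup_iff (Fin 8) ℝ).mpr
      (gm_orth h1 (ex a) 7 le_rfl)⟩), by
    intro j
    show gm (ex a) 7 * gam j = twist (dg a ha) j * gm (ex a) 7
    rw [twist_dg, ← G_val j, gm_G' h1 (ex a) j j.2 7 le_rfl j.2, sum_ex, ha, add_zero, ex_val,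
      smul_mul_assoc]⟩

open Classical in
/-- The system of lifts. -/
def sl (h1 : SPN_GAM) (a : Fin 7 → ZMod 2) : Gs :=
  if ha : ∑ i, a i = 0 then slm h1 a ha else 1

theorem gm_zero (n : ℕ) : gm (ex 0) n = 1 := by
  induction n with
  | zero => rfl
  | succ n ih =>
    have h : ex 0 n = 0 := by
      unfold ex
      split_ifs <;> rfl
    rw [gm, ih, h, gp_zero, one_mul]

theorem Gs_ext {g h : Gs} (h2 : smat (pG g) = smat (pG h)) (h3 : spn g = spn h) : g = h := by
  apply Subtype.ext
  apply Prod.ext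
  · exact smat_inj h2
  · exact Subtype.ext h3

theorem smat_slm (h1 : SPN_GAM) (a : Fin 7 → ZMod 2) (ha : ∑ i, a i = 0) :
    smat (pG (slm h1 a ha)) = Matrix.diagonal fun i => sg (a i) := rfl

theorem spn_slm (h1 : SPN_GAM) (a : Fin 7 → ZMod 2) (ha : ∑ i, a i = 0) :
    spn (slm h1 a ha) = gm (ex a) 7 := rfl

theorem sum_conv (a b : Fin 7 → ZMod 2) :
    (∑ i ∈ Finset.range 7, ∑ j ∈ Finset.range (i + 1), ex a i * ex b j) =
      ∑ i : Fin 7, ∑ j : Fin 7, if j ≤ i then a i * b j else 0 := by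
  rw [← Fin.sum_univ_eq_sum_range
    (fun i => ∑ j ∈ Finset.range (i + 1), ex a i * ex b j) 7]
  refine Finset.sum_congr rfl fun i _ => ?_
  have e1 : ∀ j : Fin 7, (if j ≤ i then a i * b j else 0) =
      (fun k : ℕ => if k ≤ (i : ℕ) then ex a i * ex b k else 0) (j : ℕ) := by
    intro j
    simp only [ex_val, Fin.le_def]
  rw [Finset.sum_congr rfl (fun j _ => e1 j), Fin.sum_univ_eq_sum_range
    (fun k : ℕ => if k ≤ (i : ℕ) then ex a i * ex b k else 0) 7]
  rw [← Finset.sum_filter]
  refine Finset.sum_congr ?_ fun _ _ => rfl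
  ext k
  simp only [Finset.mem_range, Finset.mem_filter]
  have := i.2
  omega

end TC.SL

namespace TC

open SL

theorem spn_sl (h1 : SPN_GAM) : SPN_SL := by
  classical
  refine ⟨sl h1, ?_, ?_, ?_⟩
  · have h0 : ∑ i : Fin 7, (0 : Fin 7 → ZMod 2) i = 0 := by simp
    unfold sl
    rw [dif_pos h0]
    apply Gs_ext
    · rw [smat_slm, map_one, smat_one]
      simp [sg_zero]
    · rw [spn_slm, gm_zero]
      rfl
  · intro a ha
    unfold sl
    rw [dif_pos ha, smat_slm]
  · intro a b ha hb
    have hab : ∑ i : Fin 7, (a + b) i = 0 := by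
      simp only [Pi.add_apply, Finset.sum_add_distrib, ha, hb, add_zero]
    unfold sl
    rw [dif_pos ha, dif_pos hb, dif_pos hab, ← sum_conv]
    set c : ZMod 2 := ∑ i ∈ Finset.range 7, ∑ j ∈ Finset.range (i + 1), ex a i * ex b j with hc
    have hmul : spn (slm h1 a ha * slm h1 b hb) = sg c • spn (slm h1 (a + b) hab) := by
      have e1 : spn (slm h1 a ha * slm h1 b hb) = spn (slm h1 a ha) * spn (slm h1 b hb) := rfl
      rw [e1, spn_slm, spn_slm, spn_slm, gm_mul h1 _ _ 7 le_rfl]
      congr 2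
      funext i
      exact (ex_add a b i).symm
    have hp : smat (pG (slm h1 a ha * slm h1 b hb)) = smat (pG (slm h1 (a + b) hab)) := by
      rw [map_mul, smat_mul, smat_slm, smat_slm, smat_slm, Matrix.diagonal_mul_diagonal]
      congr 1
      funext i
      rw [Pi.add_apply, sg_add]
    rcases z2 c with h | h
    · rw [h, sg_zero, one_smul] at hmul
      rw [h]
      unfold sgn
      rw [if_pos (Gs_ext hp hmul)]
    · rw [h, sg_one] at hmul
      rw [h]
      unfold sgn
      rw [if_neg]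
      intro heq
      rw [heq] at hmul
      have h3 : spn (slm h1 (a + b) hab) = 0 := by
        have h4 : (2 : ℝ) • spn (slm h1 (a + b) hab) = 0 := by
          rw [two_smul]
          nth_rewrite 1 [hmul]
          simp
        exact (smul_eq_zero.mp h4).resolve_left (by norm_num)
      have h5 := gm_orth h1 (ex (a + b)) 7 le_rfl
      rw [spn_slm] at h3
      rw [h3, zero_mul] at h5
      have h6 := congrFun (congrFun h5 0) 0
      simp at h6

end TC
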