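import Pool.Agent.TC.SpnStmts

/-!
# SPN_STEP: the projection of an orthonormal frame to a nearby oriented subspace
-/

set_option autoImplicit false

open scoped RealInnerProductSpace Matrix

noncomputable section

namespace TC

namespace STEP

/-- An invertible combination of linearly independent vectors is linearly independent. -/
theorem li_comb {n : ℕ} {w : Fin n → L2} (hw : LinearIndependent ℝ w)
    (A : Matrix (Fin n) (Fin n) ℝ) (hA : A.det ≠ 0) :
    LinearIndependent ℝ (fun i => ∑ k, A k i • w k) := by
  rw [Fintype.linearIndependent_iff] at hw ⊢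
  intro c hc
  have h1 : ∑ k, (A.mulVec c) k • w k = 0 := by
    rw [← hc]
    simp only [Matrix.mulVec, dotProduct, Finset.sum_smul, Finset.smul_sum, smul_smul]
    rw [Finset.sum_comm]
    exact Finset.sum_congr rfl fun i _ => Finset.sum_congr rfl fun k _ => by rw [mul_comm]
  have h2 : A.mulVec c = 0 := funext fun k => hw _ h1 k
  have h3 : c = 0 := Matrix.eq_zero_of_mulVec_eq_zero hA h2
  intro i
  rw [h3]
  rfl

end STEP

theorem spn_step : SPN_STEP := by
  intro n v w h
  have hA : 0 < ((dif v w)ᵀ).det := by rwa [Matrix.det_transpose]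
  have he : (fun i => ∑ k, ⟪w.1 k, v.1 i⟫ • w.1 k) =
      fun i => ∑ k, (dif v w)ᵀ k i • w.1 k := by
    funext i
    refine Finset.sum_congr rfl fun k _ => ?_
    rw [Matrix.transpose_apply, dif, real_inner_comm]
  have hli : LinearIndependent ℝ (fun i => ∑ k, ⟪w.1 k, v.1 i⟫ • w.1 k) := by
    rw [he]
    exact STEP.li_comb w.2.linearIndependent _ hA.ne'
  refine ⟨hli, ?_⟩
  refine (Quotient.sound (s := ⟨frameRel n, frameRel_equiv n⟩) ?_).symm
  exact ⟨(dif v w)ᵀ, hA, fun j => congrFun he j⟩

end TC
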