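import Pool.Agent.TC.SpnStmts

/-!
# The double cover `Gs → SO(7)` is surjective (Cartan-Dieudonné)
-/

set_option autoImplicit false

open scoped RealInnerProductSpace Matrix

noncomputable section

namespace TC

namespace SURJ

/-- Euclidean space of dimension 7. -/
abbrev E7 := EuclideanSpace ℝ (Fin 7)

/-- Clifford multiplication by a vector. -/
def cl (x : E7) : Matrix (Fin 8) (Fin 8) ℝ := ∑ i, x i • gam i

theorem cl_add (x y : E7) : cl (x + y) = cl x + cl y := by
  simp [cl, add_smul, Finset.sum_add_distrib]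

theorem cl_smul (a : ℝ) (x : E7) : cl (a • x) = a • cl x := by
  simp [cl, Finset.smul_sum, smul_smul]

theorem cl_sub (x y : E7) : cl (x - y) = cl x - cl y := by
  simp [cl, sub_smul, Finset.sum_sub_distrib]

theorem cl_single (j : Fin 7) : cl (EuclideanSpace.single j 1) = gam j := by
  simp [cl, ite_smul]

theorem cl_transpose (h : ∀ i, (gam i)ᵀ = -gam i) (x : E7) : (cl x)ᵀ = -cl x := by
  simp [cl, Matrix.transpose_sum, h]

theorem cl_mul (h2 : ∀ i, gam i * gam i = -1)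
    (h3 : ∀ i j, i ≠ j → gam i * gam j = -(gam j * gam i)) (x y : E7) :
    cl x * cl y + cl y * cl x = (-2 * ⟪x, y⟫) • (1 : Matrix (Fin 8) (Fin 8) ℝ) := by
  have e1 : cl x * cl y = ∑ i, ∑ j, (x i * y j) • (gam i * gam j) := by
    simp only [cl, Finset.sum_mul, Finset.mul_sum, smul_mul_assoc, mul_smul_comm, smul_smul,
      Finset.smul_sum]
    rw [Finset.sum_comm]
    refine Finset.sum_congr rfl fun i _ => Finset.sum_congr rfl fun j _ => ?_
    rw [mul_comm]
  have e2 : cl y * cl x = ∑ i, ∑ j, (x i * y j) • (gam j * gam i) := by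
    simp only [cl, Finset.sum_mul, Finset.mul_sum, smul_mul_assoc, mul_smul_comm, smul_smul,
      Finset.smul_sum]
  rw [e1, e2, ← Finset.sum_add_distrib]
  have e3 : ∀ i : Fin 7, (∑ j, (x i * y j) • (gam i * gam j)) + ∑ j, (x i * y j) • (gam j * gam i)
      = (-2 * (x i * y i)) • (1 : Matrix (Fin 8) (Fin 8) ℝ) := by
    intro i
    rw [← Finset.sum_add_distrib, Finset.sum_eq_single i]
    · rw [h2 i, mul_smul]
      module
    · intro j _ hj
      rw [h3 i j (Ne.symm hj)]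
      simp
    · simp
  rw [Finset.sum_congr rfl fun i _ => e3 i, ← Finset.sum_smul, ← Finset.mul_sum]
  congr 2
  simp [PiLp.inner_apply, mul_comm]

/-- The property which is proved for all linear isometries. -/
def Good (φ : E7 ≃ₗᵢ[ℝ] E7) : Prop :=
  ∃ S : Matrix (Fin 8) (Fin 8) ℝ, S * Sᵀ = 1 ∧
    ∀ x, S * cl x = LinearMap.det (φ.toLinearEquiv : E7 →ₗ[ℝ] E7) • (cl (φ x) * S)

theorem good_one : Good 1 := by
  refine ⟨1, by simp, fun x => ?_⟩
  have : LinearMap.det ((1 : E7 ≃ₗᵢ[ℝ] E7).toLinearEquiv : E7 →ₗ[ℝ] E7) = 1 :=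
    LinearMap.det_id
  rw [this]
  simp

theorem good_mul {φ ψ : E7 ≃ₗᵢ[ℝ] E7} (h : Good φ) (h' : Good ψ) : Good (φ * ψ) := by
  obtain ⟨S, hS, hS2⟩ := h
  obtain ⟨T, hT, hT2⟩ := h'
  refine ⟨S * T, ?_, fun x => ?_⟩
  · rw [Matrix.transpose_mul, mul_assoc, ← mul_assoc T, hT, one_mul, hS]
  · have : LinearMap.det ((φ * ψ : E7 ≃ₗᵢ[ℝ] E7).toLinearEquiv : E7 →ₗ[ℝ] E7) =
        LinearMap.det (φ.toLinearEquiv : E7 →ₗ[ℝ] E7) *
          LinearMap.det (ψ.toLinearEquiv : E7 →ₗ[ℝ] E7) := by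
      rw [← LinearMap.det_comp]
      rfl
    rw [this, mul_assoc, hT2, mul_smul_comm, ← mul_assoc, hS2]
    rw [smul_mul_assoc, smul_smul, mul_comm, mul_assoc]
    rfl

theorem good_refl (h1 : ∀ i, (gam i)ᵀ = -gam i) (h2 : ∀ i, gam i * gam i = -1)
    (h3 : ∀ i j, i ≠ j → gam i * gam j = -(gam j * gam i)) (v : E7) :
    Good (Submodule.reflection (ℝ ∙ v)ᗮ) := by
  by_cases hv : v = 0
  · subst hv
    have : Submodule.reflection (ℝ ∙ (0 : E7))ᗮ = 1 := by
      ext1 x
      refine Submodule.reflection_mem_subspace_eq_self ?_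
      simp
    rw [this]
    exact good_one
  · have hn : ‖v‖ ≠ 0 := norm_ne_zero_iff.mpr hv
    set u : E7 := (‖v‖⁻¹ : ℝ) • v with hu
    have hun : ‖u‖ = 1 := by
      rw [hu, norm_smul, norm_inv, norm_norm, inv_mul_cancel₀ hn]
    have huu : ⟪u, u⟫ = (1 : ℝ) := by
      rw [real_inner_self_eq_norm_sq, hun]; norm_num
    have hsq : cl u * cl u = -1 := by
      have := cl_mul h2 h3 u u
      rw [huu] at this
      have h4 : (2 : ℝ) • (cl u * cl u) = (2 : ℝ) • (-1 : Matrix (Fin 8) (Fin 8) ℝ) := by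
        rw [two_smul, this]
        module
      exact smul_right_injective _ (two_ne_zero) h4
    have hr : ∀ x, Submodule.reflection (ℝ ∙ v)ᗮ x = x - (2 * ⟪u, x⟫) • u := by
      intro x
      rw [Submodule.reflection_orthogonal_apply, Submodule.reflection_singleton_apply]
      have e1 : (2 * ⟪u, x⟫) • u = (2 * (⟪v, x⟫ / ‖v‖ ^ 2)) • v := by
        rw [hu, real_inner_smul_left, smul_smul]
        congr 1
        field_simp
      rw [e1, mul_smul]
      simp only [RCLike.ofReal_real_eq_id, id_eq]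
      module
    clear_value u
    have hdet : LinearMap.det
        ((Submodule.reflection (ℝ ∙ v)ᗮ).toLinearEquiv : E7 →ₗ[ℝ] E7) = -1 := by
      have := Submodule.det_reflection ((ℝ ∙ v)ᗮ)
      rw [Submodule.orthogonal_orthogonal, finrank_span_singleton hv, pow_one] at this
      exact this
    refine ⟨cl u, ?_, fun x => ?_⟩
    · rw [cl_transpose h1, mul_neg, hsq, neg_neg]
    · rw [hdet, hr, cl_sub, cl_smul, sub_mul, smul_mul_assoc, hsq]
      have := cl_mul h2 h3 u x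
      have h5 : cl u * cl x = (-2 * ⟪u, x⟫) • (1 : Matrix (Fin 8) (Fin 8) ℝ) - cl x * cl u := by
        rw [← this]; abel
      rw [h5]
      module

theorem good_all (h1 : ∀ i, (gam i)ᵀ = -gam i) (h2 : ∀ i, gam i * gam i = -1)
    (h3 : ∀ i j, i ≠ j → gam i * gam j = -(gam j * gam i)) (φ : E7 ≃ₗᵢ[ℝ] E7) : Good φ := by
  obtain ⟨l, -, rfl⟩ := φ.reflections_generate_dim
  induction l with
  | nil => exact good_one
  | cons v l ih =>
    rw [List.map_cons, List.prod_cons]
    exact good_mul (good_refl h1 h2 h3 v) ih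

end SURJ

open SURJ in
/-- The double cover is surjective. -/
theorem spn_surj (h1 : SPN_GAM) : SPN_SURJ := by
  obtain ⟨g1, g2, g3, -⟩ := h1
  intro A
  let L : E7 →ₗ[ℝ] E7 := Matrix.toEuclideanLin (smat A)
  have hL : ∀ x i, L x i = ∑ j, smat A i j * x j := by
    intro x i
    simp [L, Matrix.toEuclideanLin, Matrix.mulVec, dotProduct]
  have hin : ∀ x y : E7, ⟪L x, L y⟫ = ⟪x, y⟫ := by
    intro x y
    have h := smat_transpose_mul A
    have e : ∀ z : E7, L z = WithLp.toLp 2 ((smat A).mulVec z.ofLp) := fun z => rfl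
    rw [e, e, EuclideanSpace.inner_eq_star_dotProduct, EuclideanSpace.inner_eq_star_dotProduct]
    simp only [star_trivial]
    rw [Matrix.dotProduct_mulVec, Matrix.vecMul_mulVec, h, Matrix.vecMul_one]
  let φ : E7 ≃ₗᵢ[ℝ] E7 := (L.isometryOfInner hin).toLinearIsometryEquiv rfl
  have hφ : ∀ x, φ x = L x := fun x => rfl
  have hdet : LinearMap.det (φ.toLinearEquiv : E7 →ₗ[ℝ] E7) = 1 := by
    have : (φ.toLinearEquiv : E7 →ₗ[ℝ] E7) = L := by
      ext1 x; rfl
    rw [this]
    have e2 : L = (WithLp.linearEquiv 2 ℝ (Fin 7 → ℝ)).symm.toLinearMap ∘ₗ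
        Matrix.toLin' (smat A) ∘ₗ (WithLp.linearEquiv 2 ℝ (Fin 7 → ℝ)).toLinearMap := by
      ext1 x; rfl
    rw [e2]
    have e3 := LinearMap.det_conj (Matrix.toLin' (smat A))
      (WithLp.linearEquiv 2 ℝ (Fin 7 → ℝ)).symm
    rw [LinearEquiv.symm_symm] at e3
    rw [e3, LinearMap.det_toLin', smat_det]
  obtain ⟨S, hS, hS2⟩ := good_all g1 g2 g3 φ
  refine ⟨⟨(A, ⟨S, (Matrix.mem_orthogonalGroup_iff (Fin 8) ℝ).mpr hS⟩), ?_⟩, rfl⟩
  intro j
  show S * gam j = twist A j * S
  have := hS2 (EuclideanSpace.single j 1)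
  rw [cl_single, hdet, one_smul, hφ] at this
  rw [this]
  congr 1
  unfold cl twist
  refine Finset.sum_congr rfl fun i _ => ?_
  rw [hL]
  simp

end TC
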