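import Pool.Agent.TC.SpnStmts

/-!
# Block SPN: the universal lifting system
-/

set_option autoImplicit false

open scoped RealInnerProductSpace Matrix Topology

noncomputable section

namespace TC

namespace SYS

/-- The chosen lift of a singular simplex of `BSO 7` to the orthonormal frames. -/
def fr (h3 : SPN_LIFT) {k : ℕ} (σ : C(Simp k, BSO 7)) : C(Simp k, OFr 7) :=
  (h3 σ).choose

theorem ocls_fr (h3 : SPN_LIFT) {k : ℕ} (σ : C(Simp k, BSO 7)) (t : Simp k) :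
    ocls (fr h3 σ t) = σ t := (h3 σ).choose_spec t

theorem ocls_eq (h3 : SPN_LIFT) {m k : ℕ} (σ : C(Simp k, BSO 7))
    (θ : Fin (m + 1) → Fin (k + 1)) (t : Simp m) :
    ocls (fr h3 (σ.comp (smap θ)) t) = ocls (fr h3 σ (smap θ t)) := by
  rw [ocls_fr, ocls_fr]
  rfl

/-- The difference of the chosen frames as a map to `SO(7)`. -/
def dmap (h1 : SPN_DIF) (h3 : SPN_LIFT) {m k : ℕ} (σ : C(Simp k, BSO 7))
    (θ : Fin (m + 1) → Fin (k + 1)) : C(Simp m, SO7) where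
  toFun t := SO7of (dif (fr h3 (σ.comp (smap θ)) t) (fr h3 σ (smap θ t)))
    (h1.1 _ _ (ocls_eq h3 σ θ t)).1 (h1.1 _ _ (ocls_eq h3 σ θ t)).2.1
  continuous_toFun := by
    unfold SO7of
    refine Continuous.subtype_mk (Continuous.subtype_mk ?_ _) _
    exact h1.2.2.2.comp ((fr h3 (σ.comp (smap θ))).continuous.prodMk
      ((fr h3 σ).continuous.comp (smap θ).continuous))

theorem smat_dmap (h1 : SPN_DIF) (h3 : SPN_LIFT) {m k : ℕ} (σ : C(Simp k, BSO 7))
    (θ : Fin (m + 1) → Fin (k + 1)) (t : Simp m) :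
    smat (dmap h1 h3 σ θ t) = dif (fr h3 (σ.comp (smap θ)) t) (fr h3 σ (smap θ t)) := rfl

end SYS

theorem spn_sys (h1 : SPN_DIF) (h2 : SPN_LIFTG) (h3 : SPN_LIFT) : SPN_SYS := by
  refine ⟨{
    fr := fun σ => SYS.fr h3 σ
    ov := fun σ t => SYS.ocls_fr h3 σ t
    lft := fun σ θ => (h2.1 (SYS.dmap h1 h3 σ θ)).choose
    lft_p := fun σ θ t => ?_ }⟩
  rw [(h2.1 (SYS.dmap h1 h3 σ θ)).choose_spec t]
  rfl

end TC
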