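import Pool.Agent.TC.MfdAll
import Pool.Agent.TC.Asp.Main
import Pool.Agent.TC.Asp.Game
import Pool.Agent.TC.Asp.Ctr
import Pool.Agent.TC.Asp.Cov
import Pool.Agent.TC.Asp.Pol
import Pool.Agent.TC.Asp.Cmp
import Pool.Agent.TC.Asp.Tab
import Pool.Agent.TC.Asp.Fun
import Pool.Agent.TC.Cup
import Pool.Agent.TC.SpnCmp
import Pool.Agent.TC.SpnCmpa
import Pool.Agent.TC.SpnCoc
import Pool.Agent.TC.SpnCov
import Pool.Agent.TC.SpnDet
import Pool.Agent.TC.SpnDif
import Pool.Agent.TC.SpnFin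
import Pool.Agent.TC.SpnGam
import Pool.Agent.TC.SpnGs
import Pool.Agent.TC.SpnKer
import Pool.Agent.TC.SpnLift
import Pool.Agent.TC.SpnLiftG
import Pool.Agent.TC.SpnLz
import Pool.Agent.TC.SpnMain
import Pool.Agent.TC.SpnOpn
import Pool.Agent.TC.SpnPrj
import Pool.Agent.TC.SpnQsy
import Pool.Agent.TC.SpnSgn
import Pool.Agent.TC.SpnSig
import Pool.Agent.TC.SpnSl
import Pool.Agent.TC.SpnStep
import Pool.Agent.TC.SpnSurj
import Pool.Agent.TC.SpnSys
import Pool.Agent.TC.Cyc.All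
import Pool.Agent.TC.Cyc.M_BIG
import Pool.Agent.TC.Fin.M_CLS
import Pool.Agent.TC.Fin.M_FIN
import Pool.Agent.TC.Fin.M_FRM
import Pool.Agent.TC.Fin.M_NON
import Pool.Agent.TC.Fin.M_NVF
import Pool.Agent.TC.Fin.M_OPN
import Pool.Agent.TC.Fin.M_ORI

/-!
# The assembly of all blocks

`goal : Goal`.
-/

set_option autoImplicit false

namespace TC

/-- Block ASP: the manifold is aspherical and connected. -/
theorem asp_all : ASP_main :=
  Asp.MAIN Asp.GAME Asp.CTR Asp.COV Asp.POL Asp.CMP Asp.TAB Asp.FUN top_main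

/-- The manifold is a quotient of the real moment angle manifold by a covering action. -/
theorem qM_all : IsAddQuotientCoveringMap qM H5 := top_main.2.2

/-- Block SPN: the universal class. -/
theorem spn_all : C_MAIN := by
  have hGS : SPN_GS := spn_gs
  have hKER : SPN_KER := spn_ker spn_gam
  have hSURJ : SPN_SURJ := spn_surj spn_gam
  have hCOV : SPN_COV := spn_cov hKER hSURJ
  have hSGN : SPN_SGN := spn_sgn hKER
  have hLG : SPN_LIFTG := spn_liftg hKER hSURJ hCOV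
  have hSL : SPN_SL := spn_sl spn_gam
  have hDIF : SPN_DIF := spn_dif
  have hOPN : SPN_OPN := spn_opn hGS hDIF
  have hPRJ : SPN_PRJ := spn_prj hOPN hDIF
  have hDET : SPN_DET := spn_det hOPN hDIF
  have hLIFT : SPN_LIFT := spn_lift hGS hPRJ hDET spn_step
  have hSYS : SPN_SYS := spn_sys hDIF hLG hLIFT
  have hSIG : SPN_SIG := spn_sig hDIF hSGN hLG
  have hCOC : SPN_COC := spn_coc hSIG
  have hCMP : SPN_CMP := spn_cmp (spn_cmpa hDIF hSGN hLG)
  have hQSY : SPN_QSY := spn_qsy hDIF hGS hSL spn_lz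
  exact spn_fin (spn_main hSYS hCOC hCMP hQSY) spn_lz

/-- The final theorem. -/
theorem goal : Goal := by
  obtain ⟨hQE, hEV⟩ := eval_of_big BIG qM_all
  exact FFIN (FORI FOPN) FFRA (FCLS FOPN) FFRM FNON mfd_all top_main asp_all hQE spn_all
    stmt_CUPA stmt_CUPB hEV

end TC
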