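import Pool.Agent.TC.Defs

set_option autoImplicit false

open scoped Manifold ContDiff Topology

namespace TC

/-- There are a closed connected smooth oriented aspherical manifold `M` of dimension `7`, a smooth
circle action on `M` with half turn `g` (so `g ∈ Diff_0(M)`), and a class
`c ∈ H^9(BSO(7); ZMod 2)` such that `κ_c = π_!(c(T_v E)) ∈ H^2(ℝP²; ZMod 2)` is not zero for the flat
`M`-bundle `π : E = M ×_{ℤ/2} S² → ℝP²` with holonomy `g`. -/
def Goal : Prop :=
  ∃ (M : Type) (_ : TopologicalSpace M) (_ : ChartedSpace (EuclideanSpace ℝ (Fin 7)) M)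
    (_ : IsManifold (𝓡 7) ∞ M) (_ : T2Space M) (_ : CompactSpace M) (_ : ConnectedSpace M)
    (o : Orient M 7) (ρ : CircleAct M 7), Aspherical M ∧
    ∃ (c : HH (BSO 7) 9) (T : FibreTransfer 6 (Tot.proj ρ.half ρ.half_invol)),
      (∃ f, IsClassifying o ρ f) ∧
      ∀ f, IsClassifying o ρ f → T.integ (j := 2) (HH.map f c) ≠ 0

end TC
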