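import Pool.Agent.TC.Conc
import Pool.Agent.TC.Goal

/-!
# Interfaces between the blocks: edge labels, the cochain `bigC`, statements C_MAIN, EVAL_main, ...
-/

set_option autoImplicit false

open scoped Manifold ContDiff Topology

noncomputable section

namespace TC

section cover

variable {Z E : Type} [TopologicalSpace Z] [TopologicalSpace E]

/-- An equivariant labelling (a function, not continuous) of the points of `Z` by elements of the
group `A` acting on `Z`. -/
def IsLabel {A : Type} [AddCommGroup A] [AddAction A Z] (lab : Z → A) : Prop :=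
  ∀ (h : A) (z : Z), lab (h +ᵥ z) = h + lab z

open Classical in
/-- The label of a path in `E`: the difference of the labels of the end points of a lift. -/
def edgeLab {A : Type} [AddCommGroup A] (q : Z → E) (lab : Z → A) (τ : C(Simp 1, E)) : A :=
  if h : ∃ τ' : C(Simp 1, Z), ∀ t, q (τ' t) = τ t then
    lab (h.choose (vtx 1)) - lab (h.choose (vtx 0)) else 0

/-- The `1`-cocycle of a character. -/
def vch {A : Type} [AddCommGroup A] (q : Z → E) (lab : Z → A) (χ : A →+ ZMod 2) : Coch E 1 :=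
  fun τ => χ (edgeLab q lab τ)

end cover

section cochains

variable {X : Type} [TopologicalSpace X]

/-- The restriction of a singular simplex to the face with given vertices. -/
def res {m k : ℕ} (σ : C(Simp k, X)) (θ : Fin (m + 1) → Fin (k + 1)) : C(Simp m, X) :=
  σ.comp (smap θ)

/-- The Bockstein cochain of a `2`-cochain. -/
def bock (W : Coch X 2) : Coch X 3 := fun τ =>
  (((∑ i : Fin 4, (-1 : ℤ) ^ (i : ℕ) * ((W (τ.comp (face i))).val : ℤ)) / 2 : ℤ) : ZMod 2)

/-- The cochain `W ∪ W ∪ W ∪ Sq¹ W` of degree `9`. -/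
def bigC (W : Coch X 2) : Coch X 9 := fun σ =>
  W (res (m := 2) σ ![0, 1, 2]) * W (res (m := 2) σ ![2, 3, 4]) * W (res (m := 2) σ ![4, 5, 6]) *
    bock W (res (m := 3) σ ![6, 7, 8, 9])

theorem bigC_pull {Y : Type} [TopologicalSpace Y] (f : C(X, Y)) (W : Coch Y 2) :
    bigC (pull f W) = pull f (bigC W) := rfl

end cochains

/-- The cocycle `∑_{j ≤ i} v_{χ_j} ∪ v_{χ_i}`. -/
def omegaC {Z E : Type} [TopologicalSpace Z] [TopologicalSpace E] {A : Type} [AddCommGroup A]
    {n : ℕ} (q : Z → E) (lab : Z → A) (χ : Fin n → (A →+ ZMod 2)) : Coch E 2 := fun σ =>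
  ∑ i : Fin n, ∑ j : Fin n, if j ≤ i then
    vch q lab (χ j) (res (m := 1) σ ![0, 1]) * vch q lab (χ i) (res (m := 1) σ ![1, 2]) else 0

/-! ## Interfaces -/

/-- `bigC` of a cocycle is a cocycle. -/
def Stmt_CUPA : Prop := ∀ (X : Type) [TopologicalSpace X] (W : Coch X 2), cobd W = 0 →
  cobd (bigC W) = 0

/-- `bigC` of cohomologous cocycles are cohomologous. -/
def Stmt_CUPB : Prop := ∀ (X : Type) [TopologicalSpace X] (W : Coch X 2) (β : Coch X 1),
  cobd W = 0 → ∃ γ : Coch X 8, bigC (W + cobd β) = bigC W + cobd γ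

/-- Interface of the block SPN: the cocycle `W` on `BSO 7` representing `w₂`. -/
def C_MAIN : Prop := ∃ W : Coch (BSO 7) 2, cobd W = 0 ∧
  ∀ (r : ℕ) (Z E : Type) [TopologicalSpace Z] [TopologicalSpace E]
    [AddAction (Fin r → ZMod 2) Z] (q : Z → E)
    (_ : IsAddQuotientCoveringMap q (Fin r → ZMod 2)) (lab : Z → (Fin r → ZMod 2))
    (_ : IsLabel lab) (f : C(E, BSO 7)) (L : Z → Frames 7) (_ : Continuous L)
    (χ : Fin 7 → ((Fin r → ZMod 2) →+ ZMod 2)) (_ : ∀ h, ∑ i, χ i h = 0)
    (_ : ∀ (h : Fin r → ZMod 2) (z : Z) (i : Fin 7), (L (h +ᵥ z)).1 i = sg (χ i h) • (L z).1 i)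
    (_ : ∀ z, f (q z) = BSO.mk (L z)),
    ∃ β : Coch E 1, pull f W = omegaC q lab χ + cobd β

/-- The characters of the 7 lines on `H6`. -/
def chi7' : H6 →+ (Fin 7 → ZMod 2) where
  toFun h := ![0, h 1, h 0, h 4, h 4 + h 3, h 4 + h 2, h 4 + h 0 + h 1 + h 2 + h 3]
  map_zero' := by funext i; fin_cases i <;> simp
  map_add' a b := by funext i; fin_cases i <;> simp <;> ring

/-- The `i`-th character. -/
def chr (i : Fin 7) : H6 →+ ZMod 2 := (Pi.evalAddMonoidHom (fun _ => ZMod 2) i).comp chi7'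

/-- Interface of the block CYC: a fibre transfer, a cycle of the projective plane, and the value of
the characteristic number. -/
def EVAL_main : Prop :=
  ∃ (T : FibreTransfer 6 (Tot.proj (actM 1) actM_one_invol)) (zB : Chain RP2 2), bd zB = 0 ∧
    ∀ lab : ZZ → H6, IsLabel lab →
      pair (T.coch (j := 2) (bigC (omegaC qE lab chr))) zB = 1

end TC
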