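import Mathlib

/-!
# Iterated tangent bundles
-/

set_option autoImplicit false
set_option linter.unusedSectionVars false

open scoped Manifold ContDiff Topology

noncomputable section

namespace TC

/-! ## Iterated tangent bundles -/

/-- A smooth manifold, bundled with its model. -/
structure Mfd where
  E : Type
  [nE : NormedAddCommGroup E]
  [sE : NormedSpace ℝ E]
  H : Type
  [tH : TopologicalSpace H]
  I : ModelWithCorners ℝ E H
  X : Type
  [tX : TopologicalSpace X]
  [cX : ChartedSpace H X]
  [mX : IsManifold I ∞ X]

attribute [instance] Mfd.nE Mfd.sE Mfd.tH Mfd.tX Mfd.cX Mfd.mX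

/-- The tangent bundle of a smooth manifold, as a smooth manifold. -/
def Mfd.tan (A : Mfd) : Mfd where
  E := A.E × A.E
  H := ModelProd A.H A.E
  I := A.I.tangent
  X := TangentBundle A.I A.X

/-- The iterated tangent bundle `T^r A`. -/
def iterT : ℕ → Mfd → Mfd
  | 0, A => A
  | r + 1, A => iterT r A.tan

/-- The iterated tangent map `T^r f : T^r A → T^r A` of a map `f : A → A`. -/
def iterD : (r : ℕ) → (A : Mfd) → (A.X → A.X) → (iterT r A).X → (iterT r A).X
  | 0, _, f => f
  | r + 1, A, f => iterD r A.tan (tangentMap A.I A.I f)

theorem continuous_iterD (r : ℕ) (A : Mfd) (f : A.X → A.X) (hf : ContMDiff A.I A.I ∞ f) :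
    Continuous (iterD r A f) := by
  induction r generalizing A with
  | zero => exact hf.continuous
  | succ r ih =>
    exact ih A.tan _ (hf.contMDiff_tangentMap (by simp))

theorem iterD_id (r : ℕ) (A : Mfd) : iterD r A id = id := by
  induction r generalizing A with
  | zero => rfl
  | succ r ih =>
    have h : tangentMap A.I A.I (id : A.X → A.X) = id := tangentMap_id
    show iterD r A.tan (tangentMap A.I A.I id) = id
    rw [h]
    exact ih A.tan

theorem iterD_comp (r : ℕ) (A : Mfd) (f g : A.X → A.X) (hf : ContMDiff A.I A.I ∞ f)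
    (hg : ContMDiff A.I A.I ∞ g) : iterD r A (f ∘ g) = iterD r A f ∘ iterD r A g := by
  induction r generalizing A with
  | zero => rfl
  | succ r ih =>
    have h : tangentMap A.I A.I (f ∘ g) = tangentMap A.I A.I f ∘ tangentMap A.I A.I g :=
      tangentMap_comp (hf.mdifferentiable (by simp)) (hg.mdifferentiable (by simp))
    show iterD r A.tan (tangentMap A.I A.I (f ∘ g)) = _
    rw [h]
    exact ih A.tan _ _ (hf.contMDiff_tangentMap (by simp)) (hg.contMDiff_tangentMap (by simp))

theorem iterT_locallyCompact (r : ℕ) (A : Mfd) [FiniteDimensional ℝ A.E]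
    [LocallyCompactSpace A.H] : LocallyCompactSpace (iterT r A).X := by
  induction r generalizing A with
  | zero => exact ChartedSpace.locallyCompactSpace A.H A.X
  | succ r ih =>
    have : FiniteDimensional ℝ A.tan.E := inferInstanceAs (FiniteDimensional ℝ (A.E × A.E))
    have : ProperSpace A.E := FiniteDimensional.proper_real A.E
    have : LocallyCompactSpace A.tan.H := inferInstanceAs (LocallyCompactSpace (A.H × A.E))
    exact ih A.tan

end TC
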