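import Mathlib

/-!
# Milnor's classifying space
-/

set_option autoImplicit false
set_option linter.unusedSectionVars false

open scoped Manifold ContDiff Topology

noncomputable section

namespace TC

/-! ## Milnor's classifying space -/

section milnor

/-- Milnor's infinite join `EG = G * G * G * ...` of a group `G`: sequences `(t_i, g_i)` with
`t_i ≥ 0`, almost all `t_i = 0`, `∑ t_i = 1`, where `g_i` is forgotten (normalised to `1`) if
`t_i = 0`. -/
structure EJ (G : Type) [Group G] where
  t : ℕ →₀ ℝ
  g : ℕ → G
  nonneg : ∀ i, 0 ≤ t i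
  sum : (t.sum fun _ a => a) = 1
  norm : ∀ i, t i = 0 → g i = 1

variable (G : Type) [Group G]

/-- Milnor's topology: the coarsest topology for which all `t_i : EG → ℝ` and all
`g_i : {t_i > 0} → G` are continuous (and the sets `{t_i > 0}` are open). -/
instance [TopologicalSpace G] : TopologicalSpace (EJ G) :=
  (⨅ i : ℕ, TopologicalSpace.induced (fun x : EJ G => x.t i) inferInstance) ⊓
    TopologicalSpace.generateFrom
      {S | ∃ (i : ℕ) (U : Set G), IsOpen U ∧ S = {x : EJ G | 0 < x.t i ∧ x.g i ∈ U}}

variable {G}

open Classical in
/-- `G` acts freely on `EG` by left multiplication. -/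
instance : MulAction G (EJ G) where
  smul h x := ⟨x.t, fun i => if x.t i = 0 then 1 else h * x.g i, x.nonneg, x.sum,
    fun i hi => if_pos hi⟩
  one_smul x := by
    cases x with
    | mk t g nonneg sum norm =>
      show (⟨t, fun i => if t i = 0 then 1 else 1 * g i, _, _, _⟩ : EJ G) = ⟨t, g, _, _, _⟩
      congr 1
      funext i
      by_cases h : t i = 0
      · rw [if_pos h, norm i h]
      · rw [if_neg h, one_mul]
  mul_smul a b x := by
    show (⟨x.t, fun i => if x.t i = 0 then 1 else a * b * x.g i, _, _, _⟩ : EJ G) =
      ⟨x.t, fun i => if x.t i = 0 then 1 else a * (if x.t i = 0 then 1 else b * x.g i), _, _, _⟩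
    congr 1
    funext i
    by_cases h : x.t i = 0
    · rw [if_pos h, if_pos h]
    · rw [if_neg h, if_neg h, if_neg h, mul_assoc]

/-- Milnor's classifying space `BG = EG / G`. -/
def BG (G : Type) [Group G] : Type := Quotient (MulAction.orbitRel G (EJ G))

instance [TopologicalSpace G] : TopologicalSpace (BG G) :=
  inferInstanceAs (TopologicalSpace (Quotient (MulAction.orbitRel G (EJ G))))

/-- The projection `EG → BG`. -/
def BG.mk (x : EJ G) : BG G := Quotient.mk _ x

/-- The Borel construction `EG ×_G X` of a `G`-space `X`. -/
def Borel (G X : Type) [Group G] [MulAction G X] : Type :=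
  Quotient (MulAction.orbitRel G (EJ G × X))

instance (X : Type) [MulAction G X] [TopologicalSpace G] [TopologicalSpace X] :
    TopologicalSpace (Borel G X) :=
  inferInstanceAs (TopologicalSpace (Quotient (MulAction.orbitRel G (EJ G × X))))

variable {X : Type} [MulAction G X]

/-- The projection `EG × X → EG ×_G X`. -/
def Borel.mk (p : EJ G × X) : Borel G X := Quotient.mk _ p

/-- The bundle projection `EG ×_G X → BG` with fibre `X`. -/
def Borel.proj [TopologicalSpace G] [TopologicalSpace X] : C(Borel G X, BG G) where
  toFun := Quotient.map Prod.fst (by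
    rintro p q ⟨g, rfl⟩
    exact ⟨g, rfl⟩)
  continuous_toFun := continuous_fst.quotient_map' _

end milnor

end TC
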