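import Mathlib

/-!
# Regular level sets: charts and transition maps

`E`, `F` are finite dimensional real vector spaces, `L : E ≃ F × ℝ` is a fixed linear isomorphism,
`f : E → ℝ` a smooth function. An admissible datum `a : Ad f L` is a linear map `a.A : E → F`
with an open set on which `x ↦ (a.A x, f x)` is an orientation preserving (with respect to `L`)
diffeomorphism onto an open subset of `F × ℝ`. It gives the chart `x ↦ a.A x` of the level set.
-/

open scoped Manifold ContDiff Topology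
open Set

namespace TC.Lvl

variable {E F : Type*} [NormedAddCommGroup E] [NormedSpace ℝ E] [FiniteDimensional ℝ E]
  [NormedAddCommGroup F] [NormedSpace ℝ F] [FiniteDimensional ℝ F]

/-- The level set `f = 0`. -/
def Lv (f : E → ℝ) : Type _ := {x : E // f x = 0}

/-- A point of the level set. -/
def Lv.mk {f : E → ℝ} (x : E) (h : f x = 0) : Lv f := ⟨x, h⟩

instance instTopLv (f : E → ℝ) : TopologicalSpace (Lv f) := instTopologicalSpaceSubtype

/-- The derivative of `x ↦ (A x, f x)`, seen as an endomorphism of `E`. -/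
noncomputable def dph (f : E → ℝ) (L : E ≃L[ℝ] F × ℝ) (A : E →L[ℝ] F) (x : E) : E →L[ℝ] E :=
  (L.symm : F × ℝ →L[ℝ] E).comp (A.prod (fderiv ℝ f x))

/-- Admissible data. -/
structure Ad (f : E → ℝ) (L : E ≃L[ℝ] F × ℝ) where
  A : E →L[ℝ] F
  P : OpenPartialHomeomorph E (F × ℝ)
  hP : ∀ x ∈ P.source, P x = (A x, f x)
  pos : ∀ x ∈ P.source, 0 < (dph f L A x).det

variable {f : E → ℝ} {L : E ≃L[ℝ] F × ℝ}

/-- The derivative of `x ↦ (A x, f x)` as a linear isomorphism. -/
noncomputable def beq (f : E → ℝ) (L : E ≃L[ℝ] F × ℝ) (A : E →L[ℝ] F) (x : E)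
    (h : (dph f L A x).det ≠ 0) : E ≃L[ℝ] F × ℝ :=
  (ContinuousLinearMap.toContinuousLinearEquivOfDetNeZero (dph f L A x) h).trans L

lemma beq_coe (A : E →L[ℝ] F) (x : E) (h : (dph f L A x).det ≠ 0) :
    (beq f L A x h : E →L[ℝ] F × ℝ) = A.prod (fderiv ℝ f x) := by
  ext v
  · simp [beq, dph]
  · simp [beq, dph]

lemma hasFDerivAt_ph (hf : ContDiff ℝ ∞ f) (A : E →L[ℝ] F) (x : E)
    (h : (dph f L A x).det ≠ 0) :
    HasFDerivAt (fun x => (A x, f x)) (beq f L A x h : E →L[ℝ] F × ℝ) x := by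
  rw [beq_coe]
  exact A.hasFDerivAt.prodMk
    ((hf.differentiable (by simp)).differentiableAt.hasFDerivAt)

lemma contDiff_ph (hf : ContDiff ℝ ∞ f) (A : E →L[ℝ] F) :
    ContDiff ℝ ∞ (fun x => (A x, f x)) := A.contDiff.prodMk hf

lemma continuous_dph (hf : ContDiff ℝ ∞ f) (A : E →L[ℝ] F) :
    Continuous (fun x => (dph f L A x).det) := by
  have h1 : Continuous (fderiv ℝ f) := hf.continuous_fderiv (by simp)
  have h2 : Continuous (fun x => dph f L A x) := by
    unfold dph
    have h3 : Continuous (fun x => A.prod (fderiv ℝ f x)) := by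
      have : (fun x => A.prod (fderiv ℝ f x)) =
        fun x => (ContinuousLinearMap.prodₗᵢ ℝ (A, fderiv ℝ f x) : E →L[ℝ] F × ℝ) := rfl
      rw [this]
      exact (ContinuousLinearMap.prodₗᵢ ℝ).continuous.comp (continuous_const.prodMk h1)
    exact continuous_const.clm_comp h3
  exact ContinuousLinearMap.continuous_det.comp h2

/-- Existence of admissible data at a point, for a given linear map. -/
theorem exists_ad_of (hf : ContDiff ℝ ∞ f) (A : E →L[ℝ] F) (x : E)
    (h : 0 < (dph f L A x).det) : ∃ a : Ad f L, a.A = A ∧ x ∈ a.P.source := by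
  have hd := hasFDerivAt_ph (L := L) hf A x h.ne'
  have hc : ContDiffAt ℝ ∞ (fun x => (A x, f x)) x := (contDiff_ph hf A).contDiffAt
  let P0 : OpenPartialHomeomorph E (F × ℝ) := hc.toOpenPartialHomeomorph _ hd (by simp)
  have ho : IsOpen {x : E | 0 < (dph f L A x).det} :=
    isOpen_lt continuous_const (continuous_dph hf A)
  refine ⟨⟨A, P0.restrOpen _ ho, ?_, ?_⟩, rfl, ?_⟩
  · intro x _
    rfl
  · intro x hx
    rw [OpenPartialHomeomorph.restrOpen_source] at hx
    exact hx.2
  · rw [OpenPartialHomeomorph.restrOpen_source]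
    exact ⟨hc.mem_toOpenPartialHomeomorph_source hd (by simp), h⟩

/-- The rank one update carrying the functional `l0` to the functional `l`. -/
lemma exists_carry (l0 l : E →L[ℝ] ℝ) (u : E) (hu : l0 u = 1) (hu' : 0 < l u) :
    ∃ g : E →L[ℝ] E, l0.comp g = l ∧ 0 < g.det := by
  refine ⟨ContinuousLinearMap.id ℝ E + (l - l0).smulRight u, ?_, ?_⟩
  · ext v
    simp [hu]
  · have h1 : ((ContinuousLinearMap.id ℝ E + (l - l0).smulRight u : E →L[ℝ] E) : E →ₗ[ℝ] E) =
        LinearMap.transvection ((l - l0 : E →L[ℝ] ℝ) : E →ₗ[ℝ] ℝ) u := rfl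
    have h2 : (ContinuousLinearMap.id ℝ E + (l - l0).smulRight u : E →L[ℝ] E).det =
        LinearMap.det (LinearMap.transvection ((l - l0 : E →L[ℝ] ℝ) : E →ₗ[ℝ] ℝ) u) := by
      rw [← h1]
    rw [h2, LinearMap.transvection.det]
    simp only [ContinuousLinearMap.coe_coe, sub_apply, hu]
    linarith

/-- Two independent functionals take the values `1` and `1` at a common vector. -/
lemma exists_vec (l0 l : E →L[ℝ] ℝ) (h0 : l0 ≠ 0) (h : ∀ c : ℝ, l ≠ c • l0) :
    ∃ u, l0 u = 1 ∧ l u = 1 := by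
  obtain ⟨v, hv⟩ : ∃ v, l0 v ≠ 0 := by
    by_contra hcon
    push Not at hcon
    exact h0 (by ext v; simpa using hcon v)
  obtain ⟨w, hw⟩ : ∃ w, l w ≠ (l v / l0 v) * l0 w := by
    by_contra hcon
    push Not at hcon
    exact h (l v / l0 v) (by ext w; simpa using hcon w)
  have hd : l w * l0 v - l v * l0 w ≠ 0 := by
    intro h1
    apply hw
    field_simp
    linarith
  refine ⟨((l w - l0 w) / (l w * l0 v - l v * l0 w)) • v +
    ((l0 v - l v) / (l w * l0 v - l v * l0 w)) • w, ?_, ?_⟩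
  · simp only [map_add, map_smul, smul_eq_mul]
    rw [div_mul_eq_mul_div, div_mul_eq_mul_div, ← add_div, div_eq_one_iff_eq hd]
    ring
  · simp only [map_add, map_smul, smul_eq_mul]
    rw [div_mul_eq_mul_div, div_mul_eq_mul_div, ← add_div, div_eq_one_iff_eq hd]
    ring

/-- There is a functional not proportional to a given one, in dimension at least two. -/
lemma exists_indep (l0 : E →L[ℝ] ℝ) (h0 : l0 ≠ 0) (hd : 2 ≤ Module.finrank ℝ E) :
    ∃ l1 : E →L[ℝ] ℝ, ∀ c : ℝ, l1 ≠ c • l0 := by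
  by_contra hcon
  push Not at hcon
  obtain ⟨v, hv⟩ : ∃ v, l0 v ≠ 0 := by
    by_contra hcon
    push Not at hcon
    exact h0 (by ext v; simpa using hcon v)
  -- the kernel of `l0` is trivial
  have hker : ∀ w, l0 w = 0 → w = 0 := by
    intro w hw
    by_contra hw0
    obtain ⟨l1, hl1⟩ := SeparatingDual.exists_eq_one (R := ℝ) hw0
    obtain ⟨c, hc⟩ := hcon l1
    rw [hc] at hl1
    simp [hw] at hl1
  have hinj : Function.Injective (l0 : E →ₗ[ℝ] ℝ) := by
    rw [← LinearMap.ker_eq_bot]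
    rw [eq_bot_iff]
    intro w hw
    exact hker w hw
  have := LinearMap.finrank_le_finrank_of_injective hinj
  rw [Module.finrank_self] at this
  omega

/-- Every nonzero functional is the last component of a positive automorphism. -/
theorem exists_carry' (l0 l : E →L[ℝ] ℝ) (h0 : l0 ≠ 0) (h : l ≠ 0)
    (hd : 2 ≤ Module.finrank ℝ E) : ∃ g : E →L[ℝ] E, l0.comp g = l ∧ 0 < g.det := by
  by_cases hi : ∀ c : ℝ, l ≠ c • l0
  · obtain ⟨u, hu, hu'⟩ := exists_vec l0 l h0 hi
    exact exists_carry l0 l u hu (by rw [hu']; norm_num)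
  · push Not at hi
    obtain ⟨c, hc⟩ := hi
    have hc0 : c ≠ 0 := by
      rintro rfl
      exact h (by rw [hc, zero_smul])
    obtain ⟨l1, hl1⟩ := exists_indep l0 h0 hd
    obtain ⟨u, hu, hu'⟩ := exists_vec l0 l1 h0 hl1
    obtain ⟨g, hg, hg'⟩ := exists_carry l0 l1 u hu (by rw [hu']; norm_num)
    have h1 : l1 ≠ 0 := by
      intro h1
      exact hl1 0 (by rw [h1, zero_smul])
    have hi2 : ∀ c' : ℝ, l ≠ c' • l1 := by
      intro c' hc'
      have hc'0 : c' ≠ 0 := by
        rintro rfl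
        exact h (by rw [hc', zero_smul])
      apply hl1 (c'⁻¹ * c)
      rw [mul_smul, ← hc, hc', smul_smul, inv_mul_cancel₀ hc'0, one_smul]
    obtain ⟨u2, hu2, hu2'⟩ := exists_vec l1 l h1 hi2
    obtain ⟨g2, hg2, hg2'⟩ := exists_carry l1 l u2 hu2 (by rw [hu2']; norm_num)
    refine ⟨g.comp g2, ?_, ?_⟩
    · rw [← ContinuousLinearMap.comp_assoc, hg, hg2]
    · have : (g.comp g2).det = g.det * g2.det := by
        unfold ContinuousLinearMap.det
        rw [← LinearMap.det_comp]
        rfl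
      rw [this]
      exact mul_pos hg' hg2'

/-- Existence of admissible data at every regular point. -/
theorem exists_ad (hf : ContDiff ℝ ∞ f) (hF : 1 ≤ Module.finrank ℝ F) (x : E)
    (h : fderiv ℝ f x ≠ 0) : ∃ a : Ad f L, x ∈ a.P.source := by
  have hE : Module.finrank ℝ E = Module.finrank ℝ F + 1 := by
    rw [L.toLinearEquiv.finrank_eq, Module.finrank_prod, Module.finrank_self]
  let l0 : E →L[ℝ] ℝ := (ContinuousLinearMap.snd ℝ F ℝ).comp (L : E →L[ℝ] F × ℝ)
  have h0 : l0 ≠ 0 := by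
    intro h0
    have h1 : l0 (L.symm (0, 1)) = 1 := by simp [l0]
    rw [h0] at h1
    simp at h1
  obtain ⟨g, hg, hg'⟩ := exists_carry' l0 (fderiv ℝ f x) h0 h (by omega)
  have key : dph f L ((ContinuousLinearMap.fst ℝ F ℝ).comp ((L : E →L[ℝ] F × ℝ).comp g)) x = g := by
    have hh : ((ContinuousLinearMap.fst ℝ F ℝ).comp ((L : E →L[ℝ] F × ℝ).comp g)).prod
        (fderiv ℝ f x) = (L : E →L[ℝ] F × ℝ).comp g := by
      rw [← hg]
      ext v <;> simp [l0]
    unfold dph
    rw [hh]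
    ext v
    simp
  obtain ⟨a, -, ha⟩ := exists_ad_of (L := L) hf
    ((ContinuousLinearMap.fst ℝ F ℝ).comp ((L : E →L[ℝ] F × ℝ).comp g)) x (by rw [key]; exact hg')
  exact ⟨a, ha⟩

end TC.Lvl
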