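import Pool.Agent.TC.LvlA

/-!
# Regular level sets: the manifold structure
-/

open scoped Manifold ContDiff Topology
open Set

namespace TC.Lvl

variable {E F : Type*} [NormedAddCommGroup E] [NormedSpace ℝ E] [FiniteDimensional ℝ E]
  [NormedAddCommGroup F] [NormedSpace ℝ F] [FiniteDimensional ℝ F]
  {f : E → ℝ} {L : E ≃L[ℝ] F × ℝ}

/-- Points of `F` in the target correspond to points of the level set. -/
lemma Ad.symm_lv (a : Ad f L) (y : F) (hy : (y, (0 : ℝ)) ∈ a.P.target) :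
    a.A (a.P.symm (y, 0)) = y ∧ f (a.P.symm (y, 0)) = 0 := by
  have h0 := a.P.right_inv hy
  have h1 := a.P.map_target hy
  rw [a.hP _ h1] at h0
  exact ⟨(Prod.ext_iff.1 h0).1, (Prod.ext_iff.1 h0).2⟩

open Classical in
/-- The inverse of the chart. -/
noncomputable def Ad.iv (a : Ad f L) (x0 : Lv f) (y : F) : Lv f :=
  if h : f (a.P.symm (y, 0)) = 0 then Lv.mk (a.P.symm (y, 0)) h else x0

lemma Ad.iv_val (a : Ad f L) (x0 : Lv f) (y : F) (hy : (y, (0 : ℝ)) ∈ a.P.target) :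
    (a.iv x0 y).1 = a.P.symm (y, 0) := by
  unfold Ad.iv
  rw [dif_pos (a.symm_lv y hy).2]
  rfl

/-- The chart of the level set given by an admissible datum. -/
noncomputable def Ad.ch (a : Ad f L) (x0 : Lv f) : OpenPartialHomeomorph (Lv f) F where
  toFun x := a.A x.1
  invFun y := a.iv x0 y
  source := {x | x.1 ∈ a.P.source}
  target := {y | (y, (0 : ℝ)) ∈ a.P.target}
  map_source' x hx := by
    have h := a.P.map_source hx
    rw [a.hP x.1 hx, x.2] at h
    exact h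
  map_target' y hy := by
    have h1 := a.P.map_target hy
    change (a.iv x0 y).1 ∈ a.P.source
    rw [a.iv_val x0 y hy]
    exact h1
  left_inv' x hx := by
    have h := a.P.left_inv hx
    have h1 := a.P.map_source hx
    rw [a.hP x.1 hx, x.2] at h h1
    apply Subtype.ext
    rw [a.iv_val x0 _ h1]
    exact h
  right_inv' y hy := by
    change a.A (a.iv x0 y).1 = y
    rw [a.iv_val x0 y hy]
    exact (a.symm_lv y hy).1
  open_source := a.P.open_source.preimage continuous_subtype_val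
  open_target := a.P.open_target.preimage (Continuous.prodMk_left 0)
  continuousOn_toFun := (a.A.continuous.comp continuous_subtype_val).continuousOn
  continuousOn_invFun := by
    have h3 : ContinuousOn (fun y : F => a.P.symm (y, 0)) {y | (y, (0 : ℝ)) ∈ a.P.target} :=
      a.P.symm.continuousOn.comp (Continuous.prodMk_left 0).continuousOn (fun y hy => hy)
    have h4 : ContinuousOn (fun y : F => (a.iv x0 y).1) {y | (y, (0 : ℝ)) ∈ a.P.target} :=
      h3.congr (fun y hy => a.iv_val x0 y hy)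
    exact Topology.IsInducing.subtypeVal.continuousOn_iff.2 h4

lemma Ad.ch_apply (a : Ad f L) (x0 x : Lv f) : a.ch x0 x = a.A x.1 := rfl

lemma Ad.ch_source (a : Ad f L) (x0 : Lv f) : (a.ch x0).source = {x | x.1 ∈ a.P.source} := rfl

lemma Ad.ch_target (a : Ad f L) (x0 : Lv f) :
    (a.ch x0).target = {y | (y, (0 : ℝ)) ∈ a.P.target} := rfl

lemma Ad.ch_symm_val (a : Ad f L) (x0 : Lv f) (y : F) (hy : (y, (0 : ℝ)) ∈ a.P.target) :
    ((a.ch x0).symm y).1 = a.P.symm (y, 0) := a.iv_val x0 y hy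

/-- The local form of a smooth map preserving the level set: smooth, with positive Jacobian. -/
theorem trans_local (hf : ContDiff ℝ ∞ f) (a a' : Ad f L) (g : E → E) (x : E)
    (hx : f x = 0) (hxa : x ∈ a.P.source) (hga : g x ∈ a'.P.source)
    (hg : ContDiffAt ℝ ∞ g x) (hfg : ∀ᶠ z in 𝓝 x, f (g z) = f z)
    (hdet : 0 < (fderiv ℝ g x).det) :
    ContDiffAt ℝ ∞ (fun y : F => a'.A (g (a.P.symm (y, 0)))) (a.A x) ∧
      0 < (fderiv ℝ (fun y : F => a'.A (g (a.P.symm (y, 0)))) (a.A x)).det := by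
  have hPx : a.P x = (a.A x, 0) := by rw [a.hP x hxa, hx]
  have htx : (a.A x, (0 : ℝ)) ∈ a.P.target := by rw [← hPx]; exact a.P.map_source hxa
  have hsx : a.P.symm (a.A x, 0) = x := by rw [← hPx]; exact a.P.left_inv hxa
  have hev : (a.P : E → F × ℝ) =ᶠ[𝓝 x] fun x => (a.A x, f x) := by
    filter_upwards [a.P.open_source.mem_nhds hxa] with z hz using a.hP z hz
  have hpos := a.pos x hxa
  set B := beq f L a.A x hpos.ne' with hB
  have hdP : HasFDerivAt (a.P : E → F × ℝ) (B : E →L[ℝ] F × ℝ) (a.P.symm (a.A x, 0)) := by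
    rw [hsx]
    exact (hasFDerivAt_ph (L := L) hf a.A x hpos.ne').congr_of_eventuallyEq hev
  have hcP : ContDiffAt ℝ ∞ (a.P : E → F × ℝ) (a.P.symm (a.A x, 0)) := by
    rw [hsx]
    exact (contDiff_ph hf a.A).contDiffAt.congr_of_eventuallyEq hev
  have hcs : ContDiffAt ℝ ∞ a.P.symm (a.A x, (0 : ℝ)) :=
    a.P.contDiffAt_symm htx hdP hcP
  have hds : HasFDerivAt a.P.symm (B.symm : F × ℝ →L[ℝ] E) (a.A x, (0 : ℝ)) :=
    a.P.hasFDerivAt_symm htx hdP
  have hin : ContDiffAt ℝ ∞ (fun y : F => (y, (0 : ℝ))) (a.A x) :=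
    contDiffAt_id.prodMk contDiffAt_const
  have hc1 : ContDiffAt ℝ ∞ (fun y : F => a.P.symm (y, (0 : ℝ))) (a.A x) :=
    hcs.comp (a.A x) hin
  have hg' : ContDiffAt ℝ ∞ g (a.P.symm (a.A x, 0)) := by rw [hsx]; exact hg
  have hc2 : ContDiffAt ℝ ∞ (fun y : F => g (a.P.symm (y, (0 : ℝ)))) (a.A x) :=
    hg'.comp (a.A x) hc1
  refine ⟨a'.A.contDiff.contDiffAt.comp (a.A x) hc2, ?_⟩
  -- the derivative
  have hdg : HasFDerivAt g (fderiv ℝ g x) x := (hg.differentiableAt (by simp)).hasFDerivAt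
  have hdin : HasFDerivAt (fun y : F => (y, (0 : ℝ))) (ContinuousLinearMap.inl ℝ F ℝ) (a.A x) := by
    have : (fun y : F => (y, (0 : ℝ))) = (ContinuousLinearMap.inl ℝ F ℝ : F → F × ℝ) := by
      ext y <;> simp
    rw [this]
    exact (ContinuousLinearMap.inl ℝ F ℝ).hasFDerivAt
  have hd1 : HasFDerivAt (fun y : F => a.P.symm (y, (0 : ℝ)))
      ((B.symm : F × ℝ →L[ℝ] E).comp (ContinuousLinearMap.inl ℝ F ℝ)) (a.A x) :=
    hds.comp (a.A x) hdin
  have hdg' : HasFDerivAt g (fderiv ℝ g x) (a.P.symm (a.A x, 0)) := by rw [hsx]; exact hdg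
  have hd2 : HasFDerivAt (fun y : F => g (a.P.symm (y, (0 : ℝ))))
      ((fderiv ℝ g x).comp ((B.symm : F × ℝ →L[ℝ] E).comp (ContinuousLinearMap.inl ℝ F ℝ)))
      (a.A x) := hdg'.comp (a.A x) hd1
  have hd3 : HasFDerivAt (fun y : F => a'.A (g (a.P.symm (y, (0 : ℝ)))))
      (a'.A.comp ((fderiv ℝ g x).comp
        ((B.symm : F × ℝ →L[ℝ] E).comp (ContinuousLinearMap.inl ℝ F ℝ))))
      (a.A x) := a'.A.hasFDerivAt.comp (a.A x) hd2
  rw [hd3.fderiv]
  -- the determinant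
  have hpos' := a'.pos (g x) hga
  set B' := beq f L a'.A (g x) hpos'.ne' with hB'
  have hBc : (B : E →L[ℝ] F × ℝ) = a.A.prod (fderiv ℝ f x) := beq_coe _ _ _
  have hBc' : (B' : E →L[ℝ] F × ℝ) = a'.A.prod (fderiv ℝ f (g x)) := beq_coe _ _ _
  have hffg : (fderiv ℝ f (g x)).comp (fderiv ℝ g x) = fderiv ℝ f x := by
    have h1 : HasFDerivAt (fun z => f (g z)) ((fderiv ℝ f (g x)).comp (fderiv ℝ g x)) x :=
      ((hf.differentiable (by simp)).differentiableAt.hasFDerivAt).comp x hdg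
    have h2 : HasFDerivAt (fun z => f (g z)) (fderiv ℝ f x) x :=
      ((hf.differentiable (by simp)).differentiableAt.hasFDerivAt).congr_of_eventuallyEq hfg
    exact h1.unique h2
  -- the endomorphism `T = B' Dg B⁻¹` of `F × ℝ`
  set T : F × ℝ →L[ℝ] F × ℝ :=
    (B' : E →L[ℝ] F × ℝ).comp ((fderiv ℝ g x).comp (B.symm : F × ℝ →L[ℝ] E)) with hT
  have hT2 : ∀ v : F × ℝ, (T v).2 = v.2 := by
    intro v
    have h1 : (T v).2 = fderiv ℝ f (g x) (fderiv ℝ g x (B.symm v)) := by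
      simp only [hT, ContinuousLinearMap.comp_apply, hBc']
      rfl
    have h2 : fderiv ℝ f (g x) (fderiv ℝ g x (B.symm v)) = fderiv ℝ f x (B.symm v) := by
      rw [← hffg]; rfl
    have h3 : (B (B.symm v)).2 = fderiv ℝ f x (B.symm v) := by
      have : B (B.symm v) = (B : E →L[ℝ] F × ℝ) (B.symm v) := rfl
      rw [this, hBc]
      rfl
    rw [h1, h2, ← h3, B.apply_symm_apply]
  have hT1 : ∀ y : F, (T (y, 0)).1 = (a'.A.comp ((fderiv ℝ g x).comp
        ((B.symm : F × ℝ →L[ℝ] E).comp (ContinuousLinearMap.inl ℝ F ℝ)))) y := by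
    intro y
    simp only [hT, ContinuousLinearMap.comp_apply, hBc']
    rfl
  set D : F →L[ℝ] F := a'.A.comp ((fderiv ℝ g x).comp
        ((B.symm : F × ℝ →L[ℝ] E).comp (ContinuousLinearMap.inl ℝ F ℝ))) with hD
  -- positivity of `det T`
  have hdetT : 0 < LinearMap.det (T : F × ℝ →ₗ[ℝ] F × ℝ) := by
    have h1 : LinearMap.det (((L.symm : F × ℝ →L[ℝ] E).comp (T.comp (L : E →L[ℝ] F × ℝ)) :
        E →L[ℝ] E) : E →ₗ[ℝ] E) = LinearMap.det (T : F × ℝ →ₗ[ℝ] F × ℝ) := by
      have := LinearMap.det_conj (T : F × ℝ →ₗ[ℝ] F × ℝ) L.symm.toLinearEquiv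
      rw [← this]
      rfl
    have h2 : ((L.symm : F × ℝ →L[ℝ] E).comp (T.comp (L : E →L[ℝ] F × ℝ)) : E →L[ℝ] E).comp
        (dph f L a.A x) = (dph f L a'.A (g x)).comp (fderiv ℝ g x) := by
      ext v
      have h3 : (dph f L a.A x) v = L.symm (B v) := by
        unfold dph
        rw [← hBc]
        rfl
      simp only [ContinuousLinearMap.comp_apply, h3, hT]
      unfold dph
      rw [← hBc']
      simp
    have h4 : LinearMap.det (((L.symm : F × ℝ →L[ℝ] E).comp (T.comp (L : E →L[ℝ] F × ℝ)) :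
        E →L[ℝ] E) : E →ₗ[ℝ] E) * (dph f L a.A x).det =
        (dph f L a'.A (g x)).det * (fderiv ℝ g x).det := by
      have h5 : LinearMap.det ((((L.symm : F × ℝ →L[ℝ] E).comp (T.comp (L : E →L[ℝ] F × ℝ)) :
          E →L[ℝ] E) : E →ₗ[ℝ] E) ∘ₗ ((dph f L a.A x : E →L[ℝ] E) : E →ₗ[ℝ] E)) =
          LinearMap.det (((dph f L a'.A (g x) : E →L[ℝ] E) : E →ₗ[ℝ] E) ∘ₗ
            ((fderiv ℝ g x : E →L[ℝ] E) : E →ₗ[ℝ] E)) :=
        congrArg (fun M : E →L[ℝ] E => LinearMap.det (M : E →ₗ[ℝ] E)) h2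
      rw [LinearMap.det_comp, LinearMap.det_comp] at h5
      exact h5
    rw [h1] at h4
    by_contra hcon
    push Not at hcon
    have h6 : LinearMap.det (T : F × ℝ →ₗ[ℝ] F × ℝ) * (dph f L a.A x).det ≤ 0 :=
      mul_nonpos_of_nonpos_of_nonneg hcon hpos.le
    rw [h4] at h6
    exact absurd h6 (not_le.2 (mul_pos hpos' hdet))
  -- `T` is block triangular
  have hfac : (T : F × ℝ →ₗ[ℝ] F × ℝ) =
      (LinearMap.transvection (LinearMap.snd ℝ F ℝ) ((T (0, 1)).1, (0 : ℝ))) ∘ₗ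
        (LinearMap.prodMap (D : F →ₗ[ℝ] F) (LinearMap.id : ℝ →ₗ[ℝ] ℝ)) := by
    apply LinearMap.ext
    rintro ⟨v, t⟩
    have h1 : T (v, t) = T (v, 0) + t • T (0, 1) := by
      rw [← map_smul, ← map_add]
      congr 1
      ext <;> simp
    have h2 := hT2 (v, 0)
    have h3 := hT2 (0, 1)
    have h4 := hT1 v
    change T (v, t) = _
    rw [h1]
    simp only [LinearMap.coe_comp, Function.comp_apply, LinearMap.prodMap_apply,
      LinearMap.id_apply, LinearMap.transvection.apply, LinearMap.snd_apply]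
    apply Prod.ext
    · simp only [Prod.fst_add, Prod.smul_fst]
      rw [h4]
      rfl
    · simp only [Prod.snd_add, Prod.smul_snd, h2, h3]
      simp
  rw [hfac, LinearMap.det_comp, LinearMap.transvection.det, LinearMap.det_prodMap] at hdetT
  simpa [ContinuousLinearMap.det] using hdetT

end TC.Lvl
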