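import Pool.Agent.TC.LvlB

/-!
# Quotients of regular level sets: smooth oriented manifolds
-/

open scoped Manifold ContDiff Topology
open Set

namespace TC.Lvl

variable {E F : Type*} [NormedAddCommGroup E] [NormedSpace ℝ E] [FiniteDimensional ℝ E]
  [NormedAddCommGroup F] [NormedSpace ℝ F] [FiniteDimensional ℝ F]
  {f : E → ℝ} {L : E ≃L[ℝ] F × ℝ} {X : Type*} [TopologicalSpace X]

/-- Two points of the level set with the same image under `p` are related by a germ of an
orientation preserving diffeomorphism preserving `f` and `p`. -/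
def Deck (f : E → ℝ) (p : Lv f → X) : Prop :=
  ∀ x x' : Lv f, p x = p x' → ∃ g : E → E, g x.1 = x'.1 ∧ ContDiffAt ℝ ∞ g x.1 ∧
    (∀ᶠ z in 𝓝 x.1, f (g z) = f z) ∧ 0 < (fderiv ℝ g x.1).det ∧
    ∀ᶠ z : Lv f in 𝓝 x, ∀ h : f (g z.1) = 0, p (Lv.mk (g z.1) h) = p z

/-- The identity satisfies `Deck`. -/
lemma deck_id (f : E → ℝ) : Deck f (id : Lv f → Lv f) := by
  intro x x' hx
  have hx' : x = x' := hx
  subst hx'
  refine ⟨id, rfl, contDiffAt_id, Filter.Eventually.of_forall fun _ => rfl, ?_,
    Filter.Eventually.of_forall fun _ _ => rfl⟩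
  rw [fderiv_id]
  simp [ContinuousLinearMap.det]

/-- The charts of the quotient. -/
noncomputable def qch {p : Lv f → X} (hp : IsLocalHomeomorph p) (q : Lv f) (a : Ad f L) :
    OpenPartialHomeomorph X F :=
  (hp.localInverseAt q).trans (a.ch q)

/-- The transition maps are smooth with positive Jacobian. -/
theorem qch_trans (hf : ContDiff ℝ ∞ f) {p : Lv f → X} (hp : IsLocalHomeomorph p)
    (hd : Deck f p) (q q' : Lv f) (a a' : Ad f L) (y : F)
    (hy : y ∈ ((qch hp q a).symm.trans (qch hp q' a')).source) :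
    ContDiffAt ℝ ∞ ((qch hp q' a') ∘ (qch hp q a).symm) y ∧
      0 < (fderiv ℝ ((qch hp q' a') ∘ (qch hp q a).symm) y).det := by
  rw [OpenPartialHomeomorph.trans_source] at hy
  obtain ⟨hy1, hy2⟩ := hy
  have hy1' : y ∈ (qch hp q a).target := hy1
  unfold qch at hy1'
  rw [OpenPartialHomeomorph.trans_target] at hy1'
  obtain ⟨hy3, hy4⟩ := hy1'
  have hyt : (y, (0 : ℝ)) ∈ a.P.target := hy3
  set x : Lv f := (a.ch q).symm y with hx
  have hxv : x.1 = a.P.symm (y, 0) := a.ch_symm_val q y hyt
  have hxs : x.1 ∈ a.P.source := by rw [hxv]; exact a.P.map_target hyt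
  have hyx : y = a.A x.1 := by rw [hxv]; exact (a.symm_lv y hyt).1.symm
  have hy5 : p x ∈ (qch hp q' a').source := by
    have h1 : (qch hp q a).symm y = p x := by
      unfold qch
      rw [OpenPartialHomeomorph.trans_symm_eq_symm_trans_symm, OpenPartialHomeomorph.coe_trans,
        Function.comp_apply, IsLocalHomeomorph.localInverseAt_symm]
    rw [← h1]
    exact hy2
  unfold qch at hy5
  rw [OpenPartialHomeomorph.trans_source] at hy5
  obtain ⟨hy6, hy7⟩ := hy5
  set x' : Lv f := hp.localInverseAt q' (p x) with hx'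
  have hxs' : x'.1 ∈ a'.P.source := hy7
  have hpx' : p x' = p x := hp.apply_localInverseAt_of_mem hy6
  obtain ⟨g, hg1, hg2, hg3, hg4, hg5⟩ := hd x x' hpx'.symm
  have key := trans_local hf a a' g x.1 x.2 hxs (by rw [hg1]; exact hxs') hg2 hg3 hg4
  rw [← hyx] at key
  -- the transition map is locally `y ↦ A' (g (P⁻¹ (y,0)))`
  have hxt' : x' ∈ (hp.localInverseAt q').target := (hp.localInverseAt q').map_source hy6
  have hcs : ContinuousAt (a.ch q).symm y := (a.ch q).continuousAt_symm hy3
  have hev : ((qch hp q' a') ∘ (qch hp q a).symm) =ᶠ[𝓝 y]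
      fun y : F => a'.A (g (a.P.symm (y, 0))) := by
    have e1 : ∀ᶠ z in 𝓝 y, (z, (0 : ℝ)) ∈ a.P.target := (a.ch q).open_target.mem_nhds hy3
    have e2 : ∀ᶠ z in 𝓝 y, ∀ h : f (g ((a.ch q).symm z).1) = 0,
        p (Lv.mk (g ((a.ch q).symm z).1) h) = p ((a.ch q).symm z) := hcs.eventually hg5
    have hcv : ContinuousAt (fun z => ((a.ch q).symm z).1) y :=
      continuous_subtype_val.continuousAt.comp hcs
    have e3 : ∀ᶠ z in 𝓝 y, f (g ((a.ch q).symm z).1) = f ((a.ch q).symm z).1 :=
      hcv.eventually hg3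
    -- the point `g u` is in the target of the local inverse
    have e4 : ∀ᶠ z in 𝓝 y, ∀ h : f (g ((a.ch q).symm z).1) = 0,
        Lv.mk (g ((a.ch q).symm z).1) h ∈ (hp.localInverseAt q').target := by
      obtain ⟨W, hW1, hW2⟩ := (isOpen_induced_iff (f := (Subtype.val : {x : E // f x = 0} → E))).1
        (hp.localInverseAt q').open_target
      have hcg : ContinuousAt (fun z => g ((a.ch q).symm z).1) y := by
        have : ContinuousAt g ((a.ch q).symm y).1 := hg2.continuousAt
        exact ContinuousAt.comp (f := fun z => ((a.ch q).symm z).1) this hcv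
      have hmem : g ((a.ch q).symm y).1 ∈ W := by
        have h1 : g ((a.ch q).symm y).1 = x'.1 := hg1
        rw [h1]
        have h2 : x' ∈ (Subtype.val : {x : E // f x = 0} → E) ⁻¹' W := by rw [hW2]; exact hxt'
        exact h2
      filter_upwards [hcg.preimage_mem_nhds (hW1.mem_nhds hmem)] with z hz h
      have h3 : (Lv.mk (g ((a.ch q).symm z).1) h : Lv f) ∈
        (Subtype.val : {x : E // f x = 0} → E) ⁻¹' W := hz
      rw [hW2] at h3
      exact h3
    filter_upwards [e1, e2, e3, e4] with z h1 h2 h3 h4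
    have hz : f (g ((a.ch q).symm z).1) = 0 := by rw [h3]; exact ((a.ch q).symm z).2
    have h5 := h2 hz
    have h6 := h4 hz
    have h7 : (qch hp q a).symm z = p ((a.ch q).symm z) := by
      unfold qch
      rw [OpenPartialHomeomorph.trans_symm_eq_symm_trans_symm, OpenPartialHomeomorph.coe_trans,
        Function.comp_apply, IsLocalHomeomorph.localInverseAt_symm]
    have h8 : hp.localInverseAt q' (p (Lv.mk (g ((a.ch q).symm z).1) hz)) =
        Lv.mk (g ((a.ch q).symm z).1) hz := by
      have := (hp.localInverseAt q').right_inv h6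
      rwa [IsLocalHomeomorph.localInverseAt_symm] at this
    rw [Function.comp_apply, h7, ← h5]
    unfold qch
    rw [OpenPartialHomeomorph.coe_trans, Function.comp_apply, h8]
    change a'.A (g ((a.ch q).symm z).1) = _
    rw [a.ch_symm_val q z h1]
  refine ⟨key.1.congr_of_eventuallyEq hev, ?_⟩
  rw [hev.fderiv_eq]
  exact key.2

/-- The regularity hypothesis. -/
structure Reg (f : E → ℝ) : Prop where
  smooth : ContDiff ℝ ∞ f
  reg : ∀ x, f x = 0 → fderiv ℝ f x ≠ 0

/-- The chosen admissible datum at a point. -/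
noncomputable def adAt (L : E ≃L[ℝ] F × ℝ) (hf : Reg f) (hF : 1 ≤ Module.finrank ℝ F)
    (x : Lv f) : Ad f L := (exists_ad (L := L) hf.smooth hF x.1 (hf.reg x.1 x.2)).choose

lemma mem_adAt (L : E ≃L[ℝ] F × ℝ) (hf : Reg f) (hF : 1 ≤ Module.finrank ℝ F) (x : Lv f) :
    x.1 ∈ (adAt L hf hF x).P.source :=
  (exists_ad (L := L) hf.smooth hF x.1 (hf.reg x.1 x.2)).choose_spec

/-- The charted space structure on a quotient of a regular level set. -/
@[reducible] noncomputable def csq (L : E ≃L[ℝ] F × ℝ) (hf : Reg f)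
    (hF : 1 ≤ Module.finrank ℝ F) {p : Lv f → X} (hp : IsLocalHomeomorph p)
    (hs : Function.Surjective p) : ChartedSpace F X where
  atlas := {e | ∃ (q : Lv f) (a : Ad f L), e = qch hp q a}
  chartAt y := qch hp (hs y).choose (adAt L hf hF (hs y).choose)
  mem_chart_source y := by
    unfold qch
    rw [OpenPartialHomeomorph.trans_source]
    have h1 : p (hs y).choose = y := (hs y).choose_spec
    constructor
    · have := hp.apply_self_mem_localInverseAt_source (x := (hs y).choose)
      rwa [h1] at this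
    · have h2 : hp.localInverseAt (hs y).choose y = (hs y).choose := by
        have h3 := (hp.localInverseAt (hs y).choose).right_inv
          (hp.self_mem_localInverseAt_target (x := (hs y).choose))
        rwa [IsLocalHomeomorph.localInverseAt_symm, h1] at h3
      change hp.localInverseAt (hs y).choose y ∈ ((adAt L hf hF (hs y).choose).ch (hs y).choose).source
      rw [h2]
      exact mem_adAt L hf hF (hs y).choose
  chart_mem_atlas y := ⟨_, _, rfl⟩

/-- A smooth atlas with positive Jacobians. -/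
def PosAtlas (F : Type*) [NormedAddCommGroup F] [NormedSpace ℝ F] (X : Type*)
    [TopologicalSpace X] [ChartedSpace F X] : Prop :=
  ∀ e ∈ atlas F X, ∀ e' ∈ atlas F X, ∀ y ∈ (e.symm.trans e').source,
    0 < (fderiv ℝ (e' ∘ e.symm) y).det

theorem csq_isManifold (L : E ≃L[ℝ] F × ℝ) (hf : Reg f) (hF : 1 ≤ Module.finrank ℝ F)
    {p : Lv f → X} (hp : IsLocalHomeomorph p) (hs : Function.Surjective p) (hd : Deck f p) :
    @IsManifold ℝ _ F _ _ F _ 𝓘(ℝ, F) ∞ X _ (csq L hf hF hp hs) ∧
      @PosAtlas F _ _ X _ (csq L hf hF hp hs) := by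
  let _ := csq L hf hF hp hs
  constructor
  · apply isManifold_of_contDiffOn
    intro e e' he he' y hy
    obtain ⟨q, a, rfl⟩ : ∃ (q : Lv f) (a : Ad f L), e = qch hp q a := he
    obtain ⟨q', a', rfl⟩ : ∃ (q : Lv f) (a : Ad f L), e' = qch hp q a := he'
    simp only [modelWithCornersSelf_coe, modelWithCornersSelf_coe_symm, Function.comp_id,
      Function.id_comp, preimage_id_eq, id_eq, range_id, inter_univ] at hy ⊢
    exact (qch_trans hf.smooth hp hd q q' a a' y hy).1.contDiffWithinAt
  · intro e he e' he' y hy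
    obtain ⟨q, a, rfl⟩ : ∃ (q : Lv f) (a : Ad f L), e = qch hp q a := he
    obtain ⟨q', a', rfl⟩ : ∃ (q : Lv f) (a : Ad f L), e' = qch hp q a := he'
    exact (qch_trans hf.smooth hp hd q q' a a' y hy).2

end TC.Lvl
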