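import Pool.Agent.TC.LvlC

/-!
# Quotients of regular level sets: tangent vectors
-/

open scoped Manifold ContDiff Topology
open Set

namespace TC.Lvl

variable {E F : Type*} [NormedAddCommGroup E] [NormedSpace ℝ E] [FiniteDimensional ℝ E]
  [NormedAddCommGroup F] [NormedSpace ℝ F] [FiniteDimensional ℝ F]
  {f : E → ℝ} {L : E ≃L[ℝ] F × ℝ}

/-- The derivative of the local form. -/
theorem hasFDerivAt_local (hf : ContDiff ℝ ∞ f) (a a' : Ad f L) (g : E → E) (g' : E →L[ℝ] E)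
    (x : E) (hx : f x = 0) (hxa : x ∈ a.P.source) (hg : HasFDerivAt g g' x) :
    HasFDerivAt (fun y : F => a'.A (g (a.P.symm (y, 0))))
      (a'.A.comp (g'.comp (((beq f L a.A x (a.pos x hxa).ne').symm : F × ℝ →L[ℝ] E).comp
        (ContinuousLinearMap.inl ℝ F ℝ)))) (a.A x) := by
  have hPx : a.P x = (a.A x, 0) := by rw [a.hP x hxa, hx]
  have htx : (a.A x, (0 : ℝ)) ∈ a.P.target := by rw [← hPx]; exact a.P.map_source hxa
  have hsx : a.P.symm (a.A x, 0) = x := by rw [← hPx]; exact a.P.left_inv hxa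
  have hev : (a.P : E → F × ℝ) =ᶠ[𝓝 x] fun x => (a.A x, f x) := by
    filter_upwards [a.P.open_source.mem_nhds hxa] with z hz using a.hP z hz
  have hpos := a.pos x hxa
  set B := beq f L a.A x hpos.ne' with hB
  have hdP : HasFDerivAt (a.P : E → F × ℝ) (B : E →L[ℝ] F × ℝ) (a.P.symm (a.A x, 0)) := by
    rw [hsx]
    exact (hasFDerivAt_ph (L := L) hf a.A x hpos.ne').congr_of_eventuallyEq hev
  have hds : HasFDerivAt a.P.symm (B.symm : F × ℝ →L[ℝ] E) (a.A x, (0 : ℝ)) :=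
    a.P.hasFDerivAt_symm htx hdP
  have hdin : HasFDerivAt (fun y : F => (y, (0 : ℝ))) (ContinuousLinearMap.inl ℝ F ℝ) (a.A x) := by
    have : (fun y : F => (y, (0 : ℝ))) = (ContinuousLinearMap.inl ℝ F ℝ : F → F × ℝ) := by
      ext y <;> simp
    rw [this]
    exact (ContinuousLinearMap.inl ℝ F ℝ).hasFDerivAt
  have hd1 : HasFDerivAt (fun y : F => a.P.symm (y, (0 : ℝ)))
      ((B.symm : F × ℝ →L[ℝ] E).comp (ContinuousLinearMap.inl ℝ F ℝ)) (a.A x) :=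
    hds.comp (a.A x) hdin
  have hdg' : HasFDerivAt g g' (a.P.symm (a.A x, 0)) := by rw [hsx]; exact hg
  have hd2 : HasFDerivAt (fun y : F => g (a.P.symm (y, (0 : ℝ))))
      (g'.comp ((B.symm : F × ℝ →L[ℝ] E).comp (ContinuousLinearMap.inl ℝ F ℝ)))
      (a.A x) := hdg'.comp (a.A x) hd1
  exact a'.A.hasFDerivAt.comp (a.A x) hd2

/-- The inverse of the derivative on the kernel of `df`. -/
lemma beq_symm_ker (a : Ad f L) (x : E) (hxa : x ∈ a.P.source) (V : E) (hV : fderiv ℝ f x V = 0) :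
    (beq f L a.A x (a.pos x hxa).ne').symm (a.A V, 0) = V := by
  rw [ContinuousLinearEquiv.symm_apply_eq]
  have h : (beq f L a.A x (a.pos x hxa).ne') V =
    (beq f L a.A x (a.pos x hxa).ne' : E →L[ℝ] F × ℝ) V := rfl
  rw [h, beq_coe]
  simp [hV]

/-- Smoothness of the inverse of `a.P`. -/
lemma contDiffAt_symm (hf : ContDiff ℝ ∞ f) (a : Ad f L) (y : F) (t : ℝ)
    (hy : (y, t) ∈ a.P.target) : ContDiffAt ℝ ∞ a.P.symm (y, t) := by
  have hxa := a.P.map_target hy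
  have hev : (a.P : E → F × ℝ) =ᶠ[𝓝 (a.P.symm (y, t))] fun x => (a.A x, f x) := by
    filter_upwards [a.P.open_source.mem_nhds hxa] with z hz using a.hP z hz
  have hpos := a.pos _ hxa
  exact a.P.contDiffAt_symm hy
    ((hasFDerivAt_ph (L := L) hf a.A _ hpos.ne').congr_of_eventuallyEq hev)
    ((contDiff_ph hf a.A).contDiffAt.congr_of_eventuallyEq hev)

section bundle

variable {X : Type*} [TopologicalSpace X] {p : Lv f → X} (hp : IsLocalHomeomorph p)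

lemma qch_symm_apply (q : Lv f) (a : Ad f L) (y : F) :
    (qch hp q a).symm y = p ((a.ch q).symm y) := by
  unfold qch
  rw [OpenPartialHomeomorph.trans_symm_eq_symm_trans_symm, OpenPartialHomeomorph.coe_trans,
    Function.comp_apply, IsLocalHomeomorph.localInverseAt_symm]

lemma qch_symm_A (q : Lv f) (a : Ad f L) (x : Lv f) (hx : x.1 ∈ a.P.source) :
    (qch hp q a).symm (a.A x.1) = p x := by
  rw [qch_symm_apply]
  congr 1
  exact (a.ch q).left_inv (x := x) hx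

lemma mem_qch_target (q : Lv f) (a : Ad f L) (x : Lv f) (hx : x.1 ∈ a.P.source)
    (hx' : x ∈ (hp.localInverseAt q).target) : a.A x.1 ∈ (qch hp q a).target := by
  unfold qch
  rw [OpenPartialHomeomorph.trans_target]
  refine ⟨(a.ch q).map_source (x := x) hx, ?_⟩
  have h : (a.ch q).symm (a.A x.1) = x := (a.ch q).left_inv (x := x) hx
  change (a.ch q).symm (a.A x.1) ∈ (hp.localInverseAt q).target
  rw [h]
  exact hx'

lemma mem_qch_source (q : Lv f) (a : Ad f L) (x : Lv f) (hx : x.1 ∈ a.P.source)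
    (hx' : x ∈ (hp.localInverseAt q).target) : p x ∈ (qch hp q a).source := by
  have h := (qch hp q a).map_target (mem_qch_target hp q a x hx hx')
  rwa [qch_symm_A hp q a x hx] at h

lemma qch_apply (q : Lv f) (a : Ad f L) (x : Lv f) (hx : x.1 ∈ a.P.source)
    (hx' : x ∈ (hp.localInverseAt q).target) : qch hp q a (p x) = a.A x.1 := by
  have h := (qch hp q a).right_inv (mem_qch_target hp q a x hx hx')
  rwa [qch_symm_A hp q a x hx] at h

/-- The local form of a family of symmetries. -/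
theorem sym_local {T : Type*} [TopologicalSpace T] (G : T → X → X) (g : T → E → E)
    (hfg : ∀ t z, f (g t z) = f z)
    (hG : ∀ t (z : Lv f), G t (p z) = p (Lv.mk (g t z.1) ((hfg t z.1).trans z.2)))
    (t0 : T) (x : Lv f) (hgc : ContinuousAt (fun z : T × E => g z.1 z.2) (t0, x.1))
    (q q' : Lv f) (a a' : Ad f L) (hx : x.1 ∈ a.P.source) (hx' : g t0 x.1 ∈ a'.P.source) :
    ∀ᶠ w : T × F in 𝓝 (t0, a.A x.1), G w.1 ((qch hp q a).symm w.2) =
      (qch hp q' a').symm (a'.A (g w.1 (a.P.symm (w.2, 0)))) := by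
  have hPx : a.P x.1 = (a.A x.1, 0) := by rw [a.hP x.1 hx, x.2]
  have htx : (a.A x.1, (0 : ℝ)) ∈ a.P.target := by rw [← hPx]; exact a.P.map_source hx
  have hsx : a.P.symm (a.A x.1, 0) = x.1 := by rw [← hPx]; exact a.P.left_inv hx
  have hin : Continuous (fun w : T × F => (w.2, (0 : ℝ))) := by fun_prop
  have e1 : ∀ᶠ w : T × F in 𝓝 (t0, a.A x.1), (w.2, (0 : ℝ)) ∈ a.P.target :=
    hin.continuousAt.eventually (a.P.open_target.mem_nhds htx)
  have hc1 : ContinuousAt (fun w : T × F => a.P.symm (w.2, 0)) (t0, a.A x.1) := by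
    have h1 : ContinuousAt a.P.symm ((fun w : T × F => (w.2, (0 : ℝ))) (t0, a.A x.1)) :=
      a.P.continuousAt_symm htx
    exact h1.comp (f := fun w : T × F => (w.2, (0 : ℝ))) hin.continuousAt
  have hc2 : ContinuousAt (fun w : T × F => (w.1, a.P.symm (w.2, 0))) (t0, a.A x.1) :=
    continuous_fst.continuousAt.prodMk hc1
  have hc3 : ContinuousAt (fun w : T × F => g w.1 (a.P.symm (w.2, 0))) (t0, a.A x.1) := by
    have h1 : ContinuousAt (fun z : T × E => g z.1 z.2)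
        ((fun w : T × F => (w.1, a.P.symm (w.2, 0))) (t0, a.A x.1)) := by
      change ContinuousAt (fun z : T × E => g z.1 z.2) (t0, a.P.symm (a.A x.1, 0))
      rw [hsx]
      exact hgc
    exact h1.comp (f := fun w : T × F => (w.1, a.P.symm (w.2, 0))) hc2
  have e2 : ∀ᶠ w : T × F in 𝓝 (t0, a.A x.1), g w.1 (a.P.symm (w.2, 0)) ∈ a'.P.source := by
    refine hc3.eventually (a'.P.open_source.mem_nhds ?_)
    change g t0 (a.P.symm (a.A x.1, 0)) ∈ a'.P.source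
    rw [hsx]
    exact hx'
  filter_upwards [e1, e2] with w h1 h2
  have h3 : ((a.ch q).symm w.2).1 = a.P.symm (w.2, 0) := a.ch_symm_val q w.2 h1
  rw [qch_symm_apply, hG]
  have h4 : (Lv.mk (g w.1 ((a.ch q).symm w.2).1) ((hfg w.1 _).trans ((a.ch q).symm w.2).2) :
      Lv f).1 ∈ a'.P.source := by
    change g w.1 ((a.ch q).symm w.2).1 ∈ a'.P.source
    rw [h3]
    exact h2
  rw [← qch_symm_A hp q' a' _ h4]
  change (qch hp q' a').symm (a'.A (g w.1 ((a.ch q).symm w.2).1)) = _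
  rw [h3]

variable [ChartedSpace F X] [IsManifold 𝓘(ℝ, F) ∞ X]

/-- Our charts belong to the maximal atlas. -/
def Compat (L : E ≃L[ℝ] F × ℝ) {p : Lv f → X} (hp : IsLocalHomeomorph p) : Prop :=
  ∀ (q : Lv f) (a : Ad f L), qch hp q a ∈ IsManifold.maximalAtlas 𝓘(ℝ, F) ∞ X

variable {hp}

/-- Tangent vectors of `X` given by vectors of `E`, in the chart `(q, a)`. -/
noncomputable def tvq (hp : IsLocalHomeomorph p) (q : Lv f) (a : Ad f L) (x : Lv f) (V : E) :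
    TangentBundle 𝓘(ℝ, F) X :=
  tangentMap 𝓘(ℝ, F) 𝓘(ℝ, F) (qch hp q a).symm (⟨a.A x.1, a.A V⟩ : TangentBundle 𝓘(ℝ, F) F)

lemma mdiff_symm (hat : Compat L hp) (q : Lv f) (a : Ad f L) (x : Lv f) (hx : x.1 ∈ a.P.source)
    (hx' : x ∈ (hp.localInverseAt q).target) :
    ContMDiffAt 𝓘(ℝ, F) 𝓘(ℝ, F) ∞ (qch hp q a).symm (a.A x.1) :=
  contMDiffAt_symm_of_mem_maximalAtlas (hat q a) (mem_qch_target hp q a x hx hx')

lemma mdiff_ch (hat : Compat L hp) (q : Lv f) (a : Ad f L) (x : Lv f) (hx : x.1 ∈ a.P.source)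
    (hx' : x ∈ (hp.localInverseAt q).target) :
    ContMDiffAt 𝓘(ℝ, F) 𝓘(ℝ, F) ∞ (qch hp q a) (p x) :=
  contMDiffAt_of_mem_maximalAtlas (hat q a) (mem_qch_source hp q a x hx hx')

omit [IsManifold 𝓘(ℝ, F) ∞ X] in
lemma tangentMap_congr {φ ψ : F → X} {y : F} (h : φ =ᶠ[𝓝 y] ψ) (w : F) :
    tangentMap 𝓘(ℝ, F) 𝓘(ℝ, F) φ (⟨y, w⟩ : TangentBundle 𝓘(ℝ, F) F) =
      tangentMap 𝓘(ℝ, F) 𝓘(ℝ, F) ψ (⟨y, w⟩ : TangentBundle 𝓘(ℝ, F) F) := by
  have h1 : φ y = ψ y := h.eq_of_nhds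
  have h2 := h.mfderiv_eq (I := 𝓘(ℝ, F)) (I' := 𝓘(ℝ, F))
  have key : ∀ (m m' : X) (v v' : F), m = m' → v = v' →
      (⟨m, v⟩ : TangentBundle 𝓘(ℝ, F) X) = ⟨m', v'⟩ := by
    rintro m m' v v' rfl rfl
    rfl
  exact key _ _ _ _ h1 (by rw [h2]; rfl)

/-- The image of tangent vectors under a symmetry. -/
theorem push (hf : ContDiff ℝ ∞ f) (hat : Compat L hp) (G : X → X) (g : E → E)
    (hfg : ∀ z, f (g z) = f z)
    (hG : ∀ z : Lv f, G (p z) = p (Lv.mk (g z.1) ((hfg z.1).trans z.2)))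
    (x : Lv f) (hg : ContDiffAt ℝ ∞ g x.1) (q q' : Lv f) (a a' : Ad f L)
    (hx : x.1 ∈ a.P.source) (hxq : x ∈ (hp.localInverseAt q).target)
    (hx' : g x.1 ∈ a'.P.source)
    (hxq' : Lv.mk (g x.1) ((hfg x.1).trans x.2) ∈ (hp.localInverseAt q').target)
    (V : E) (hV : fderiv ℝ f x.1 V = 0) :
    MDifferentiableAt 𝓘(ℝ, F) 𝓘(ℝ, F) G (p x) ∧
    tangentMap 𝓘(ℝ, F) 𝓘(ℝ, F) G (tvq hp q a x V) =
      tvq hp q' a' (Lv.mk (g x.1) ((hfg x.1).trans x.2)) (fderiv ℝ g x.1 V) := by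
  have hgd : HasFDerivAt g (fderiv ℝ g x.1) x.1 := (hg.differentiableAt (by simp)).hasFDerivAt
  have hk := hasFDerivAt_local (L := L) hf a a' g _ x.1 x.2 hx hgd
  set k : F → F := fun y : F => a'.A (g (a.P.symm (y, 0))) with hkdef
  have hsx : a.P.symm (a.A x.1, 0) = x.1 := by
    have hPx : a.P x.1 = (a.A x.1, 0) := by rw [a.hP x.1 hx, x.2]
    rw [← hPx]; exact a.P.left_inv hx
  have hky : k (a.A x.1) = a'.A (g x.1) := by
    change a'.A (g (a.P.symm (a.A x.1, 0))) = _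
    rw [hsx]
  have hloc := sym_local (T := Unit) hp (fun _ => G) (fun _ => g) (fun _ => hfg) (fun _ => hG) ()
    x (by
      have h1 : ContinuousAt g x.1 := hg.continuousAt
      exact ContinuousAt.comp (f := fun z : Unit × E => z.2) h1 continuous_snd.continuousAt)
    q q' a a' hx hx'
  have hev : (G ∘ (qch hp q a).symm) =ᶠ[𝓝 (a.A x.1)] ((qch hp q' a').symm ∘ k) := by
    have hcu : ContinuousAt (fun y : F => ((), y)) (a.A x.1) := by fun_prop
    exact hcu.eventually hloc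
  have hmk : MDifferentiableAt 𝓘(ℝ, F) 𝓘(ℝ, F) k (a.A x.1) :=
    mdifferentiableAt_iff_differentiableAt.2 hk.differentiableAt
  have hms' : MDifferentiableAt 𝓘(ℝ, F) 𝓘(ℝ, F) (qch hp q' a').symm (k (a.A x.1)) := by
    rw [hky]
    exact (mdiff_symm hat q' a' (Lv.mk (g x.1) ((hfg x.1).trans x.2)) hx' hxq').mdifferentiableAt
      (by simp)
  have hms : MDifferentiableAt 𝓘(ℝ, F) 𝓘(ℝ, F) (qch hp q a).symm (a.A x.1) :=
    (mdiff_symm hat q a x hx hxq).mdifferentiableAt (by simp)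
  have hmc : MDifferentiableAt 𝓘(ℝ, F) 𝓘(ℝ, F) (qch hp q a) (p x) :=
    (mdiff_ch hat q a x hx hxq).mdifferentiableAt (by simp)
  have hmG : MDifferentiableAt 𝓘(ℝ, F) 𝓘(ℝ, F) G (p x) := by
    have h1 : MDifferentiableAt 𝓘(ℝ, F) 𝓘(ℝ, F) ((qch hp q' a').symm ∘ k) (a.A x.1) :=
      hms'.comp (a.A x.1) hmk
    have h2 : MDifferentiableAt 𝓘(ℝ, F) 𝓘(ℝ, F) (G ∘ (qch hp q a).symm) (a.A x.1) :=
      h1.congr_of_eventuallyEq hev
    have h3 : MDifferentiableAt 𝓘(ℝ, F) 𝓘(ℝ, F) ((G ∘ (qch hp q a).symm) ∘ (qch hp q a))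
        (p x) := by
      refine MDifferentiableAt.comp (p x) ?_ hmc
      rw [qch_apply hp q a x hx hxq]
      exact h2
    refine h3.congr_of_eventuallyEq ?_
    filter_upwards [(qch hp q a).open_source.mem_nhds (mem_qch_source hp q a x hx hxq)] with z hz
    simp only [Function.comp_apply]
    rw [(qch hp q a).left_inv hz]
  refine ⟨hmG, ?_⟩
  have hmG' : MDifferentiableAt 𝓘(ℝ, F) 𝓘(ℝ, F) G ((qch hp q a).symm (a.A x.1)) := by
    rw [qch_symm_A hp q a x hx]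
    exact hmG
  have s1 : tangentMap 𝓘(ℝ, F) 𝓘(ℝ, F) (G ∘ (qch hp q a).symm)
      (⟨a.A x.1, a.A V⟩ : TangentBundle 𝓘(ℝ, F) F) =
      tangentMap 𝓘(ℝ, F) 𝓘(ℝ, F) G (tangentMap 𝓘(ℝ, F) 𝓘(ℝ, F) (qch hp q a).symm
        (⟨a.A x.1, a.A V⟩ : TangentBundle 𝓘(ℝ, F) F)) :=
    tangentMap_comp_at (⟨a.A x.1, a.A V⟩ : TangentBundle 𝓘(ℝ, F) F) hmG' hms
  have s2 : tangentMap 𝓘(ℝ, F) 𝓘(ℝ, F) ((qch hp q' a').symm ∘ k)
      (⟨a.A x.1, a.A V⟩ : TangentBundle 𝓘(ℝ, F) F) =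
      tangentMap 𝓘(ℝ, F) 𝓘(ℝ, F) (qch hp q' a').symm (tangentMap 𝓘(ℝ, F) 𝓘(ℝ, F) k
        (⟨a.A x.1, a.A V⟩ : TangentBundle 𝓘(ℝ, F) F)) :=
    tangentMap_comp_at (⟨a.A x.1, a.A V⟩ : TangentBundle 𝓘(ℝ, F) F) hms' hmk
  have h1 : tangentMap 𝓘(ℝ, F) 𝓘(ℝ, F) k (⟨a.A x.1, a.A V⟩ : TangentBundle 𝓘(ℝ, F) F) =
      ⟨a'.A (g x.1), a'.A (fderiv ℝ g x.1 V)⟩ := by
    have h2 : mfderiv 𝓘(ℝ, F) 𝓘(ℝ, F) k (a.A x.1) = fderiv ℝ k (a.A x.1) := mfderiv_eq_fderiv
    have h3 : fderiv ℝ k (a.A x.1) (a.A V) = a'.A (fderiv ℝ g x.1 V) := by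
      rw [hk.fderiv]
      simp only [ContinuousLinearMap.comp_apply, ContinuousLinearMap.inl_apply]
      have := beq_symm_ker a x.1 hx V hV
      rw [ContinuousLinearEquiv.coe_coe, this]
    have key : ∀ (m m' v v' : F), m = m' → v = v' →
        (⟨m, v⟩ : TangentBundle 𝓘(ℝ, F) F) = ⟨m', v'⟩ := by
      rintro m m' v v' rfl rfl
      rfl
    refine key _ _ _ _ hky ?_
    rw [← h3, ← h2]
    rfl
  unfold tvq
  rw [← s1, tangentMap_congr hev, s2, h1]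
  rfl

end bundle

end TC.Lvl
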