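import Pool.Agent.TC.LvlD

/-!
# Quotients of regular level sets: the tangent bundle and smooth families of symmetries
-/

open scoped Manifold ContDiff Topology
open Set

namespace TC.Lvl

variable {E F : Type*} [NormedAddCommGroup E] [NormedSpace ℝ E] [FiniteDimensional ℝ E]
  [NormedAddCommGroup F] [NormedSpace ℝ F] [FiniteDimensional ℝ F]
  {f : E → ℝ} {L : E ≃L[ℝ] F × ℝ}
  {X : Type*} [TopologicalSpace X] {p : Lv f → X} {hp : IsLocalHomeomorph p}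
  [ChartedSpace F X] [IsManifold 𝓘(ℝ, F) ∞ X]

/-- Independence of the chart. -/
theorem tvq_indep (hf : ContDiff ℝ ∞ f) (hat : Compat L hp) (x : Lv f) (q q' : Lv f)
    (a a' : Ad f L) (hx : x.1 ∈ a.P.source) (hxq : x ∈ (hp.localInverseAt q).target)
    (hx' : x.1 ∈ a'.P.source) (hxq' : x ∈ (hp.localInverseAt q').target)
    (V : E) (hV : fderiv ℝ f x.1 V = 0) : tvq hp q a x V = tvq hp q' a' x V := by
  have h := (push hf hat (id : X → X) (id : E → E) (fun _ => rfl) (fun _ => rfl) x contDiffAt_id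
    q q' a a' hx hxq hx' hxq' V hV).2
  rw [tangentMap_id, fderiv_id] at h
  exact h

/-- The tangent vector of `X` at `p x` given by a vector `V` with `df V = 0`. -/
noncomputable def tw (L : E ≃L[ℝ] F × ℝ) (hf : Reg f) (hF : 1 ≤ Module.finrank ℝ F)
    (hp : IsLocalHomeomorph p) (x : Lv f) (V : E) : TangentBundle 𝓘(ℝ, F) X :=
  tvq hp x (adAt L hf hF x) x V

variable (hf : Reg f) (hF : 1 ≤ Module.finrank ℝ F)

theorem tw_eq (hat : Compat L hp) (x q : Lv f) (a : Ad f L) (hx : x.1 ∈ a.P.source)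
    (hxq : x ∈ (hp.localInverseAt q).target) (V : E) (hV : fderiv ℝ f x.1 V = 0) :
    tw L hf hF hp x V = tvq hp q a x V :=
  tvq_indep hf.smooth hat x x q _ a (mem_adAt L hf hF x) hp.self_mem_localInverseAt_target hx hxq
    V hV

theorem tw_proj (x : Lv f) (V : E) : (tw L hf hF hp x V).1 = p x :=
  qch_symm_A hp x _ x (mem_adAt L hf hF x)

/-- Symmetries and tangent vectors. -/
theorem tw_push (hat : Compat L hp) (G : X → X) (g : E → E)
    (hfg : ∀ z, f (g z) = f z)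
    (hG : ∀ z : Lv f, G (p z) = p (Lv.mk (g z.1) ((hfg z.1).trans z.2)))
    (x : Lv f) (hg : ContDiffAt ℝ ∞ g x.1) (V : E) (hV : fderiv ℝ f x.1 V = 0) :
    tangentMap 𝓘(ℝ, F) 𝓘(ℝ, F) G (tw L hf hF hp x V) =
      tw L hf hF hp (Lv.mk (g x.1) ((hfg x.1).trans x.2)) (fderiv ℝ g x.1 V) :=
  (push hf.smooth hat G g hfg hG x hg x (Lv.mk (g x.1) ((hfg x.1).trans x.2)) _
    (adAt L hf hF (Lv.mk (g x.1) ((hfg x.1).trans x.2))) (mem_adAt L hf hF x)
    hp.self_mem_localInverseAt_target (mem_adAt L hf hF (Lv.mk (g x.1) _))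
    hp.self_mem_localInverseAt_target V hV).2

/-- Continuity of the tangent vectors. -/
theorem tw_continuous (hat : Compat L hp) {Z : Type*} [TopologicalSpace Z] (φ : Z → Lv f)
    (ψ : Z → E) (hφ : Continuous φ) (hψ : Continuous ψ) (h0 : ∀ z, fderiv ℝ f (φ z).1 (ψ z) = 0) :
    Continuous (fun z => tw L hf hF hp (φ z) (ψ z)) := by
  rw [continuous_iff_continuousAt]
  intro z0
  set x0 := φ z0 with hx0
  set a := adAt L hf hF x0 with ha
  set e := qch hp x0 a with he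
  have hxa : x0.1 ∈ a.P.source := mem_adAt L hf hF x0
  have e1 : ∀ᶠ z in 𝓝 z0, φ z ∈ (hp.localInverseAt x0).target :=
    hφ.continuousAt.eventually ((hp.localInverseAt x0).open_target.mem_nhds
      hp.self_mem_localInverseAt_target)
  have hφv : Continuous (fun z => (φ z).1) := continuous_subtype_val.comp hφ
  have e2 : ∀ᶠ z in 𝓝 z0, (φ z).1 ∈ a.P.source :=
    hφv.continuousAt.eventually (a.P.open_source.mem_nhds hxa)
  have hev : (fun z => tw L hf hF hp (φ z) (ψ z)) =ᶠ[𝓝 z0]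
      fun z => tangentMapWithin 𝓘(ℝ, F) 𝓘(ℝ, F) e.symm e.target
        (⟨a.A (φ z).1, a.A (ψ z)⟩ : TangentBundle 𝓘(ℝ, F) F) := by
    filter_upwards [e1, e2] with z h1 h2
    rw [tw_eq hf hF hat (φ z) x0 a h2 h1 (ψ z) (h0 z)]
    unfold tvq
    rw [tangentMapWithin_eq_tangentMap]
    · exact e.open_target.uniqueMDiffOn _ (mem_qch_target hp x0 a (φ z) h2 h1)
    · exact (mdiff_symm hat x0 a (φ z) h2 h1).mdifferentiableAt (by simp)
  refine ContinuousAt.congr ?_ hev.symm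
  have hc : ContinuousOn (tangentMapWithin 𝓘(ℝ, F) 𝓘(ℝ, F) e.symm e.target)
      (Bundle.TotalSpace.proj ⁻¹' e.target) :=
    (contMDiffOn_symm_of_mem_maximalAtlas (hat x0 a)).continuousOn_tangentMapWithin (by simp)
      e.open_target.uniqueMDiffOn
  have hmem : (⟨a.A (φ z0).1, a.A (ψ z0)⟩ : TangentBundle 𝓘(ℝ, F) F) ∈
      (Bundle.TotalSpace.proj ⁻¹' e.target : Set (TangentBundle 𝓘(ℝ, F) F)) :=
    mem_qch_target hp x0 a x0 hxa hp.self_mem_localInverseAt_target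
  have ho : IsOpen (Bundle.TotalSpace.proj ⁻¹' e.target : Set (TangentBundle 𝓘(ℝ, F) F)) :=
    e.open_target.preimage (FiberBundle.continuous_proj F (TangentSpace 𝓘(ℝ, F) (M := F)))
  have hca : ContinuousAt (tangentMapWithin 𝓘(ℝ, F) 𝓘(ℝ, F) e.symm e.target)
      (⟨a.A (φ z0).1, a.A (ψ z0)⟩ : TangentBundle 𝓘(ℝ, F) F) :=
    hc.continuousAt (ho.mem_nhds hmem)
  have hin : Continuous (fun z => (⟨a.A (φ z).1, a.A (ψ z)⟩ : TangentBundle 𝓘(ℝ, F) F)) := by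
    have h1 : Continuous (fun z => ((a.A (φ z).1, a.A (ψ z)) : ModelProd F F)) :=
      (a.A.continuous.comp hφv).prodMk (a.A.continuous.comp hψ)
    exact (tangentBundleModelSpaceHomeomorph 𝓘(ℝ, F)).symm.continuous.comp h1
  exact ContinuousAt.comp (f := fun z => (⟨a.A (φ z).1, a.A (ψ z)⟩ : TangentBundle 𝓘(ℝ, F) F))
    hca hin.continuousAt

/-- Linearity and injectivity. -/
theorem tw_snd (hat : Compat L hp) (x : Lv f) :
    ∃ D : E →ₗ[ℝ] F, (∀ V, (tw L hf hF hp x V).2 = D V) ∧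
      ∀ V, fderiv ℝ f x.1 V = 0 → D V = 0 → V = 0 := by
  set a := adAt L hf hF x with ha
  set e := qch hp x a with he
  have hxa : x.1 ∈ a.P.source := mem_adAt L hf hF x
  have hxt : a.A x.1 ∈ e.target :=
    mem_qch_target hp x a x hxa hp.self_mem_localInverseAt_target
  have hms : MDifferentiableAt 𝓘(ℝ, F) 𝓘(ℝ, F) e.symm (a.A x.1) :=
    (mdiff_symm hat x a x hxa hp.self_mem_localInverseAt_target).mdifferentiableAt (by simp)
  have hmc : MDifferentiableAt 𝓘(ℝ, F) 𝓘(ℝ, F) e (e.symm (a.A x.1)) := by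
    have h1 : e.symm (a.A x.1) = p x := qch_symm_A hp x a x hxa
    rw [h1]
    exact (mdiff_ch hat x a x hxa hp.self_mem_localInverseAt_target).mdifferentiableAt (by simp)
  refine ⟨(mfderiv 𝓘(ℝ, F) 𝓘(ℝ, F) e.symm (a.A x.1) : F →L[ℝ] F).toLinearMap ∘ₗ a.A.toLinearMap,
    fun V => rfl, ?_⟩
  intro V hV h0
  have h1 : mfderiv 𝓘(ℝ, F) 𝓘(ℝ, F) e.symm (a.A x.1) (a.A V) = 0 := h0
  have h2 : (e ∘ e.symm) =ᶠ[𝓝 (a.A x.1)] id := by
    filter_upwards [e.open_target.mem_nhds hxt] with y hy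
    exact e.right_inv hy
  have h3 : mfderiv 𝓘(ℝ, F) 𝓘(ℝ, F) (e ∘ e.symm) (a.A x.1) (a.A V) =
      mfderiv 𝓘(ℝ, F) 𝓘(ℝ, F) e (e.symm (a.A x.1))
        (mfderiv 𝓘(ℝ, F) 𝓘(ℝ, F) e.symm (a.A x.1) (a.A V)) :=
    mfderiv_comp_apply (a.A x.1) hmc hms (a.A V)
  rw [h1, map_zero] at h3
  have h4 := h2.mfderiv_eq (I := 𝓘(ℝ, F)) (I' := 𝓘(ℝ, F))
  have h5 : mfderiv 𝓘(ℝ, F) 𝓘(ℝ, F) (e ∘ e.symm) (a.A x.1) (a.A V) = a.A V := by
    rw [h4]
    have h6 : mfderiv 𝓘(ℝ, F) 𝓘(ℝ, F) (id : F → F) (a.A x.1) =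
      ContinuousLinearMap.id ℝ (TangentSpace 𝓘(ℝ, F) (a.A x.1)) := mfderiv_id
    rw [h6]
    rfl
  have h7 : a.A V = 0 := by rw [← h5, h3]; rfl
  have h8 := beq_symm_ker a x.1 hxa V hV
  rw [h7] at h8
  rw [← h8]
  have h9 : ((0 : F), (0 : ℝ)) = 0 := rfl
  rw [h9, map_zero]

/-- Smooth families of symmetries act smoothly. -/
theorem family_smooth (hf : Reg f) (hF : 1 ≤ Module.finrank ℝ F) (hs : Function.Surjective p)
    (hat : Compat L hp) (G : ℝ → X → X)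
    (g : ℝ → E → E) (hfg : ∀ t z, f (g t z) = f z)
    (hG : ∀ t (z : Lv f), G t (p z) = p (Lv.mk (g t z.1) ((hfg t z.1).trans z.2)))
    (hg : ContDiff ℝ ∞ (fun z : ℝ × E => g z.1 z.2)) :
    ContMDiff ((𝓘(ℝ, ℝ)).prod 𝓘(ℝ, F)) 𝓘(ℝ, F) ∞ (fun z : ℝ × X => G z.1 z.2) := by
  rintro ⟨t0, m0⟩
  obtain ⟨x, rfl⟩ := hs m0
  set x' : Lv f := Lv.mk (g t0 x.1) ((hfg t0 x.1).trans x.2) with hx'
  set a := adAt L hf hF x with ha
  set a' := adAt L hf hF x' with ha'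
  have hxa : x.1 ∈ a.P.source := mem_adAt L hf hF x
  have hxa' : x'.1 ∈ a'.P.source := mem_adAt L hf hF x'
  have hxq := hp.self_mem_localInverseAt_target (x := x)
  have hxq' := hp.self_mem_localInverseAt_target (x := x')
  set e := qch hp x a with he
  set e' := qch hp x' a' with he'
  have hloc := sym_local hp G g hfg hG t0 x hg.continuous.continuousAt x x' a a' hxa hxa'
  have hsx : a.P.symm (a.A x.1, 0) = x.1 := by
    have hPx : a.P x.1 = (a.A x.1, 0) := by rw [a.hP x.1 hxa, x.2]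
    rw [← hPx]; exact a.P.left_inv hxa
  have htx : (a.A x.1, (0 : ℝ)) ∈ a.P.target := by
    have hPx : a.P x.1 = (a.A x.1, 0) := by rw [a.hP x.1 hxa, x.2]
    rw [← hPx]; exact a.P.map_source hxa
  -- the local form
  obtain ⟨K, hK⟩ : ∃ K : ℝ × F → F, K = fun w => a'.A (g w.1 (a.P.symm (w.2, 0))) := ⟨_, rfl⟩
  have hKc : ContDiffAt ℝ ∞ K (t0, a.A x.1) := by
    have h1 : ContDiffAt ℝ ∞ a.P.symm ((fun w : ℝ × F => (w.2, (0 : ℝ))) (t0, a.A x.1)) :=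
      contDiffAt_symm hf.smooth a _ _ htx
    have h2 : ContDiffAt ℝ ∞ (fun w : ℝ × F => a.P.symm (w.2, 0)) (t0, a.A x.1) :=
      h1.comp (t0, a.A x.1) (contDiffAt_snd.prodMk contDiffAt_const)
    have h3 : ContDiffAt ℝ ∞ (fun w : ℝ × F => g w.1 (a.P.symm (w.2, 0))) (t0, a.A x.1) :=
      ContDiffAt.comp (g := fun z : ℝ × E => g z.1 z.2)
        (f := fun w : ℝ × F => (w.1, a.P.symm (w.2, 0))) (t0, a.A x.1)
        hg.contDiffAt (contDiffAt_fst.prodMk h2)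
    rw [hK]
    exact a'.A.contDiff.contDiffAt.comp (t0, a.A x.1) h3
  have hem : e (p x) = a.A x.1 := qch_apply hp x a x hxa hxq
  have hmc : ContMDiffAt ((𝓘(ℝ, ℝ)).prod 𝓘(ℝ, F)) 𝓘(ℝ, F) ∞ (fun z : ℝ × X => e z.2) (t0, p x) :=
    (mdiff_ch hat x a x hxa hxq).comp (t0, p x) contMDiffAt_snd
  have hpair : ContMDiffAt ((𝓘(ℝ, ℝ)).prod 𝓘(ℝ, F)) 𝓘(ℝ, ℝ × F) ∞
      (fun z : ℝ × X => (z.1, e z.2)) (t0, p x) :=
    ContMDiffAt.prodMk_space contMDiffAt_fst hmc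
  have hK2 : ContMDiffAt ((𝓘(ℝ, ℝ)).prod 𝓘(ℝ, F)) 𝓘(ℝ, F) ∞
      (fun z : ℝ × X => K (z.1, e z.2)) (t0, p x) := by
    have h1 : ContMDiffAt 𝓘(ℝ, ℝ × F) 𝓘(ℝ, F) ∞ K ((fun z : ℝ × X => (z.1, e z.2)) (t0, p x)) := by
      change ContMDiffAt 𝓘(ℝ, ℝ × F) 𝓘(ℝ, F) ∞ K (t0, e (p x))
      rw [hem]
      exact hKc.contMDiffAt
    exact ContMDiffAt.comp (g := K) (f := fun z : ℝ × X => (z.1, e z.2)) (t0, p x) h1 hpair
  have hKx : K (t0, e (p x)) = a'.A x'.1 := by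
    rw [hem, hK]
    change a'.A (g t0 (a.P.symm (a.A x.1, 0))) = _
    rw [hsx]
    rfl
  have hfin : ContMDiffAt ((𝓘(ℝ, ℝ)).prod 𝓘(ℝ, F)) 𝓘(ℝ, F) ∞
      (fun z : ℝ × X => e'.symm (K (z.1, e z.2))) (t0, p x) := by
    have h1 : ContMDiffAt 𝓘(ℝ, F) 𝓘(ℝ, F) ∞ e'.symm ((fun z : ℝ × X => K (z.1, e z.2)) (t0, p x)) := by
      change ContMDiffAt 𝓘(ℝ, F) 𝓘(ℝ, F) ∞ e'.symm (K (t0, e (p x)))
      rw [hKx]
      exact mdiff_symm hat x' a' x' hxa' hxq'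
    exact ContMDiffAt.comp (g := e'.symm) (f := fun z : ℝ × X => K (z.1, e z.2)) (t0, p x) h1 hK2
  refine hfin.congr_of_eventuallyEq ?_
  have hcont : ContinuousAt (fun z : ℝ × X => (z.1, e z.2)) (t0, p x) := hpair.continuousAt
  have e1 : ∀ᶠ z : ℝ × X in 𝓝 (t0, p x), G z.1 (e.symm (e z.2)) = e'.symm (K (z.1, e z.2)) := by
    have h1 : Filter.Tendsto (fun z : ℝ × X => (z.1, e z.2)) (𝓝 (t0, p x)) (𝓝 (t0, a.A x.1)) := by
      have := hcont.tendsto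
      rwa [hem] at this
    rw [hK]
    exact h1.eventually hloc
  have e2 : ∀ᶠ z : ℝ × X in 𝓝 (t0, p x), z.2 ∈ e.source :=
    continuous_snd.continuousAt.eventually
      (e.open_source.mem_nhds (mem_qch_source hp x a x hxa hxq))
  filter_upwards [e1, e2] with z h1 h2
  rw [e.left_inv h2] at h1
  rw [← h1]

end TC.Lvl
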