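import Pool.Agent.TC.MfdFin
import Pool.Agent.TC.Mfd.Reg
import Pool.Agent.TC.Mfd.Exp
import Pool.Agent.TC.Mfd.Top
import Pool.Agent.TC.Mfd.Frm

/-!
# Block MFD: the final theorem
-/

namespace TC

/-- The smooth structure of `M`, the smooth circle action and the trivialisation. -/
theorem mfd_all : MFD_main := mfd_main reg_s exp_s top_main frm_s

end TC
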