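import Pool.Agent.TC.MfdStmts
import Pool.Agent.TC.LvlE
import Pool.Agent.TC.Mfd.Dck

/-!
# Block MFD: assembly
-/

set_option autoImplicit false

open scoped Manifold ContDiff Topology
open Set

noncomputable section

namespace TC

open Lvl

namespace MFD

theorem hF7 : 1 ≤ Module.finrank ℝ E7 := by simp

theorem isLocalHomeomorph_pM (h2 : EXP_S) (h3 : TOP_main) : IsLocalHomeomorph pM :=
  h3.2.2.isCoveringMap.isLocalHomeomorph.comp h2.2

theorem surjective_pM (h2 : EXP_S) : Function.Surjective pM := by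
  intro m
  obtain ⟨z, hz⟩ := Quotient.exists_rep m
  obtain ⟨x, rfl⟩ := h2.1 z
  exact ⟨x, hz⟩

theorem pM_gaff (h : H5) (b : Fin 8 → ℤ) (s : Lv fs) (h0 : fs (gaff h b s.1) = 0) :
    pM (Lv.mk (gaff h b s.1) h0) = pM s := by
  unfold pM
  rw [DCK.expM_gaff, qM_vadd]

theorem deck_pM : Deck fs pM := by
  intro x x' hx
  obtain ⟨h, b, hb⟩ := DCK.pM_eq hx
  refine ⟨gaff h b, hb, (DCK.contDiff_gaff h b).contDiffAt,
    Filter.Eventually.of_forall fun z => DCK.fs_gaff h b z, ?_,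
    Filter.Eventually.of_forall fun z h0 => pM_gaff h b z h0⟩
  rw [(DCK.hasFDerivAt_gaff h b x.1).fderiv, DCK.det_glin]
  exact one_pos

/-- The translation of the first angle. -/
def tr (t : ℝ) (s : E8) : E8 := s + EuclideanSpace.single 0 (Real.pi * t)

theorem tr_apply_ne (t : ℝ) (s : E8) (i : Fin 8) (hi : i ≠ 0) : tr t s i = s i := by
  simp [tr, hi]

theorem tr_apply_zero (t : ℝ) (s : E8) : tr t s 0 = s 0 + Real.pi * t := by
  simp [tr]

theorem fs_tr (t : ℝ) (s : E8) : fs (tr t s) = fs s := by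
  unfold fs
  rw [tr_apply_ne t s 4 (by decide), tr_apply_ne t s 5 (by decide), tr_apply_ne t s 6 (by decide),
    tr_apply_ne t s 7 (by decide)]

theorem expM_tr (t : ℝ) (s : Lv fs) (h0 : fs (tr t s.1) = 0) :
    expM (Lv.mk (tr t s.1) h0) = rotM t (expM s) := by
  apply Subtype.ext
  funext i
  by_cases hi : i = 0
  · subst hi
    rw [rotM_zero']
    change Circle.exp (tr t s.1 0) = Circle.exp (Real.pi * t) * Circle.exp (s.1 0)
    rw [tr_apply_zero, Circle.exp_add, mul_comm]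
  · rw [rotM_ne _ _ _ hi]
    change Circle.exp (tr t s.1 i) = Circle.exp (s.1 i)
    rw [tr_apply_ne t s.1 i hi]

theorem contDiff_tr : ContDiff ℝ ∞ (fun z : ℝ × E8 => tr z.1 z.2) := by
  unfold tr
  refine contDiff_snd.add ?_
  have h : (fun z : ℝ × E8 => (EuclideanSpace.single 0 (Real.pi * z.1) : E8)) =
      fun z : ℝ × E8 => (Real.pi * z.1) • (EuclideanSpace.single 0 (1 : ℝ) : E8) := by
    funext z
    ext i
    by_cases hi : i = 0
    · subst hi; simp
    · simp [hi]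
  rw [h]
  exact (contDiff_const.mul contDiff_fst).smul contDiff_const

theorem hasFDerivAt_tr (t : ℝ) (s : E8) :
    HasFDerivAt (tr t) (ContinuousLinearMap.id ℝ E8) s := by
  unfold tr
  exact (hasFDerivAt_id s).add_const _

end MFD

open MFD in
/-- The block MFD. -/
theorem mfd_main (h1' : REG_S) (h2 : EXP_S) (h3 : TOP_main) (h5 : FRM_S) : MFD_main := by
  have h1 : Reg fs := h1'
  have hp := isLocalHomeomorph_pM h2 h3
  have hs := surjective_pM h2
  let cs : ChartedSpace E7 Mq := csq L8 h1 hF7 hp hs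
  have hM : IsManifold (𝓡 7) ∞ Mq := (csq_isManifold L8 h1 hF7 hp hs deck_pM).1
  have hat : Compat L8 hp := by
    intro q a
    exact IsManifold.subset_maximalAtlas (I := 𝓘(ℝ, E7)) (n := ∞) ⟨q, a, rfl⟩
  obtain ⟨f1, f2, f3, f4, f5, f6⟩ := h5
  -- equivariance of the tangent vectors
  have hequi : ∀ (h : H5) (b : Fin 8 → ℤ) (x x' : Lv fs) (v : Fin 7 → ℝ), gaff h b x.1 = x'.1 →
      (tw L8 h1 hF7 hp x' (th x'.1 (sgv (chi7 h) v)) : TangentBundle 𝓘(ℝ, E7) Mq) =
        tw L8 h1 hF7 hp x (th x.1 v) := by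
    intro h b x x' v hx
    have h0 : fs (gaff h b x.1) = 0 := (DCK.fs_gaff h b x.1).trans x.2
    have hx' : x' = Lv.mk (gaff h b x.1) h0 := Subtype.ext hx.symm
    subst hx'
    have key := tw_push h1 hF7 hat (id : Mq → Mq) (gaff h b) (DCK.fs_gaff h b)
      (fun z => (pM_gaff h b z _).symm) x (DCK.contDiff_gaff h b).contDiffAt (th x.1 v) (f3 x v)
    rw [tangentMap_id, (DCK.hasFDerivAt_gaff h b x.1).fderiv, ← f5 h b x v] at key
    exact key.symm
  -- independence of the lift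
  have hind : ∀ (x x' : Lv fs) (v : Fin 7 → ℝ), expM x = expM x' →
      (tw L8 h1 hF7 hp x' (th x'.1 v) : TangentBundle 𝓘(ℝ, E7) Mq) =
        tw L8 h1 hF7 hp x (th x.1 v) := by
    intro x x' v hx
    choose k hk using DCK.expM_eq hx.symm
    have h6 : gaff 0 k x.1 = x'.1 := by
      ext i
      rw [hk i, DCK.gaff_apply]
      have h7 : epsS 0 i = 0 := by
        unfold epsS
        rw [map_zero, reS_zero, imS_zero, add_zero]
      have h8 : reS (chi12 0) i = 0 := by rw [map_zero, reS_zero]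
      rw [h7, sg_zero, if_pos h8]
      ring
    have h9 := hequi 0 k x x' v h6
    have h10 : sgv (chi7 0) v = v := by
      funext i
      simp [sgv, sg_zero]
    rw [h10] at h9
    exact h9
  -- the trivialisation
  let lift : Mh → Lv fs := fun z => (h2.1 z).choose
  have hlift : ∀ z, expM (lift z) = z := fun z => (h2.1 z).choose_spec
  have hex : ∀ z : Mh, ∃ Θz : (Fin 7 → ℝ) ≃ₗ[ℝ] TangentSpace (𝓡 7) (qM z), ∀ v,
      (⟨qM z, Θz v⟩ : TangentBundle (𝓡 7) Mq) = tw L8 h1 hF7 hp (lift z) (th (lift z).1 v) := by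
    intro z
    obtain ⟨D, hD1, hD2⟩ := tw_snd h1 hF7 hat (lift z)
    let T : (Fin 7 → ℝ) →ₗ[ℝ] E7 := D ∘ₗ (f2 (lift z).1).mk'
    have hT : Function.Injective T := by
      rw [injective_iff_map_eq_zero]
      intro v hv
      have h6 : D (th (lift z).1 v) = 0 := hv
      have h7 := hD2 _ (f3 (lift z) v) h6
      have h8 : th (lift z).1 v = th (lift z).1 0 := by
        rw [h7, (f2 (lift z).1).map_zero]
      exact f4 (lift z) h8
    let Θz : (Fin 7 → ℝ) ≃ₗ[ℝ] E7 := LinearEquiv.ofInjectiveOfFinrankEq T hT (by simp)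
    refine ⟨Θz, fun v => ?_⟩
    have hΘ : Θz v = T v := rfl
    have hproj : (tw L8 h1 hF7 hp (lift z) (th (lift z).1 v) : TangentBundle 𝓘(ℝ, E7) Mq).1 =
        qM z := by
      have h9 := tw_proj (L := L8) (hp := hp) h1 hF7 (lift z) (th (lift z).1 v)
      rw [h9]
      unfold pM
      rw [hlift]
    have hsnd : (tw L8 h1 hF7 hp (lift z) (th (lift z).1 v) : TangentBundle 𝓘(ℝ, E7) Mq).2 =
        Θz v := hD1 _
    have key : ∀ (A : TangentBundle 𝓘(ℝ, E7) Mq) (m : Mq) (u : E7), A.1 = m → A.2 = u →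
        (⟨m, u⟩ : TangentBundle 𝓘(ℝ, E7) Mq) = A := by
      rintro ⟨m', u'⟩ m u rfl rfl
      rfl
    exact key _ _ _ hproj hsnd
  choose Θ hΘ using hex
  have hΘ' : ∀ (x : Lv fs) (v : Fin 7 → ℝ),
      (⟨qM (expM x), Θ (expM x) v⟩ : TangentBundle (𝓡 7) Mq) = tw L8 h1 hF7 hp x (th x.1 v) := by
    intro x v
    rw [hΘ, hind x (lift (expM x)) v (hlift _).symm]
  refine ⟨cs, hM, Θ, ?_, ?_, ?_, ?_⟩
  · -- continuity
    have hq : IsOpenQuotientMap (Prod.map expM (id : (Fin 7 → ℝ) → (Fin 7 → ℝ))) :=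
      (IsOpenQuotientMap.mk h2.1 h2.2.continuous h2.2.isOpenMap).prodMap .id
    rw [hq.isQuotientMap.continuous_iff]
    have h6 : ((fun p : Mh × (Fin 7 → ℝ) => (⟨qM p.1, Θ p.1 p.2⟩ : TangentBundle (𝓡 7) Mq)) ∘
        Prod.map expM (id : (Fin 7 → ℝ) → (Fin 7 → ℝ))) =
        fun p : Lv fs × (Fin 7 → ℝ) => tw L8 h1 hF7 hp p.1 (th p.1.1 p.2) :=
      funext fun p => hΘ' p.1 p.2
    rw [h6]
    exact tw_continuous h1 hF7 hat _ _ continuous_fst f1 (fun p => f3 p.1 p.2)
  · -- equivariance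
    intro h z v
    obtain ⟨x, rfl⟩ := h2.1 z
    have h0 : fs (gaff h 0 x.1) = 0 := (DCK.fs_gaff h 0 x.1).trans x.2
    rw [← DCK.expM_gaff h 0 x h0, hΘ', hΘ']
    exact hequi h 0 x _ v rfl
  · -- smoothness of the circle action
    exact family_smooth h1 hF7 hs hat actM tr fs_tr
      (fun t z => by rw [pM, actM_mk, ← expM_tr t z ((fs_tr t z.1).trans z.2)]; rfl) contDiff_tr
  · -- the differential of the circle action
    intro t z v
    obtain ⟨x, rfl⟩ := h2.1 z
    have h0 : fs (tr t x.1) = 0 := (fs_tr t x.1).trans x.2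
    rw [← expM_tr t x h0, hΘ', hΘ']
    have key := tw_push h1 hF7 hat (actM t) (tr t) (fs_tr t)
      (fun z => by rw [pM, actM_mk, ← expM_tr t z ((fs_tr t z.1).trans z.2)]; rfl) x
      (hasFDerivAt_tr t x.1 |>.differentiableAt |> fun _ =>
        (contDiff_tr.comp (contDiff_const.prodMk contDiff_id)).contDiffAt) (th x.1 v) (f3 x v)
    rw [key, (hasFDerivAt_tr t x.1).fderiv]
    change tw L8 h1 hF7 hp (Lv.mk (tr t x.1) h0) (th x.1 v) =
      tw L8 h1 hF7 hp (Lv.mk (tr t x.1) h0) (th (tr t x.1) v)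
    have h9 : th (tr t x.1) v = th x.1 v := f6 x.1 (Real.pi * t) v
    rw [h9]

end TC
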