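import Pool.Agent.TC.Conc
import Pool.Agent.TC.LvlC

/-!
# Block MFD: definitions and statements of the modules

Angle coordinates `s` in the euclidean space of dimension `8`, the function `fs`, the projection
`pM : Lv fs → Mq`, the affine symmetries `gaff h b`, the tangent frame `th`.
-/

set_option autoImplicit false

open scoped Manifold ContDiff Topology
open Set

noncomputable section

namespace TC

open Lvl

/-- The space of the angles. -/
abbrev E8 := EuclideanSpace ℝ (Fin 8)

/-- The model space. -/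
abbrev E7 := EuclideanSpace ℝ (Fin 7)

/-- The function of the angles. -/
def fs (s : E8) : ℝ :=
  (2 - Real.cos (s 4) - Real.cos (s 5)) * (2 - Real.cos (s 6) - Real.cos (s 7)) - 2

/-- A linear isomorphism. -/
def L8 : E8 ≃L[ℝ] E7 × ℝ := ContinuousLinearEquiv.ofFinrankEq (by simp)

theorem levelF_exp (s : E8) : levelF (fun i => Circle.exp (s i)) = fs s + 2 := by
  simp only [levelF, fs, Circle.coe_exp, Complex.exp_ofReal_mul_I_re]
  ring

/-- The exponential map from the level set of `fs` to `Mh`. -/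
def expM (s : Lv fs) : Mh :=
  ⟨fun i => Circle.exp (s.1 i), by rw [levelF_exp, s.2]; norm_num⟩

/-- The projection from the level set of `fs` to `M`. -/
def pM (s : Lv fs) : Mq := qM (expM s)

/-- The sign by which `h` acts on the `i`-th angle. -/
def epsS (h : H5) (i : Fin 8) : ZMod 2 := reS (chi12 h) i + imS (chi12 h) i

/-- The affine symmetries of the space of the angles. -/
def gaff (h : H5) (b : Fin 8 → ℤ) (s : E8) : E8 :=
  WithLp.toLp 2 fun i => sg (epsS h i) * s i +
    (if reS (chi12 h) i = 0 then 0 else Real.pi) + 2 * Real.pi * b i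

/-- The linear part. -/
def glin (h : H5) : E8 →L[ℝ] E8 :=
  LinearMap.toContinuousLinearMap
    { toFun := fun s => WithLp.toLp 2 fun i => sg (epsS h i) * s i
      map_add' := fun s t => by ext i; simp [mul_add]
      map_smul' := fun c s => by ext i; simp; ring }

/-- The gradient of `fs` in the last four coordinates. -/
def grv (s : E8) : Fin 4 → ℝ :=
  ![(2 - Real.cos (s 6) - Real.cos (s 7)) * Real.sin (s 4),
    (2 - Real.cos (s 6) - Real.cos (s 7)) * Real.sin (s 5),
    (2 - Real.cos (s 4) - Real.cos (s 5)) * Real.sin (s 6),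
    (2 - Real.cos (s 4) - Real.cos (s 5)) * Real.sin (s 7)]

/-- Its norm. -/
def grn (s : E8) : ℝ := Real.sqrt (∑ i, grv s i ^ 2)

/-- The unit normal vector. -/
def nuv (s : E8) (i : Fin 4) : ℝ := grv s i / grn s

/-- The normal component of the last four coordinates of `v`. -/
def cth (s : E8) (v : Fin 7 → ℝ) : ℝ :=
  v 3 * nuv s 0 + v 4 * nuv s 1 + v 5 * nuv s 2 + v 6 * nuv s 3

/-- The frame of the tangent bundle of the level set. -/
def th (s : E8) (v : Fin 7 → ℝ) : E8 :=
  WithLp.toLp 2 ![v 0, cth s v, v 1, v 2,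
    v 3 - cth s v * nuv s 0, v 4 - cth s v * nuv s 1,
    v 5 - cth s v * nuv s 2, v 6 - cth s v * nuv s 3]

/-- MFD_REG: `fs` is smooth and `0` is a regular value. -/
def REG_S : Prop := Reg fs

/-- MFD_EXP: the exponential map is a surjective local homeomorphism. -/
def EXP_S : Prop := Function.Surjective expM ∧ IsLocalHomeomorph expM

/-- MFD_DCK: the symmetries. -/
def DCK_S : Prop :=
  (∀ h b s, fs (gaff h b s) = fs s) ∧
  (∀ h b (s : Lv fs) (h0 : fs (gaff h b s.1) = 0),
    expM (Lv.mk (gaff h b s.1) h0) = h +ᵥ expM s) ∧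
  (∀ s s' : Lv fs, pM s = pM s' → ∃ h b, gaff h b s.1 = s'.1) ∧
  (∀ h b s, HasFDerivAt (gaff h b) (glin h) s) ∧
  (∀ h, (glin h).det = 1) ∧ ∀ h b, ContDiff ℝ ∞ (gaff h b)

/-- MFD_FRM: the frame of the tangent bundle. -/
def FRM_S : Prop :=
  Continuous (fun p : Lv fs × (Fin 7 → ℝ) => th p.1.1 p.2) ∧
  (∀ s, IsLinearMap ℝ (th s)) ∧
  (∀ (s : Lv fs) v, fderiv ℝ fs s.1 (th s.1 v) = 0) ∧
  (∀ s : Lv fs, Function.Injective (th s.1)) ∧
  (∀ h b (s : Lv fs) v, th (gaff h b s.1) (sgv (chi7 h) v) = glin h (th s.1 v)) ∧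
  ∀ (s : E8) (t : ℝ) v, th (s + EuclideanSpace.single 0 t) v = th s v

end TC
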