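import Pool.Agent.TC.Conc

/-!
# Block SPN: the double cover of `SO(7)`, orthonormal frames, lifting systems and the cocycle `W`

`Gs` is the group of pairs `(A, S)`, `A ∈ SO(7)`, `S ∈ O(8)`, with
`S γ_j = (∑ i, A_ij γ_i) S` for the seven gamma matrices (`= Spin(7)`); `pG (A, S) = A` is the
double cover.  `OFr n` are the orthonormal `n`-frames in `ℓ²`.  A lifting system over
`f : X → BSO 7` chooses orthonormal frames over all singular simplices of `X` and lifts to `Gs` of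
the differences between the frame of a simplex and the frames of its faces; its cocycle `W`
represents `f^* w₂`.
-/

set_option autoImplicit false

open scoped RealInnerProductSpace Matrix

noncomputable section

namespace TC

/-! ## Gamma matrices and the group `Gs` -/

/-- The seven gamma matrices (integer entries). -/
def gamZ : Fin 7 → Matrix (Fin 8) (Fin 8) ℤ
  | 0 => !![0, 0, 0, 0, 0, 0, 0, 1; 0, 0, 0, 0, 0, 0, -1, 0; 0, 0, 0, 0, 0, -1, 0, 0;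
            0, 0, 0, 0, 1, 0, 0, 0; 0, 0, 0, -1, 0, 0, 0, 0; 0, 0, 1, 0, 0, 0, 0, 0;
            0, 1, 0, 0, 0, 0, 0, 0; -1, 0, 0, 0, 0, 0, 0, 0]
  | 1 => !![0, 0, 0, 1, 0, 0, 0, 0; 0, 0, -1, 0, 0, 0, 0, 0; 0, 1, 0, 0, 0, 0, 0, 0;
            -1, 0, 0, 0, 0, 0, 0, 0; 0, 0, 0, 0, 0, 0, 0, 1; 0, 0, 0, 0, 0, 0, -1, 0;
            0, 0, 0, 0, 0, 1, 0, 0; 0, 0, 0, 0, -1, 0, 0, 0]
  | 2 => !![0, 1, 0, 0, 0, 0, 0, 0; -1, 0, 0, 0, 0, 0, 0, 0; 0, 0, 0, -1, 0, 0, 0, 0;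
            0, 0, 1, 0, 0, 0, 0, 0; 0, 0, 0, 0, 0, 1, 0, 0; 0, 0, 0, 0, -1, 0, 0, 0;
            0, 0, 0, 0, 0, 0, 0, -1; 0, 0, 0, 0, 0, 0, 1, 0]
  | 3 => !![0, 0, 0, 0, 0, 0, 1, 0; 0, 0, 0, 0, 0, 0, 0, 1; 0, 0, 0, 0, -1, 0, 0, 0;
            0, 0, 0, 0, 0, -1, 0, 0; 0, 0, 1, 0, 0, 0, 0, 0; 0, 0, 0, 1, 0, 0, 0, 0;
            -1, 0, 0, 0, 0, 0, 0, 0; 0, -1, 0, 0, 0, 0, 0, 0]
  | 4 => !![0, 0, 1, 0, 0, 0, 0, 0; 0, 0, 0, 1, 0, 0, 0, 0; -1, 0, 0, 0, 0, 0, 0, 0;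
            0, -1, 0, 0, 0, 0, 0, 0; 0, 0, 0, 0, 0, 0, -1, 0; 0, 0, 0, 0, 0, 0, 0, -1;
            0, 0, 0, 0, 1, 0, 0, 0; 0, 0, 0, 0, 0, 1, 0, 0]
  | 5 => !![0, 0, 0, 0, 0, 1, 0, 0; 0, 0, 0, 0, 1, 0, 0, 0; 0, 0, 0, 0, 0, 0, 0, 1;
            0, 0, 0, 0, 0, 0, 1, 0; 0, -1, 0, 0, 0, 0, 0, 0; -1, 0, 0, 0, 0, 0, 0, 0;
            0, 0, 0, -1, 0, 0, 0, 0; 0, 0, -1, 0, 0, 0, 0, 0]
  | 6 => !![0, 0, 0, 0, 1, 0, 0, 0; 0, 0, 0, 0, 0, -1, 0, 0; 0, 0, 0, 0, 0, 0, 1, 0;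
            0, 0, 0, 0, 0, 0, 0, -1; -1, 0, 0, 0, 0, 0, 0, 0; 0, 1, 0, 0, 0, 0, 0, 0;
            0, 0, -1, 0, 0, 0, 0, 0; 0, 0, 0, 1, 0, 0, 0, 0]

/-- The seven gamma matrices. -/
def gam (i : Fin 7) : Matrix (Fin 8) (Fin 8) ℝ := (gamZ i).map (Int.cast : ℤ → ℝ)

/-- The orthogonal groups in dimensions 7 and 8. -/
abbrev O7 := Matrix.orthogonalGroup (Fin 7) ℝ
/-- The orthogonal group in dimension 8. -/
abbrev O8 := Matrix.orthogonalGroup (Fin 8) ℝ

/-- The special orthogonal group in dimension 7. -/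
def SO7 : Subgroup O7 where
  carrier := {A | (A : Matrix (Fin 7) (Fin 7) ℝ).det = 1}
  one_mem' := by simp
  mul_mem' := by
    intro A B hA hB
    simp only [Set.mem_ofPred_eq] at hA hB ⊢
    rw [Submonoid.coe_mul, Matrix.det_mul, hA, hB, one_mul]
  inv_mem' := by
    intro A hA
    simp only [Set.mem_ofPred_eq] at hA ⊢
    have h : (A⁻¹ * A : O7) = 1 := inv_mul_cancel A
    have h2 : ((A⁻¹ : O7) : Matrix (Fin 7) (Fin 7) ℝ).det *
        (A : Matrix (Fin 7) (Fin 7) ℝ).det = 1 := by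
      rw [← Matrix.det_mul, ← Submonoid.coe_mul, h]
      simp
    rwa [hA, mul_one] at h2

/-- The matrix of an element of `SO(7)`. -/
def smat (A : SO7) : Matrix (Fin 7) (Fin 7) ℝ := A.1.1

theorem smat_mul (A B : SO7) : smat (A * B) = smat A * smat B := rfl

theorem smat_one : smat 1 = 1 := rfl

theorem smat_inj {A B : SO7} (h : smat A = smat B) : A = B := Subtype.ext (Subtype.ext h)

theorem smat_mul_transpose (A : SO7) : smat A * (smat A)ᵀ = 1 :=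
  (Matrix.mem_orthogonalGroup_iff (Fin 7) ℝ).mp A.1.2

theorem smat_transpose_mul (A : SO7) : (smat A)ᵀ * smat A = 1 :=
  (Matrix.mem_orthogonalGroup_iff' (Fin 7) ℝ).mp A.1.2

theorem smat_det (A : SO7) : (smat A).det = 1 := A.2

/-- An element of `SO(7)` from a matrix. -/
def SO7of (M : Matrix (Fin 7) (Fin 7) ℝ) (h : M * Mᵀ = 1) (hd : M.det = 1) : SO7 :=
  ⟨⟨M, (Matrix.mem_orthogonalGroup_iff (Fin 7) ℝ).mpr h⟩, hd⟩

theorem smat_SO7of (M : Matrix (Fin 7) (Fin 7) ℝ) (h : M * Mᵀ = 1) (hd : M.det = 1) :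
    smat (SO7of M h hd) = M := rfl

/-- The image of the `j`-th basis vector under `A`, as a combination of gamma matrices. -/
def twist (A : SO7) (j : Fin 7) : Matrix (Fin 8) (Fin 8) ℝ := ∑ i, smat A i j • gam i

theorem twist_mul (A B : SO7) (j : Fin 7) : twist (A * B) j = ∑ i, smat B i j • twist A i := by
  unfold twist
  simp only [smat_mul, Matrix.mul_apply, Finset.smul_sum, smul_smul, Finset.sum_smul]
  rw [Finset.sum_comm]
  exact Finset.sum_congr rfl fun i _ => Finset.sum_congr rfl fun k _ => by rw [mul_comm]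

theorem twist_one (j : Fin 7) : twist 1 j = gam j := by
  unfold twist
  simp [smat_one, Matrix.one_apply, ite_smul]

/-- The group `Spin(7)`: pairs `(A, S)` with `S γ_j = (∑ i, A_ij γ_i) S`. -/
def Gs : Subgroup (SO7 × O8) where
  carrier := {g | ∀ j, (g.2 : Matrix (Fin 8) (Fin 8) ℝ) * gam j = twist g.1 j * g.2}
  one_mem' := by
    intro j
    simp [twist_one]
  mul_mem' := by
    intro g h hg hh j
    simp only [Set.mem_ofPred_eq] at hg hh
    show ((g.2 * h.2 : O8) : Matrix (Fin 8) (Fin 8) ℝ) * gam j =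
      twist (g.1 * h.1) j * ((g.2 * h.2 : O8) : Matrix (Fin 8) (Fin 8) ℝ)
    rw [Submonoid.coe_mul, mul_assoc, hh j]
    rw [twist_mul]
    have : (g.2 : Matrix (Fin 8) (Fin 8) ℝ) * twist h.1 j =
        (∑ i, smat h.1 i j • twist g.1 i) * g.2 := by
      unfold twist
      rw [Finset.mul_sum, Finset.sum_mul]
      refine Finset.sum_congr rfl fun i _ => ?_
      rw [mul_smul_comm, hg i, smul_mul_assoc]
      rfl
    rw [← mul_assoc, this, mul_assoc]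
  inv_mem' := by
    intro g hg j
    simp only [Set.mem_ofPred_eq] at hg
    show ((g.2⁻¹ : O8) : Matrix (Fin 8) (Fin 8) ℝ) * gam j =
      twist (g.1⁻¹) j * ((g.2⁻¹ : O8) : Matrix (Fin 8) (Fin 8) ℝ)
    have h1 : ((g.2⁻¹ : O8) : Matrix (Fin 8) (Fin 8) ℝ) * (g.2 : Matrix (Fin 8) (Fin 8) ℝ) = 1 := by
      rw [← Submonoid.coe_mul, inv_mul_cancel]; rfl
    have h2 : (g.2 : Matrix (Fin 8) (Fin 8) ℝ) * ((g.2⁻¹ : O8) : Matrix (Fin 8) (Fin 8) ℝ) = 1 := by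
      rw [← Submonoid.coe_mul, mul_inv_cancel]; rfl
    have h3 : (g.2 : Matrix (Fin 8) (Fin 8) ℝ) * twist (g.1⁻¹) j = gam j * g.2 := by
      have e1 : (g.2 : Matrix (Fin 8) (Fin 8) ℝ) * twist (g.1⁻¹) j =
          (∑ i, smat (g.1⁻¹) i j • twist g.1 i) * g.2 := by
        rw [twist, Finset.mul_sum, Finset.sum_mul]
        refine Finset.sum_congr rfl fun i _ => ?_
        rw [mul_smul_comm, hg i, smul_mul_assoc]
      rw [e1, ← twist_mul, mul_inv_cancel, twist_one]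
    calc ((g.2⁻¹ : O8) : Matrix (Fin 8) (Fin 8) ℝ) * gam j
        = ((g.2⁻¹ : O8) : Matrix (Fin 8) (Fin 8) ℝ) * (gam j * g.2) *
            ((g.2⁻¹ : O8) : Matrix (Fin 8) (Fin 8) ℝ) := by
          rw [mul_assoc, mul_assoc, h2, mul_one]
      _ = ((g.2⁻¹ : O8) : Matrix (Fin 8) (Fin 8) ℝ) * (g.2 * twist (g.1⁻¹) j) *
            ((g.2⁻¹ : O8) : Matrix (Fin 8) (Fin 8) ℝ) := by rw [h3]
      _ = twist (g.1⁻¹) j * ((g.2⁻¹ : O8) : Matrix (Fin 8) (Fin 8) ℝ) := by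
          rw [← mul_assoc, h1, one_mul]

/-- The double cover `Spin(7) → SO(7)`. -/
def pG : Gs →* SO7 := (MonoidHom.fst SO7 O8).comp Gs.subtype

/-- The matrix `S` of an element of `Gs`. -/
def spn (g : Gs) : Matrix (Fin 8) (Fin 8) ℝ := g.1.2.1

/-- The element `(1, -1)` of `Gs`. -/
def mneg : Gs := ⟨(1, ⟨-1, (Matrix.mem_orthogonalGroup_iff (Fin 8) ℝ).mpr (by simp)⟩), by
  intro j
  simp [twist_one]⟩

open Classical in
/-- The sign between two elements of `Gs` over the same element of `SO(7)`: `0` if they are equal,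
`1` otherwise. -/
def sgn (g h : Gs) : F2 := if g = h then 0 else 1

/-! ## Orthonormal frames -/

/-- Orthonormal `n`-frames in `ℓ²`. -/
abbrev OFr (n : ℕ) := {v : Fin n → L2 // Orthonormal ℝ v}

/-- The oriented subspace spanned by an orthonormal frame. -/
def ocls {n : ℕ} (v : OFr n) : BSO n := BSO.mk ⟨v.1, v.2.linearIndependent⟩

/-- The matrix `⟪v_i, w_j⟫`; if `v`, `w` are orthonormal frames of the same oriented subspace, then
`w_j = ∑ i, dif v w i j • v_i`. -/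
def dif {n : ℕ} (v w : OFr n) : Matrix (Fin n) (Fin n) ℝ := fun i j => ⟪v.1 i, w.1 j⟫

/-! ## Lifting systems -/

variable {X : Type} [TopologicalSpace X]

/-- A lifting system over `f : X → BSO 7`: orthonormal frames `fr σ` over all singular simplices
`σ` of `X`, and lifts to `Gs` of the differences between `fr (σ ∘ θ)` and `(fr σ) ∘ θ` for all
maps `θ` of vertices. -/
structure LiftSys (f : C(X, BSO 7)) where
  fr : ∀ {k : ℕ}, C(Simp k, X) → C(Simp k, OFr 7)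
  ov : ∀ {k : ℕ} (σ : C(Simp k, X)) (t : Simp k), ocls (fr σ t) = f (σ t)
  lft : ∀ {m k : ℕ}, C(Simp k, X) → (Fin (m + 1) → Fin (k + 1)) → C(Simp m, Gs)
  lft_p : ∀ {m k : ℕ} (σ : C(Simp k, X)) (θ : Fin (m + 1) → Fin (k + 1)) (t : Simp m),
    smat (pG (lft σ θ t)) = dif (fr (σ.comp (smap θ)) t) (fr σ (smap θ t))

/-- The sign of a composition of two maps of vertices, for a singular simplex `σ`. -/
def LiftSys.sig {f : C(X, BSO 7)} (𝓛 : LiftSys f) {l m k : ℕ} (σ : C(Simp k, X))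
    (η : Fin (m + 1) → Fin (k + 1)) (θ : Fin (l + 1) → Fin (m + 1)) : F2 :=
  sgn (𝓛.lft (σ.comp (smap η)) θ (vtx 0) * 𝓛.lft σ η (smap θ (vtx 0))) (𝓛.lft σ (η ∘ θ) (vtx 0))

/-- The cochain of a lifting system, which represents `f^* w₂`: the sum of the signs of all flags
vertex `<` edge `<` triangle. -/
def LiftSys.W {f : C(X, BSO 7)} (𝓛 : LiftSys f) : Coch X 2 := fun σ =>
  ∑ i : Fin 3, ∑ j : Fin 2, 𝓛.sig (l := 0) (m := 1) (k := 2) σ i.succAbove j.succAbove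

/-- The pull back of a lifting system under a continuous map. -/
def LiftSys.pull {Y : Type} [TopologicalSpace Y] {f : C(X, BSO 7)} (𝓛 : LiftSys f)
    (h : C(Y, X)) : LiftSys (f.comp h) where
  fr σ := 𝓛.fr (h.comp σ)
  ov σ t := 𝓛.ov (h.comp σ) t
  lft σ θ := 𝓛.lft (h.comp σ) θ
  lft_p σ θ t := 𝓛.lft_p (h.comp σ) θ t

theorem LiftSys.W_pull {Y : Type} [TopologicalSpace Y] {f : C(X, BSO 7)} (𝓛 : LiftSys f)
    (h : C(Y, X)) : (𝓛.pull h).W = TC.pull h 𝓛.W := rfl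

/-! ## Signed trivialisations over a quotient covering -/

/-- The value of the cocycle `∑_{j ≤ i} v_{χ_j} ∪ v_{χ_i}` on a singular triangle of `E = Z / H`
which lifts to the triangle `τ` of `Z`: `label : Z → H` is an equivariant labelling, `χ` a
homomorphism `H → (ℤ/2)^7`. -/
def omegaVal {Z H : Type} [TopologicalSpace Z] [AddCommGroup H] (label : Z → H)
    (χ : H →+ (Fin 7 → ZMod 2)) (τ : C(Simp 2, Z)) : F2 :=
  ∑ i : Fin 7, ∑ j : Fin 7, if j ≤ i then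
    χ (label (τ (vtx 1)) - label (τ (vtx 0))) j * χ (label (τ (vtx 2)) - label (τ (vtx 1))) i
  else 0

end TC
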