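import Pool.Agent.TC.SpnStmts
import Pool.Agent.TC.Iface

/-!
# Module SPN_FIN: the interface `C_MAIN` from the main theorem of the block SPN
-/

set_option autoImplicit false

open scoped RealInnerProductSpace Matrix Topology

noncomputable section

namespace TC

namespace FIN

/-- The family of characters as a homomorphism. -/
def chiHom {A : Type} [AddCommGroup A] (χ : Fin 7 → (A →+ ZMod 2)) : A →+ (Fin 7 → ZMod 2) where
  toFun h := fun i => χ i h
  map_zero' := by funext i; simp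
  map_add' a b := by funext i; simp

theorem chiHom_apply {A : Type} [AddCommGroup A] (χ : Fin 7 → (A →+ ZMod 2)) (h : A) (i : Fin 7) :
    chiHom χ h i = χ i h := rfl

/-- The label of a path is the label difference of any lift. -/
theorem edgeLab_eq (h2 : SPN_LZ) {Z E H : Type} [TopologicalSpace Z] [TopologicalSpace E]
    [AddCommGroup H] [AddAction H Z] (q : Z → E) (hq : IsAddQuotientCoveringMap q H)
    (lab : Z → H) (hlab : ∀ (h : H) (z : Z), lab (h +ᵥ z) = h + lab z)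
    (τ : C(Simp 1, E)) (τ' : C(Simp 1, Z)) (hτ : ∀ t, q (τ' t) = τ t) :
    edgeLab q lab τ = lab (τ' (vtx 1)) - lab (τ' (vtx 0)) := by
  have hex : ∃ τ' : C(Simp 1, Z), ∀ t, q (τ' t) = τ t := ⟨τ', hτ⟩
  unfold edgeLab
  rw [dif_pos hex]
  have hc : ∀ t, q (hex.choose t) = τ t := hex.choose_spec
  have key := (h2 q hq lab hlab).2 hex.choose τ' (fun t => by rw [hc, hτ]) (vtx 0) (vtx 1)
  rw [key, hlab]
  abel

end FIN

theorem spn_fin (h1 : SPN_MAIN) (h2 : SPN_LZ) : C_MAIN := by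
  obtain ⟨W, hW, h⟩ := h1
  refine ⟨W, hW, ?_⟩
  intro r Z E _ _ _ q hq lab hlab f L hL χ hχ hLs hf
  obtain ⟨b, hb⟩ := h q hq lab hlab (FIN.chiHom χ) hχ f ⟨L, hL⟩ hf hLs
  refine ⟨b, ?_⟩
  funext σ
  obtain ⟨τ, hτ, -⟩ := (h2 q hq lab hlab).1 σ
  rw [hb σ τ hτ]
  have e1 : edgeLab q lab (res (m := 1) σ ![0, 1]) = lab (τ (vtx 1)) - lab (τ (vtx 0)) := by
    have := FIN.edgeLab_eq h2 q hq lab hlab (res (m := 1) σ ![0, 1]) (res (m := 1) τ ![0, 1])
      (fun t => hτ _)
    rw [this]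
    show lab (τ (smap _ (vtx 1))) - lab (τ (smap _ (vtx 0))) = _
    rw [smap_vtx, smap_vtx]
    rfl
  have e2 : edgeLab q lab (res (m := 1) σ ![1, 2]) = lab (τ (vtx 2)) - lab (τ (vtx 1)) := by
    have := FIN.edgeLab_eq h2 q hq lab hlab (res (m := 1) σ ![1, 2]) (res (m := 1) τ ![1, 2])
      (fun t => hτ _)
    rw [this]
    show lab (τ (smap _ (vtx 1))) - lab (τ (smap _ (vtx 0))) = _
    rw [smap_vtx, smap_vtx]
    rfl
  show omegaVal lab (FIN.chiHom χ) τ + cobd b σ = omegaC q lab χ σ + cobd b σ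
  congr 1
  unfold omegaVal omegaC vch
  rw [e1, e2]
  rfl

end TC
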