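import Pool.Agent.TC.SpnStmts
import Pool.Agent.TC.SpnGam
import Pool.Agent.TC.SpnKer
import Pool.Agent.TC.SpnSgn
import Pool.Agent.TC.SpnSurj
import Pool.Agent.TC.SpnCov
import Pool.Agent.TC.SpnLiftG
import Pool.Agent.TC.SpnSl
import Pool.Agent.TC.SpnDif
import Pool.Agent.TC.SpnGs
import Pool.Agent.TC.SpnOpn
import Pool.Agent.TC.SpnPrj
import Pool.Agent.TC.SpnDet
import Pool.Agent.TC.SpnStep
import Pool.Agent.TC.SpnLift
import Pool.Agent.TC.SpnSys
import Pool.Agent.TC.SpnSig
import Pool.Agent.TC.SpnCoc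
import Pool.Agent.TC.SpnCmpa
import Pool.Agent.TC.SpnCmp
import Pool.Agent.TC.SpnLz
import Pool.Agent.TC.SpnQsy
import Pool.Agent.TC.SpnMain
import Pool.Agent.TC.SpnFin

/-! Block SPN, assembly: `TC.c_main : C_MAIN`. -/

namespace TC

theorem c_main : C_MAIN := by
  have gam : SPN_GAM := spn_gam
  have ker : SPN_KER := spn_ker gam
  have sgn : SPN_SGN := spn_sgn ker
  have surj : SPN_SURJ := spn_surj gam
  have cov : SPN_COV := spn_cov ker surj
  have liftg : SPN_LIFTG := spn_liftg ker surj cov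
  have sl : SPN_SL := spn_sl gam
  have dif : SPN_DIF := spn_dif
  have gs : SPN_GS := spn_gs
  have opn : SPN_OPN := spn_opn gs dif
  have prj : SPN_PRJ := spn_prj opn dif
  have det : SPN_DET := spn_det opn dif
  have step : SPN_STEP := spn_step
  have lift : SPN_LIFT := spn_lift gs prj det step
  have sys : SPN_SYS := spn_sys dif liftg lift
  have sig : SPN_SIG := spn_sig dif sgn liftg
  have coc : SPN_COC := spn_coc sig
  have cmpa : SPN_CMPA := spn_cmpa dif sgn liftg
  have cmp : SPN_CMP := spn_cmp cmpa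
  have lz : SPN_LZ := spn_lz
  have qsy : SPN_QSY := spn_qsy dif gs sl lz
  have main : SPN_MAIN := spn_main sys coc cmp qsy
  exact spn_fin main lz

end TC
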