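import Pool.Agent.TC.SpnDefs

/-!
# Block SPN: statements of the modules

Every module file contains one theorem whose type is one of the propositions below (with the
earlier propositions that it needs as hypotheses).  Proof sketches are in `SPN.md`.
-/

set_option autoImplicit false

open scoped RealInnerProductSpace Matrix Topology

noncomputable section

namespace TC

/-! ## Small lemmas on maps of simplices -/

theorem smap_comp {l m k : ℕ} (η : Fin (m + 1) → Fin (k + 1)) (θ : Fin (l + 1) → Fin (m + 1)) :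
    (smap η).comp (smap θ) = smap (η ∘ θ) := by
  ext1 t
  exact stdSimplex.map_comp_apply θ η t

theorem smap_vtx {m k : ℕ} (θ : Fin (m + 1) → Fin (k + 1)) (i : Fin (m + 1)) :
    smap θ (vtx i) = vtx (θ i) := stdSimplex.map_vertex θ i

theorem comp_smap {X : Type} [TopologicalSpace X] {l m k : ℕ} (σ : C(Simp k, X))
    (η : Fin (m + 1) → Fin (k + 1)) (θ : Fin (l + 1) → Fin (m + 1)) :
    (σ.comp (smap η)).comp (smap θ) = σ.comp (smap (η ∘ θ)) := by
  rw [ContinuousMap.comp_assoc, smap_comp]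

theorem simp0_eq (t : Simp 0) : t = vtx 0 := Subsingleton.elim _ _

/-! ## The group `Gs` -/

/-- Clifford relations of the gamma matrices, and Schur's lemma. -/
def SPN_GAM : Prop :=
  (∀ i, (gam i)ᵀ = -gam i) ∧ (∀ i, gam i * gam i = -1) ∧
  (∀ i j, i ≠ j → gam i * gam j = -(gam j * gam i)) ∧
  (∀ M : Matrix (Fin 8) (Fin 8) ℝ, (∀ i, M * gam i = gam i * M) → ∃ c : ℝ, M = c • 1)

/-- The kernel of the double cover. -/
def SPN_KER : Prop :=
  pG mneg = 1 ∧ mneg ≠ 1 ∧ mneg * mneg = 1 ∧ (∀ g : Gs, mneg * g = g * mneg) ∧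
  ∀ g h : Gs, pG g = pG h → h = g ∨ h = mneg * g

/-- Rules for signs. -/
def SPN_SGN : Prop :=
  (∀ g, sgn g g = 0) ∧ (∀ g h, sgn g h = sgn h g) ∧
  (∀ g h k : Gs, pG g = pG h → pG h = pG k → sgn g k = sgn g h + sgn h k) ∧
  (∀ a g h : Gs, sgn (a * g) (a * h) = sgn g h) ∧
  (∀ a g h : Gs, sgn (g * a) (h * a) = sgn g h)

/-- The double cover is surjective (Cartan-Dieudonné). -/
def SPN_SURJ : Prop := Function.Surjective pG

/-- The double cover is a covering map. -/
def SPN_COV : Prop := IsCoveringMap (pG : Gs → SO7)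

/-- Maps of simplices to `SO(7)` lift to `Gs`, and the sign between two lifts is constant. -/
def SPN_LIFTG : Prop :=
  (∀ {k : ℕ} (a : C(Simp k, SO7)), ∃ g : C(Simp k, Gs), ∀ t, pG (g t) = a t) ∧
  (∀ {k : ℕ} (g h : C(Simp k, Gs)), (∀ t, pG (g t) = pG (h t)) →
    ∀ t t', sgn (g t) (h t) = sgn (g t') (h t'))

/-- Lifts to `Gs` of the diagonal sign matrices: the products of gamma matrices. -/
def SPN_SL : Prop :=
  ∃ sl : (Fin 7 → ZMod 2) → Gs, sl 0 = 1 ∧
    (∀ a : Fin 7 → ZMod 2, ∑ i, a i = 0 →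
      smat (pG (sl a)) = Matrix.diagonal fun i => sg (a i)) ∧
    ∀ a b : Fin 7 → ZMod 2, ∑ i, a i = 0 → ∑ i, b i = 0 →
      sgn (sl a * sl b) (sl (a + b)) = ∑ i, ∑ j, if j ≤ i then a i * b j else 0

/-! ## Orthonormal frames and the oriented Grassmannian -/

/-- The difference of two orthonormal frames of the same oriented subspace. -/
def SPN_DIF : Prop :=
  (∀ {n : ℕ} (v w : OFr n), ocls v = ocls w → dif v w * (dif v w)ᵀ = 1 ∧ (dif v w).det = 1 ∧
    ∀ j, w.1 j = ∑ i, dif v w i j • v.1 i) ∧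
  (∀ {n : ℕ} (v w : OFr n) (A : Matrix (Fin n) (Fin n) ℝ), (∀ j, w.1 j = ∑ i, A i j • v.1 i) →
    dif v w = A ∧ (0 < A.det → ocls v = ocls w)) ∧
  (∀ {n : ℕ} (u v w : OFr n), ocls u = ocls v → ocls v = ocls w →
    dif u v * dif v w = dif u w) ∧
  (∀ {n : ℕ}, Continuous fun p : OFr n × OFr n => dif p.1 p.2)

/-- Continuous Gram-Schmidt orthonormalisation. -/
def SPN_GS : Prop :=
  ∀ n : ℕ, ∃ gs : C(Frames n, OFr n), (∀ v, ocls (gs v) = BSO.mk v) ∧
    ∀ (ε : Fin n → ℝ), (∀ i, ε i = 1 ∨ ε i = -1) → ∀ v w : Frames n,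
      (∀ i, w.1 i = ε i • v.1 i) → ∀ i, (gs w).1 i = ε i • (gs v).1 i

/-- The projection from orthonormal frames to the Grassmannian is an open quotient map. -/
def SPN_OPN : Prop := ∀ n : ℕ, IsOpenQuotientMap (ocls : OFr n → BSO n)

/-- The orthogonal projections onto the subspaces depend continuously on the point of `BSO n`. -/
def SPN_PRJ : Prop :=
  ∀ n : ℕ, ∃ P : BSO n → L2 →L[ℝ] L2, Continuous P ∧
    ∀ (v : OFr n) (x : L2), P (ocls v) x = ∑ i, ⟪v.1 i, x⟫ • v.1 i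

/-- The signed cosine of the angle of two oriented subspaces. -/
def SPN_DET : Prop :=
  ∀ n : ℕ, ∃ D : BSO n × BSO n → ℝ, Continuous D ∧
    ∀ v w : OFr n, D (ocls v, ocls w) = (dif v w).det

/-- The projection of an orthonormal frame `v` to the subspace of `w` is a positive frame of it if
the signed cosine of the angle is positive. -/
def SPN_STEP : Prop :=
  ∀ {n : ℕ} (v w : OFr n), 0 < (dif v w).det →
    ∃ h : LinearIndependent ℝ (fun i => ∑ k, ⟪w.1 k, v.1 i⟫ • w.1 k), BSO.mk ⟨_, h⟩ = ocls w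

/-- Singular simplices of `BSO n` lift to orthonormal frames. -/
def SPN_LIFT : Prop :=
  ∀ {n k : ℕ} (σ : C(Simp k, BSO n)), ∃ L : C(Simp k, OFr n), ∀ t, ocls (L t) = σ t

/-! ## Lifting systems -/

/-- There is a universal lifting system. -/
def SPN_SYS : Prop := Nonempty (LiftSys (ContinuousMap.id (BSO 7)))

/-- The sign of a composition can be computed at every point, and the cocycle identity. -/
def SPN_SIG : Prop :=
  ∀ {X : Type} [TopologicalSpace X] {f : C(X, BSO 7)} (𝓛 : LiftSys f),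
    (∀ {l m k : ℕ} (σ : C(Simp k, X)) (η : Fin (m + 1) → Fin (k + 1))
      (θ : Fin (l + 1) → Fin (m + 1)) (t : Simp l),
      sgn (𝓛.lft (σ.comp (smap η)) θ t * 𝓛.lft σ η (smap θ t)) (𝓛.lft σ (η ∘ θ) t) =
        𝓛.sig σ η θ) ∧
    (∀ {a l m k : ℕ} (σ : C(Simp k, X)) (η : Fin (m + 1) → Fin (k + 1))
      (θ : Fin (l + 1) → Fin (m + 1)) (ξ : Fin (a + 1) → Fin (l + 1)),
      𝓛.sig (σ.comp (smap η)) θ ξ + 𝓛.sig σ η (θ ∘ ξ) = 𝓛.sig σ (η ∘ θ) ξ + 𝓛.sig σ η θ)

/-- The cochain of a lifting system is a cocycle. -/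
def SPN_COC : Prop :=
  ∀ {X : Type} [TopologicalSpace X] {f : C(X, BSO 7)} (𝓛 : LiftSys f), cobd 𝓛.W = 0

/-- Two lifting systems over the same map: comparison signs `e σ θ` with the homotopy identity. -/
def SPN_CMPA : Prop :=
  ∀ {X : Type} [TopologicalSpace X] {f : C(X, BSO 7)} (𝓛 𝓛' : LiftSys f),
    ∃ e : ∀ {m k : ℕ}, C(Simp k, X) → (Fin (m + 1) → Fin (k + 1)) → F2,
      ∀ {l m k : ℕ} (σ : C(Simp k, X)) (η : Fin (m + 1) → Fin (k + 1))
        (θ : Fin (l + 1) → Fin (m + 1)),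
        𝓛.sig σ η θ = 𝓛'.sig σ η θ + (e (σ.comp (smap η)) θ + e σ η + e σ (η ∘ θ))

/-- Two lifting systems over the same map have cohomologous cocycles. -/
def SPN_CMP : Prop :=
  ∀ {X : Type} [TopologicalSpace X] {f : C(X, BSO 7)} (𝓛 𝓛' : LiftSys f),
    ∃ b : Coch X 1, 𝓛.W = 𝓛'.W + cobd b

/-! ## Quotient coverings -/

/-- Lifts of simplices through a quotient covering with an equivariant labelling. -/
def SPN_LZ : Prop :=
  ∀ {Z E H : Type} [TopologicalSpace Z] [TopologicalSpace E] [AddCommGroup H] [AddAction H Z]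
    (q : Z → E) (_ : IsAddQuotientCoveringMap q H) (label : Z → H)
    (_ : ∀ (h : H) (z : Z), label (h +ᵥ z) = h + label z),
    (∀ {k : ℕ} (σ : C(Simp k, E)), ∃ τ : C(Simp k, Z), (∀ t, q (τ t) = σ t) ∧
      label (τ (vtx 0)) = 0) ∧
    (∀ {k : ℕ} (τ τ' : C(Simp k, Z)), (∀ t, q (τ t) = q (τ' t)) → ∀ s t : Simp k,
      τ' t = (label (τ' s) - label (τ s)) +ᵥ τ t)

/-- The lifting system given by a map of the covering to the frames, and its cocycle. -/
def SPN_QSY : Prop :=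
  ∀ {Z E H : Type} [TopologicalSpace Z] [TopologicalSpace E] [AddCommGroup H] [AddAction H Z]
    (q : Z → E) (_ : IsAddQuotientCoveringMap q H) (label : Z → H)
    (_ : ∀ (h : H) (z : Z), label (h +ᵥ z) = h + label z)
    (χ : H →+ (Fin 7 → ZMod 2)) (_ : ∀ h, ∑ i, χ h i = 0) (f : C(E, BSO 7))
    (L : C(Z, Frames 7)) (_ : ∀ z, f (q z) = BSO.mk (L z))
    (_ : ∀ (h : H) (z : Z) (i : Fin 7), (L (h +ᵥ z)).1 i = sg (χ h i) • (L z).1 i),
    ∃ 𝓛 : LiftSys f, ∀ (σ : C(Simp 2, E)) (τ : C(Simp 2, Z)), (∀ t, q (τ t) = σ t) →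
      𝓛.W σ = omegaVal label χ τ

/-- The main theorem of the block: there is a cocycle `W` on `BSO 7` such that, for every quotient
covering `q : Z → E` and every map `f : E → BSO 7` which is covered by frames `L` on `Z` on which
the group acts by signs (with trivial product), `f^* W` is cohomologous to the explicit cocycle
`∑_{j ≤ i} v_{χ_j} ∪ v_{χ_i}`. -/
def SPN_MAIN : Prop :=
  ∃ W : Coch (BSO 7) 2, cobd W = 0 ∧
    ∀ {Z E H : Type} [TopologicalSpace Z] [TopologicalSpace E] [AddCommGroup H] [AddAction H Z]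
      (q : Z → E) (_ : IsAddQuotientCoveringMap q H) (label : Z → H)
      (_ : ∀ (h : H) (z : Z), label (h +ᵥ z) = h + label z)
      (χ : H →+ (Fin 7 → ZMod 2)) (_ : ∀ h, ∑ i, χ h i = 0) (f : C(E, BSO 7))
      (L : C(Z, Frames 7)) (_ : ∀ z, f (q z) = BSO.mk (L z))
      (_ : ∀ (h : H) (z : Z) (i : Fin 7), (L (h +ᵥ z)).1 i = sg (χ h i) • (L z).1 i),
      ∃ b : Coch E 1, ∀ (σ : C(Simp 2, E)) (τ : C(Simp 2, Z)), (∀ t, q (τ t) = σ t) →
        pull f W σ = omegaVal label χ τ + cobd b σ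

end TC
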